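import Pool.Agent.Y24.GL.H6
import Pool.Agent.Y24.GL.H7
import Pool.Agent.Y96.SX.MV

/-!
# The mollified L-function slightly to the right of the line `Re s = 1`
-/

set_option autoImplicit false

namespace Pool.Agent.N831.LP

open Complex Finset Filter MeasureTheory
open Pool.Agent.H24R2.DZ (MM)
open Pool.Agent.Y771.GL (Dat dat_of_frm af af_apply)
open Pool.Agent.Y671.GL (mf bq IsL mT yT Frm mv1_all)
open Pool.Agent.Y24.GL

variable {ps lam : ℕ → ℂ}

noncomputable def Ze (η : ℝ) : ℝ := ∑' n : ℕ, (n : ℝ) ^ (-(1 + η))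

lemma Ze_nonneg (η : ℝ) : 0 ≤ Ze η := tsum_nonneg fun n => by positivity

/-- Cauchy–Schwarz -/
lemma tail_bd {g : ℕ → ℂ} {K L η N0 : ℝ} (hη : 0 < η) (hLη : 1 / L ≤ η) (hN0 : 1 ≤ N0)
    (hg : ∀ X : ℕ, ∑ n ∈ Icc 1 X, (n : ℝ) ^ (-(1 + 1 / L)) * ‖g n‖ ^ 2 ≤ K)
    (h0 : ∀ n : ℕ, 1 ≤ n → (n : ℝ) < N0 → g n = 0) :
    Summable (fun n : ℕ => ‖g n‖ * (n : ℝ) ^ (-(1 + η))) ∧
    ∑' n : ℕ, ‖g n‖ * (n : ℝ) ^ (-(1 + η)) ≤ Real.sqrt (K * Ze (η / 2)) * N0 ^ (-(η / 4)) := by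
  have hK : 0 ≤ K := by simpa using hg 0
  have hZ := Ze_nonneg (η / 2)
  have hN00 : 0 < N0 := by linarith
  have hsum : Summable fun n : ℕ => (n : ℝ) ^ (-(1 + η / 2)) := Real.summable_nat_rpow.2 (by linarith)
  have key : ∀ S : Finset ℕ, ∑ n ∈ S, ‖g n‖ * (n : ℝ) ^ (-(1 + η)) ≤
      Real.sqrt (K * Ze (η / 2)) * N0 ^ (-(η / 4)) := by
    intro S
    set X := S.sup id with hX
    have hS : ∑ n ∈ S, ‖g n‖ * (n : ℝ) ^ (-(1 + η)) ≤ ∑ n ∈ Icc 1 X, ‖g n‖ * (n : ℝ) ^ (-(1 + η)) := by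
      refine (sum_le_sum_of_subset_of_nonneg (t := insert 0 (Icc 1 X)) ?_ (fun _ _ _ => by positivity)).trans ?_
      · intro n hn
        rw [mem_insert, mem_Icc]
        have : n ≤ X := le_sup (f := id) hn
        omega
      · rw [sum_insert (by simp)]
        have : (((0 : ℕ) : ℝ)) ^ (-(1 + η)) = 0 := by
          rw [Nat.cast_zero, Real.zero_rpow (by linarith)]
        rw [this, mul_zero, zero_add]
    refine hS.trans ?_
    have hcs := sum_mul_sq_le_sq_mul_sq (Icc 1 X) (fun n : ℕ => ‖g n‖ * (n : ℝ) ^ (-((1 + 1 / L) / 2)))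
      (fun n : ℕ => if N0 ≤ (n : ℝ) then (n : ℝ) ^ (-(1 + η) + (1 + 1 / L) / 2) else 0)
    have e1 : ∑ n ∈ Icc 1 X, (‖g n‖ * (n : ℝ) ^ (-((1 + 1 / L) / 2))) *
        (if N0 ≤ (n : ℝ) then (n : ℝ) ^ (-(1 + η) + (1 + 1 / L) / 2) else 0) =
        ∑ n ∈ Icc 1 X, ‖g n‖ * (n : ℝ) ^ (-(1 + η)) := by
      refine sum_congr rfl fun n hn => ?_
      have hn1 := (mem_Icc.mp hn).1
      have hn0 : (0 : ℝ) < n := by exact_mod_cast hn1
      split_ifs with h
      · rw [mul_assoc, ← Real.rpow_add hn0]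
        congr 2; ring
      · rw [h0 n hn1 (not_le.mp h)]; simp
    rw [e1] at hcs
    have e2 : ∑ n ∈ Icc 1 X, (‖g n‖ * (n : ℝ) ^ (-((1 + 1 / L) / 2))) ^ 2 ≤ K := by
      refine le_trans (le_of_eq (sum_congr rfl fun n hn => ?_)) (hg X)
      have hn1 := (mem_Icc.mp hn).1
      have hn0 : (0 : ℝ) < n := by exact_mod_cast hn1
      rw [mul_pow, ← Real.rpow_natCast ((n : ℝ) ^ (-((1 + 1 / L) / 2))) 2, ← Real.rpow_mul hn0.le, mul_comm]
      congr 2; push_cast; ring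
    have e3 : ∑ n ∈ Icc 1 X, (if N0 ≤ (n : ℝ) then (n : ℝ) ^ (-(1 + η) + (1 + 1 / L) / 2) else 0) ^ 2 ≤
        N0 ^ (-(η / 2)) * Ze (η / 2) := by
      have e4 : ∀ n ∈ Icc 1 X, (if N0 ≤ (n : ℝ) then (n : ℝ) ^ (-(1 + η) + (1 + 1 / L) / 2) else 0) ^ 2 ≤
          N0 ^ (-(η / 2)) * (n : ℝ) ^ (-(1 + η / 2)) := by
        intro n hn
        have hn1 := (mem_Icc.mp hn).1
        have hn0 : (0 : ℝ) < n := by exact_mod_cast hn1
        have hn1' : (1 : ℝ) ≤ n := by exact_mod_cast hn1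
        split_ifs with h
        · rw [← Real.rpow_natCast ((n : ℝ) ^ (-(1 + η) + (1 + 1 / L) / 2)) 2, ← Real.rpow_mul hn0.le]
          have e5 : (n : ℝ) ^ ((-(1 + η) + (1 + 1 / L) / 2) * ((2 : ℕ) : ℝ)) ≤ (n : ℝ) ^ (-(η / 2) + -(1 + η / 2)) := by
            apply Real.rpow_le_rpow_of_exponent_le hn1'
            push_cast
            linarith
          refine e5.trans ?_
          rw [Real.rpow_add hn0]
          apply mul_le_mul_of_nonneg_right _ (by positivity)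
          exact Real.rpow_le_rpow_of_nonpos hN00 h (by linarith)
        · rw [zero_pow two_ne_zero]; positivity
      refine (sum_le_sum e4).trans ?_
      rw [← mul_sum]
      exact mul_le_mul_of_nonneg_left (hsum.sum_le_tsum _ fun _ _ => by positivity) (by positivity)
    have hnn : 0 ≤ ∑ n ∈ Icc 1 X, ‖g n‖ * (n : ℝ) ^ (-(1 + η)) := sum_nonneg fun _ _ => by positivity
    rw [← pow_le_pow_iff_left₀ hnn (by positivity) two_ne_zero]
    refine hcs.trans ?_
    have e6 : (Real.sqrt (K * Ze (η / 2)) * N0 ^ (-(η / 4))) ^ 2 = K * (N0 ^ (-(η / 2)) * Ze (η / 2)) := by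
      rw [mul_pow, Real.sq_sqrt (by positivity), ← Real.rpow_natCast (N0 ^ (-(η / 4))) 2, ← Real.rpow_mul hN00.le]
      have : -(η / 4) * ((2 : ℕ) : ℝ) = -(η / 2) := by push_cast; ring
      rw [this]; ring
    rw [e6]
    exact mul_le_mul e2 e3 (sum_nonneg fun _ _ => by positivity) hK
  have hs : Summable (fun n : ℕ => ‖g n‖ * (n : ℝ) ^ (-(1 + η))) :=
    summable_of_sum_le (fun n => by positivity) key
  exact ⟨hs, hs.tsum_le_of_sum_le key⟩

/-- the Dirichlet series on the line -/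
lemma ls_line {g : ℕ → ℂ} {K L η N0 : ℝ} (hη : 0 < η) (hLη : 1 / L ≤ η) (hN0 : 1 ≤ N0)
    (hg : ∀ X : ℕ, ∑ n ∈ Icc 1 X, (n : ℝ) ^ (-(1 + 1 / L)) * ‖g n‖ ^ 2 ≤ K)
    (h0 : ∀ n : ℕ, 1 ≤ n → (n : ℝ) < N0 → g n = 0) {s : ℂ} (hs : s.re = 1 + η) :
    LSeriesSummable g s ∧ ‖LSeries g s‖ ≤ Real.sqrt (K * Ze (η / 2)) * N0 ^ (-(η / 4)) := by
  obtain ⟨h1, h2⟩ := tail_bd hη hLη hN0 hg h0
  obtain ⟨h3, h4⟩ := sum_of h1 hs.ge
  exact ⟨h3, h4.trans h2⟩

section series

variable {k N : ℕ} {F : ℂ → ℂ}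

/-- the Dirichlet series of `F m` -/
lemma W_sum (hf : Frm k N ps lam) (hF : IsL lam F) {θ T : ℝ} (hθ : 0 < θ) (hT : 3 ≤ T)
    {s : ℂ} (hs : 1 < s.re) : LSeriesSummable (fun n => BA ps lam θ (Real.log T) n) s ∧
      LSeries (fun n => BA ps lam θ (Real.log T) n) s = F s * mT ps lam θ T s := by
  have hT0 : 0 < T := by linarith
  have hlT : 1 ≤ Real.log T := by
    rw [Real.le_log_iff_exp_le hT0]
    have := Real.exp_one_lt_d9
    linarith
  have hz : ∀ n : ℕ, n ∉ Icc 1 (yT θ T) → LSeries.term (fun n => af (bq ps lam θ (Real.log T) 0) n) s n = 0 := by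
    intro n hn
    rcases Nat.eq_zero_or_pos n with h0 | h0
    · subst h0; simp
    · rw [LSeries.term_of_ne_zero (by omega), af_apply (by omega)]
      have h3 : yT θ T < n := by
        by_contra hcon
        exact hn (mem_Icc.mpr ⟨h0, by omega⟩)
      rw [Pool.Agent.Y494.GL.bq_zero_of (Real.log T) hlT hθ 0 ps lam (yT θ T) n ?_ h3]
      · simp
      · unfold Pool.Agent.Y671.GL.yT
        refine le_trans (le_of_eq ?_) (Nat.le_ceil _)
        rw [Real.rpow_def_of_pos hT0, mul_comm]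
  have a1 : LSeriesSummable (fun n => af (bq ps lam θ (Real.log T) 0) n) s :=
    summable_of_ne_finset_zero (s := Icc 1 (yT θ T)) hz
  obtain ⟨-, -, -, h4⟩ := Pool.Agent.Y771.GL.mf k N _ _ hf
  obtain ⟨h5, -⟩ := h4 s.re hs
  have a2' : LSeriesSummable lam s := (sum_of h5 le_rfl).1
  have hcg : ∀ {n : ℕ}, n ≠ 0 → lam n = af lam n := fun {n} hn => (af_apply hn).symm
  have a2 : LSeriesSummable (fun n => af lam n) s := (LSeriesSummable_congr s hcg).1 a2'
  unfold BA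
  refine ⟨ArithmeticFunction.LSeriesSummable_mul a1 a2, ?_⟩
  rw [ArithmeticFunction.LSeries_mul' a1 a2, mul_comm]
  congr 1
  · rw [ser_eq hf hF hs]
    exact (LSeries_congr hcg s).symm
  · unfold Pool.Agent.Y671.GL.mT Pool.Agent.H24R2.DZ.MM LSeries
    rw [tsum_eq_sum (s := Icc 1 (yT θ T)) hz]
    refine sum_congr rfl fun n hn => ?_
    have hn1 := (mem_Icc.mp hn).1
    rw [LSeries.term_of_ne_zero (by omega), af_apply (by omega), Complex.cpow_neg]
    rfl

lemma one_sum (s : ℂ) : LSeriesSummable (fun n => (1 : ArithmeticFunction ℂ) n) s ∧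
    LSeries (fun n => (1 : ArithmeticFunction ℂ) n) s = 1 := by
  have e : (fun n => (1 : ArithmeticFunction ℂ) n) = LSeries.delta := by
    funext n
    simp [ArithmeticFunction.one_apply, LSeries.delta]
  rw [e]
  refine ⟨?_, by rw [LSeries_delta]; rfl⟩
  unfold LSeriesSummable
  refine summable_of_ne_finset_zero (s := {1}) fun n hn => ?_
  rw [mem_singleton] at hn
  rcases eq_or_ne n 0 with h0 | h0
  · rw [h0]; simp
  · rw [LSeries.term_of_ne_zero h0]
    simp [LSeries.delta, hn]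

lemma sub_sum {θ L : ℝ} {s : ℂ} (h : LSeriesSummable (fun n => BA ps lam θ L n) s) :
    LSeriesSummable (fun n => (1 - BA ps lam θ L) n) s ∧
    LSeries (fun n => (1 - BA ps lam θ L) n) s = 1 - LSeries (fun n => BA ps lam θ L n) s := by
  have e2 : (fun n => (1 - BA ps lam θ L) n) = (fun n => (1 : ArithmeticFunction ℂ) n) - fun n => BA ps lam θ L n := by
    funext n
    rw [Pi.sub_apply, sub_eq_add_neg, ArithmeticFunction.add_apply, ArithmeticFunction.neg_apply, ← sub_eq_add_neg]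
  obtain ⟨h1, h2⟩ := one_sum s
  rw [e2]
  exact ⟨h1.sub h, by rw [LSeries_sub h1 h, h2]⟩

lemma IV_sum {θ L : ℝ} {s : ℂ} (h : LSeriesSummable (fun n => BA ps lam θ L n) s) (K : ℕ) :
    LSeriesSummable (fun n => IV ps lam θ L K n) s ∧
    LSeries (fun n => IV ps lam θ L K n) s = ∑ k ∈ range K, (1 - LSeries (fun n => BA ps lam θ L n) s) ^ k := by
  obtain ⟨a3, e1⟩ := sub_sum h
  induction K with
  | zero =>
    have e0 : (fun n => IV ps lam θ L 0 n) = fun _ => (0 : ℂ) := by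
      funext n
      simp [IV]
    rw [e0]
    refine ⟨?_, ?_⟩
    · have : LSeries.term (fun _ => (0 : ℂ)) s = fun _ => 0 := by
        funext n
        rcases eq_or_ne n 0 with h | h
        · rw [h]; simp
        · rw [LSeries.term_of_ne_zero h]; simp
      unfold LSeriesSummable
      rw [this]
      exact summable_zero
    · have : LSeries (fun _ => (0 : ℂ)) s = 0 := by
        have h5 := LSeries_zero
        exact congrFun h5 s
      rw [this]
      simp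
  | succ K ih =>
    have e5 : (fun n => IV ps lam θ L (K + 1) n) = (fun n => IV ps lam θ L K n) + fun n => ((1 - BA ps lam θ L) ^ K) n := by
      funext n
      unfold IV
      rw [sum_range_succ, ArithmeticFunction.add_apply]
      rfl
    have h5 := LS_pow a3 K
    rw [e5]
    refine ⟨ih.1.add h5.1, ?_⟩
    rw [LSeries_add ih.1 h5.1, ih.2, h5.2, e1, sum_range_succ]

/-- the coefficients -/
noncomputable def ac (ps lam : ℕ → ℂ) (θ η : ℝ) (K : ℕ) (T : ℝ) (n : ℕ) : ℂ :=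
  if ⌊Real.exp (1 * Real.log T)⌋₊ < n then IV ps lam θ (Real.log T) K n * ((n : ℝ) ^ (-(1 + η)) : ℝ) else 0

lemma norm_add3_sq (a b c : ℂ) : ‖a + b + c‖ ^ 2 ≤ 3 * (‖a‖ ^ 2 + ‖b‖ ^ 2 + ‖c‖ ^ 2) := by
  have h := norm_add₃_le (a := a) (b := b) (c := c)
  have h1 := pow_le_pow_left₀ (norm_nonneg _) h 2
  nlinarith [sq_nonneg (‖a‖ - ‖b‖), sq_nonneg (‖b‖ - ‖c‖), sq_nonneg (‖a‖ - ‖c‖)]

/-- the function on the line `Re s = 1 + η` -/
theorem fd_line (hf : Frm k N ps lam) (hF : IsL lam F) {θ η : ℝ} (hθ : 0 < θ) (hη : 0 < η) (hη1 : η ≤ 1)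
    {K : ℕ} (hK : 8 ≤ K * θ * η) : ∃ C : ℝ, 0 < C ∧ ∀ᶠ T : ℝ in atTop, ∀ y : ℝ,
    ‖fd F (PM ps lam θ 1 K) T (((1 + η : ℝ) : ℂ) + (y : ℂ) * I)‖ ^ 2 ≤
      C / T ^ 2 + C * ‖∑ n ∈ Icc 1 ⌈T ^ (4 / η)⌉₊, ac ps lam θ η K T n * (n : ℂ) ^ (-(I * (y : ℂ)))‖ ^ 2 := by
  obtain ⟨th, C0, hd⟩ := dat_of_frm hf
  obtain ⟨K1, hK1, h1⟩ := BA_pow hd hθ 1
  obtain ⟨K2, hK2, h2⟩ := SQ_pow hd hθ 1 0
  obtain ⟨K3, hK3, h3⟩ := SQ_IV hd hθ K
  simp only [pow_one, pow_zero, mul_one] at h1 h2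
  set Z := Ze (η / 2) with hZ
  have hZ0 : 0 ≤ Z := Ze_nonneg _
  set A1 := Real.sqrt (K1 * Z) with hA1
  set A2 := Real.sqrt (K2 * Z) with hA2
  set A3 := Real.sqrt (K3 * Z) with hA3
  refine ⟨3 * ((A2 ^ K) ^ 2 + (A1 * A3) ^ 2 + A1 ^ 2) + 1, by positivity, ?_⟩
  filter_upwards [eventually_ge_atTop 3, Real.tendsto_log_atTop.eventually_ge_atTop (max 1 (1 / η))] with T hT hL y
  have hT0 : 0 < T := by linarith
  set L := Real.log T with hLdef
  have hL1 : 1 ≤ L := (le_max_left _ _).trans hL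
  have hL0 : 0 < L := by linarith
  have hLη : 1 / L ≤ η := by
    have := (le_max_right _ _).trans hL
    rw [div_le_iff₀ hL0]
    rw [div_le_iff₀ hη] at this
    linarith
  set s : ℂ := ((1 + η : ℝ) : ℂ) + (y : ℂ) * I with hs
  have hsre : s.re = 1 + η := by rw [hs]; simp
  have hs1 : 1 < s.re := by rw [hsre]; linarith
  obtain ⟨w1, w2⟩ := W_sum hf hF hθ hT hs1
  rw [← hLdef] at w1 w2
  set W := LSeries (fun n => BA ps lam θ L n) s with hW
  obtain ⟨v1, v2⟩ := IV_sum w1 K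
  rw [← hW] at v2
  set V := LSeries (fun n => IV ps lam θ L K n) s with hV
  obtain ⟨u1, u2⟩ := sub_sum w1
  rw [← hW] at u2
  -- the bounds
  have hWV : W * V - 1 = -(1 - W) ^ K := by
    have h5 := geom_sum_mul (1 - W) K
    rw [← v2] at h5
    linear_combination -h5
  have bW : ‖W‖ ≤ A1 := by
    have h5 := (ls_line (N0 := 1) hη hLη le_rfl (fun X => h1 L X hL1) (fun n hn h => by
      exfalso
      have : (1 : ℝ) ≤ n := by exact_mod_cast hn
      linarith) hsre).2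
    rw [Real.one_rpow, mul_one] at h5
    exact h5
  have b1W : ‖1 - W‖ ≤ A2 * T ^ (-(θ * η / 8)) := by
    have h5 := (ls_line (N0 := T ^ (θ / 2)) hη hLη (Real.one_le_rpow (by linarith) (by positivity))
      (fun X => h2 L X hL1) (fun n hn h => BA_van hd hθ hL0 n hn (by
        have hn0 : (0 : ℝ) < n := by exact_mod_cast hn
        have := Real.log_lt_log hn0 h
        rwa [Real.log_rpow hT0] at this)) hsre).2
    rw [u2, ← Real.rpow_mul hT0.le] at h5
    have e : θ / 2 * -(η / 4) = -(θ * η / 8) := by ring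
    rwa [e] at h5
  have bpow : ‖(1 - W) ^ K‖ ≤ A2 ^ K * (1 / T) := by
    rw [norm_pow]
    calc ‖1 - W‖ ^ K ≤ (A2 * T ^ (-(θ * η / 8))) ^ K := pow_le_pow_left₀ (norm_nonneg _) b1W K
      _ = A2 ^ K * T ^ (-(θ * η / 8) * K) := by
          rw [mul_pow, ← Real.rpow_natCast (T ^ (-(θ * η / 8))) K, ← Real.rpow_mul hT0.le]
      _ ≤ A2 ^ K * T ^ (-1 : ℝ) := by
          apply mul_le_mul_of_nonneg_left _ (by positivity)
          apply Real.rpow_le_rpow_of_exponent_le (by linarith)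
          linarith
      _ = _ := by rw [Real.rpow_neg_one, one_div]
  -- the tail
  set Y := ⌊Real.exp (1 * L)⌋₊ with hY
  set N1 := ⌈T ^ (4 / η)⌉₊ with hN1
  have hYN : Y ≤ N1 := by
    have h6 : (Y : ℝ) ≤ N1 := by
      refine (Nat.floor_le (Real.exp_pos _).le).trans (le_trans ?_ (Nat.le_ceil _))
      rw [one_mul, hLdef, Real.exp_log hT0]
      calc T = T ^ (1 : ℝ) := (Real.rpow_one T).symm
        _ ≤ T ^ (4 / η) := by
            apply Real.rpow_le_rpow_of_exponent_le (by linarith)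
            rw [le_div_iff₀ hη]; linarith
    exact_mod_cast h6
  set g : ℕ → ℂ := fun n => if n ≤ N1 then 0 else IV ps lam θ L K n with hg
  have hgS : ∀ X : ℕ, ∑ n ∈ Icc 1 X, (n : ℝ) ^ (-(1 + 1 / L)) * ‖g n‖ ^ 2 ≤ K3 := by
    intro X
    refine le_trans (sum_le_sum fun n _ => ?_) (h3 L X hL1)
    apply mul_le_mul_of_nonneg_left _ (by positivity)
    rw [hg]
    simp only
    split_ifs
    · simp
    · exact le_rfl
  have hpow1 : 1 ≤ T ^ (4 / η) := Real.one_le_rpow (by linarith) (by positivity)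
  obtain ⟨g1, g2⟩ := ls_line (N0 := T ^ (4 / η)) hη hLη hpow1 hgS (fun n hn h => by
    rw [hg]
    simp only
    rw [if_pos]
    have : (n : ℝ) ≤ N1 := h.le.trans (Nat.le_ceil _)
    exact_mod_cast this) hsre
  rw [← Real.rpow_mul hT0.le] at g2
  have e1 : 4 / η * -(η / 4) = -1 := by field_simp
  rw [e1, Real.rpow_neg_one] at g2
  set G := LSeries g s with hG
  -- splitting
  set D := ∑ n ∈ Icc 1 N1, ac ps lam θ η K T n * (n : ℂ) ^ (-(I * (y : ℂ))) with hD
  set P := MM Y (IV ps lam θ L K) s with hP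
  have hsplit : V = P + D + G := by
    have e5 : P = ∑' n, (if n ≤ Y then LSeries.term (fun n => IV ps lam θ L K n) s n else 0) := by
      rw [hP]
      unfold Pool.Agent.H24R2.DZ.MM
      rw [tsum_eq_sum (s := Icc 1 Y)]
      · refine sum_congr rfl fun n hn => ?_
        have hn1 := mem_Icc.mp hn
        rw [if_pos hn1.2, LSeries.term_of_ne_zero (by omega), Complex.cpow_neg]
        rfl
      · intro n hn
        split_ifs with h6
        · have : n = 0 := by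
            by_contra h7
            exact hn (mem_Icc.mpr ⟨by omega, h6⟩)
          rw [this]; simp
        · rfl
    have e6 : D = ∑' n, (if Y < n ∧ n ≤ N1 then LSeries.term (fun n => IV ps lam θ L K n) s n else 0) := by
      rw [hD, tsum_eq_sum (s := Icc 1 N1)]
      · refine sum_congr rfl fun n hn => ?_
        have hn1 := mem_Icc.mp hn
        unfold ac
        rw [← hLdef, ← hY]
        by_cases h8 : Y < n
        · rw [if_pos h8, if_pos ⟨h8, hn1.2⟩, LSeries.term_of_ne_zero (by omega)]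
          have hn0 : (n : ℂ) ≠ 0 := by exact_mod_cast (by omega : n ≠ 0)
          have e7 : (n : ℂ) ^ s = ((n : ℝ) ^ (1 + η) : ℝ) * (n : ℂ) ^ (I * (y : ℂ)) := by
            rw [hs, Complex.cpow_add _ _ hn0, mul_comm (y : ℂ) I,
              Complex.ofReal_cpow (Nat.cast_nonneg n)]
            rfl
          have e8 : (((n : ℝ) ^ (-(1 + η)) : ℝ) : ℂ) = ((((n : ℝ) ^ (1 + η) : ℝ)) : ℂ)⁻¹ := by
            rw [Real.rpow_neg (Nat.cast_nonneg n)]
            push_cast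
            rfl
          rw [e7, e8, Complex.cpow_neg, div_eq_mul_inv, mul_inv, ← mul_assoc]
        · rw [if_neg h8, if_neg (fun h => h8 h.1), zero_mul]
      · intro n hn
        split_ifs with h6
        · exact absurd (mem_Icc.mpr ⟨by omega, h6.2⟩) hn
        · rfl
    have e9 : G = ∑' n, (if N1 < n then LSeries.term (fun n => IV ps lam θ L K n) s n else 0) := by
      rw [hG]
      unfold LSeries
      refine tsum_congr fun n => ?_
      rcases Nat.eq_zero_or_pos n with h | h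
      · subst h; simp
      · rw [LSeries.term_of_ne_zero (by omega)]
        rw [hg]
        simp only
        by_cases h8 : N1 < n
        · rw [if_pos h8, if_neg (by omega), LSeries.term_of_ne_zero (by omega)]
        · rw [if_neg h8, if_pos (by omega), zero_div]
    have s1 : Summable fun n => (if n ≤ Y then LSeries.term (fun n => IV ps lam θ L K n) s n else 0) :=
      summable_of_ne_finset_zero (s := Icc 0 Y) fun n hn => by
        rw [if_neg]
        intro h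
        exact hn (mem_Icc.mpr ⟨by omega, h⟩)
    have s2 : Summable fun n => (if Y < n ∧ n ≤ N1 then LSeries.term (fun n => IV ps lam θ L K n) s n else 0) :=
      summable_of_ne_finset_zero (s := Icc 0 N1) fun n hn => by
        rw [if_neg]
        intro h
        exact hn (mem_Icc.mpr ⟨by omega, h.2⟩)
    have s3 : Summable fun n => (if N1 < n then LSeries.term (fun n => IV ps lam θ L K n) s n else 0) := by
      have : LSeriesSummable g s := g1
      unfold LSeriesSummable at this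
      refine this.congr fun n => ?_
      rcases Nat.eq_zero_or_pos n with h | h
      · subst h; simp
      · rw [LSeries.term_of_ne_zero (by omega)]
        rw [hg]
        simp only
        by_cases h8 : N1 < n
        · rw [if_pos h8, if_neg (by omega), LSeries.term_of_ne_zero (by omega)]
        · rw [if_neg h8, if_pos (by omega), zero_div]
    rw [e5, e6, e9, ← s1.tsum_add s2, ← (s1.add s2).tsum_add s3, hV]
    unfold LSeries
    refine tsum_congr fun n => ?_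
    by_cases h7 : n ≤ Y
    · rw [if_pos h7, if_neg (by omega), if_neg (by omega)]; ring
    · by_cases h8 : n ≤ N1
      · rw [if_neg h7, if_pos (by omega), if_neg (by omega)]; ring
      · rw [if_neg h7, if_neg (by omega), if_pos (by omega)]; ring
  have hfd : fd F (PM ps lam θ 1 K) T s = -(1 - W) ^ K + -(W * D) + -(W * G) := by
    have e1 : fd F (PM ps lam θ 1 K) T s = W * P - 1 := by
      unfold fd PM
      rw [← mul_assoc, ← w2]
    rw [e1, ← hWV, hsplit]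
    ring
  rw [hfd]
  refine (norm_add3_sq _ _ _).trans ?_
  rw [norm_neg, norm_neg, norm_neg, norm_mul W D, norm_mul W G]
  have q1 : ‖(1 - W) ^ K‖ ^ 2 ≤ (A2 ^ K) ^ 2 / T ^ 2 := by
    calc ‖(1 - W) ^ K‖ ^ 2 ≤ (A2 ^ K * (1 / T)) ^ 2 := pow_le_pow_left₀ (norm_nonneg _) bpow 2
      _ = _ := by ring
  have q2 : (‖W‖ * ‖D‖) ^ 2 ≤ A1 ^ 2 * ‖D‖ ^ 2 := by
    rw [mul_pow]
    exact mul_le_mul_of_nonneg_right (pow_le_pow_left₀ (norm_nonneg _) bW 2) (sq_nonneg _)
  have q3 : (‖W‖ * ‖G‖) ^ 2 ≤ (A1 * A3) ^ 2 / T ^ 2 := by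
    calc (‖W‖ * ‖G‖) ^ 2 ≤ (A1 * (A3 * T⁻¹)) ^ 2 :=
          pow_le_pow_left₀ (by positivity) (mul_le_mul bW g2 (norm_nonneg _) (Real.sqrt_nonneg _)) 2
      _ = _ := by ring
  have r1 : 0 ≤ (A2 ^ K) ^ 2 / T ^ 2 := by positivity
  have r2 : 0 ≤ (A1 * A3) ^ 2 / T ^ 2 := by positivity
  have r3 : 0 ≤ A1 ^ 2 / T ^ 2 := by positivity
  have r4 : 0 ≤ 1 / T ^ 2 := by positivity
  have r5 : 0 ≤ (A2 ^ K) ^ 2 * ‖D‖ ^ 2 := by positivity
  have r6 : 0 ≤ (A1 * A3) ^ 2 * ‖D‖ ^ 2 := by positivity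
  have r7 : 0 ≤ ‖D‖ ^ 2 := by positivity
  have e9 : (3 * ((A2 ^ K) ^ 2 + (A1 * A3) ^ 2 + A1 ^ 2) + 1) / T ^ 2 =
      3 * ((A2 ^ K) ^ 2 / T ^ 2 + (A1 * A3) ^ 2 / T ^ 2 + A1 ^ 2 / T ^ 2) + 1 / T ^ 2 := by ring
  have e10 : (3 * ((A2 ^ K) ^ 2 + (A1 * A3) ^ 2 + A1 ^ 2) + 1) * ‖D‖ ^ 2 =
      3 * ((A2 ^ K) ^ 2 * ‖D‖ ^ 2 + (A1 * A3) ^ 2 * ‖D‖ ^ 2 + A1 ^ 2 * ‖D‖ ^ 2) + ‖D‖ ^ 2 := by ring
  rw [e9, e10]
  linarith

/-- **The mean square on the line `Re s = 1 + η`.** -/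
theorem sqr (hf : Frm k N ps lam) (hF : IsL lam F) {θ η : ℝ} (hθ : 0 < θ) (hη : 0 < η) (hη1 : η ≤ 1)
    {K : ℕ} (hK : 8 ≤ K * θ * η) : ∃ C : ℝ, 0 < C ∧ ∀ᶠ T : ℝ in atTop,
    ∫ y in (T / 4)..(4 * T), ‖fd F (PM ps lam θ 1 K) T (((1 + η : ℝ) : ℂ) + (y : ℂ) * I)‖ ^ 2 ≤ C * Real.log T := by
  obtain ⟨th, C0, hd⟩ := dat_of_frm hf
  obtain ⟨K3, hK3, h3⟩ := SQ_IV hd hθ K
  obtain ⟨C1, hC1, hline⟩ := fd_line hf hF hθ hη hη1 hK
  refine ⟨C1 * (4 + K3 * (10 + 6 * (4 / η + 1))), by positivity, ?_⟩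
  filter_upwards [hline, eventually_ge_atTop 4, Real.tendsto_log_atTop.eventually_ge_atTop (max 1 (1 / η))] with T hline hT hL
  have hT0 : 0 < T := by linarith
  set L := Real.log T with hLdef
  have hL1 : 1 ≤ L := (le_max_left _ _).trans hL
  have hL0 : 0 < L := by linarith
  have hLη : 1 / L ≤ η := by
    have := (le_max_right _ _).trans hL
    rw [div_le_iff₀ hL0]
    rw [div_le_iff₀ hη] at this
    linarith
  set N1 := ⌈T ^ (4 / η)⌉₊ with hN1
  set a := ac ps lam θ η K T with ha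
  set D : ℝ → ℂ := fun y => ∑ n ∈ Icc 1 N1, a n * (n : ℂ) ^ (-(I * (y : ℂ))) with hD
  have hDc : Continuous D := by
    rw [hD]
    refine continuous_finsetSum _ fun n hn => ?_
    have hn0 : (n : ℂ) ≠ 0 := by
      have := (mem_Icc.mp hn).1
      exact_mod_cast (by omega : n ≠ 0)
    exact continuous_const.mul (Continuous.const_cpow (by fun_prop) (Or.inl hn0))
  have hmv := Pool.Agent.Y96.SX.mv N1 (4 * T) (by linarith) a
  -- the coefficients
  have hco : ∀ n ∈ Icc 1 N1, T * ‖a n‖ ^ 2 ≤ n * ‖a n‖ ^ 2 ∧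
      (n : ℝ) * ‖a n‖ ^ 2 ≤ (n : ℝ) ^ (-(1 + 1 / L)) * ‖IV ps lam θ L K n‖ ^ 2 := by
    intro n hn
    have hn1 := (mem_Icc.mp hn).1
    have hn0 : (0 : ℝ) < n := by exact_mod_cast hn1
    have hn1' : (1 : ℝ) ≤ n := by exact_mod_cast hn1
    rw [ha]
    unfold ac
    rw [← hLdef]
    split_ifs with h
    · have hTn : T < n := by
        have := Nat.lt_of_floor_lt h
        rwa [one_mul, hLdef, Real.exp_log hT0] at this
      refine ⟨mul_le_mul_of_nonneg_right hTn.le (sq_nonneg _), ?_⟩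
      rw [norm_mul, Complex.norm_real, Real.norm_of_nonneg (by positivity), mul_pow]
      have e1 : (n : ℝ) * ((n : ℝ) ^ (-(1 + η))) ^ 2 ≤ (n : ℝ) ^ (-(1 + 1 / L)) := by
        rw [← Real.rpow_natCast ((n : ℝ) ^ (-(1 + η))) 2, ← Real.rpow_mul hn0.le, ← Real.rpow_one_add' hn0.le (by
          push_cast; intro h; nlinarith)]
        apply Real.rpow_le_rpow_of_exponent_le hn1'
        push_cast
        linarith
      calc (n : ℝ) * (‖IV ps lam θ L K n‖ ^ 2 * ((n : ℝ) ^ (-(1 + η))) ^ 2)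
          = ((n : ℝ) * ((n : ℝ) ^ (-(1 + η))) ^ 2) * ‖IV ps lam θ L K n‖ ^ 2 := by ring
        _ ≤ _ := mul_le_mul_of_nonneg_right e1 (sq_nonneg _)
    · simp only [norm_zero]
      constructor
      · simp
      · have : 0 ≤ (n : ℝ) ^ (-(1 + 1 / L)) * ‖IV ps lam θ L K n‖ ^ 2 := by positivity
        simpa using this
  have hs2 : ∑ n ∈ Icc 1 N1, (n : ℝ) * ‖a n‖ ^ 2 ≤ K3 :=
    (sum_le_sum fun n hn => (hco n hn).2).trans (h3 L N1 hL1)
  have hs1 : T * ∑ n ∈ Icc 1 N1, ‖a n‖ ^ 2 ≤ K3 := by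
    rw [mul_sum]
    exact (sum_le_sum fun n hn => (hco n hn).1).trans hs2
  have hharm : ∑ k ∈ Icc 1 N1, (1 : ℝ) / k ≤ 1 + (4 / η + 1) * L := by
    have h5 := harmonic_le_one_add_log N1
    have h6 : ((harmonic N1 : ℚ) : ℝ) = ∑ k ∈ Icc 1 N1, (1 : ℝ) / k := by
      rw [harmonic_eq_sum_Icc]
      push_cast
      refine sum_congr rfl fun k _ => by rw [one_div]
    rw [← h6]
    refine h5.trans ?_
    have hpow1 : 1 ≤ T ^ (4 / η) := Real.one_le_rpow (by linarith) (by positivity)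
    have h7 : (N1 : ℝ) ≤ T ^ (4 / η + 1) := by
      have h8 := (Nat.ceil_lt_add_one (by positivity : 0 ≤ T ^ (4 / η))).le
      rw [Real.rpow_add hT0, Real.rpow_one]
      refine h8.trans ?_
      nlinarith
    have h9 : (0 : ℝ) < N1 := by
      have := Nat.le_ceil (T ^ (4 / η))
      linarith
    have h10 := Real.log_le_log h9 h7
    rw [Real.log_rpow hT0] at h10
    linarith
  have hK30 : 0 ≤ ∑ n ∈ Icc 1 N1, (n : ℝ) * ‖a n‖ ^ 2 := sum_nonneg fun _ _ => by positivity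
  have hDint : ∫ u in (1 : ℝ)..(4 * T), ‖D u‖ ^ 2 ≤ 4 * K3 + 6 * (1 + (4 / η + 1) * L) * K3 := by
    refine hmv.trans ?_
    have h5 : 4 * T * ∑ n ∈ Icc 1 N1, ‖a n‖ ^ 2 ≤ 4 * K3 := by linarith
    have h6 : 6 * (∑ k ∈ Icc 1 N1, (1 : ℝ) / k) * ∑ n ∈ Icc 1 N1, (n : ℝ) * ‖a n‖ ^ 2 ≤
        6 * (1 + (4 / η + 1) * L) * K3 := by
      apply mul_le_mul _ hs2 hK30 (by positivity)
      linarith
    linarith
  have hDi : ∀ p q : ℝ, IntervalIntegrable (fun u => ‖D u‖ ^ 2) volume p q := fun p q =>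
    (hDc.norm.pow 2).intervalIntegrable _ _
  have hle : T / 4 ≤ 4 * T := by linarith
  have hsub : ∫ u in (T / 4)..(4 * T), ‖D u‖ ^ 2 ≤ ∫ u in (1 : ℝ)..(4 * T), ‖D u‖ ^ 2 := by
    rw [← intervalIntegral.integral_add_adjacent_intervals (hDi 1 (T / 4)) (hDi (T / 4) (4 * T))]
    have : 0 ≤ ∫ u in (1 : ℝ)..(T / 4), ‖D u‖ ^ 2 :=
      intervalIntegral.integral_nonneg (by linarith) fun _ _ => by positivity
    linarith
  have hfc : Continuous fun y : ℝ => fd F (PM ps lam θ 1 K) T (((1 + η : ℝ) : ℂ) + (y : ℂ) * I) := by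
    have h1 : Differentiable ℂ (fd F (PM ps lam θ 1 K) T) := by
      unfold fd PM mT
      exact (hF.diff.mul ((MM_diff _ _).mul (MM_diff _ _))).sub_const 1
    exact h1.continuous.comp (by fun_prop)
  calc ∫ y in (T / 4)..(4 * T), ‖fd F (PM ps lam θ 1 K) T (((1 + η : ℝ) : ℂ) + (y : ℂ) * I)‖ ^ 2
      ≤ ∫ y in (T / 4)..(4 * T), (C1 / T ^ 2 + C1 * ‖D y‖ ^ 2) := by
        refine intervalIntegral.integral_mono_on hle ((hfc.norm.pow 2).intervalIntegrable _ _) ?_ fun y _ => hline y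
        exact (intervalIntegrable_const).add ((hDi _ _).const_mul _)
    _ = (4 * T - T / 4) * (C1 / T ^ 2) + C1 * ∫ y in (T / 4)..(4 * T), ‖D y‖ ^ 2 := by
        rw [intervalIntegral.integral_add intervalIntegrable_const ((hDi _ _).const_mul _),
          intervalIntegral.integral_const, intervalIntegral.integral_const_mul, smul_eq_mul]
    _ ≤ 4 * C1 + C1 * (4 * K3 + 6 * (1 + (4 / η + 1) * L) * K3) := by
        have h5 : (4 * T - T / 4) * (C1 / T ^ 2) ≤ 4 * C1 := by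
          have h6 : (4 * T - T / 4) * (C1 / T ^ 2) = 15 / 4 * C1 * (1 / T) := by field_simp; ring
          rw [h6]
          have h7 : 1 / T ≤ 1 := by rw [div_le_one hT0]; linarith
          nlinarith
        have h6 := mul_le_mul_of_nonneg_left (hsub.trans hDint) hC1.le
        linarith
    _ ≤ C1 * (4 + K3 * (10 + 6 * (4 / η + 1))) * L := by
        have h5 : 0 ≤ C1 * K3 := by positivity
        have h6 : 0 ≤ C1 * K3 * (6 * (4 / η + 1)) := by positivity
        nlinarith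

end series

end Pool.Agent.N831.LP
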