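import Pool.Agent.N831.LP.B
import Pool.Agent.Y24.GL.H5

/-!
# A density theorem near the line `Re s = 1`
-/

set_option autoImplicit false

open Filter MeasureTheory Complex Topology Set

namespace Pool.Agent.N831.LP

open Pool.Agent.Y24.GL

variable {F : ℂ → ℂ} {P : ℝ → ℂ → ℂ}

/-- small mean square on the line `Re s = 1 + η` -/
def Sq (F : ℂ → ℂ) (P : ℝ → ℂ → ℂ) (η : ℝ) : Prop := ∃ C : ℝ, 0 < C ∧ ∀ᶠ T : ℝ in atTop,
    ∫ y in (T / 4)..(4 * T), ‖fd F P T (((1 + η : ℝ) : ℂ) + (y : ℂ) * I)‖ ^ 2 ≤ C * Real.log T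

/-- the parts far away do not matter -/
lemma far_W {h : ℝ → ℝ → ℝ} {C1 : ℝ} {B B' : ℕ} (hC1 : 0 < C1) (hc : ∀ T, 3 ≤ T → Continuous (h T))
    (h0 : ∀ T y, 0 ≤ h T y) (hb : ∀ T y : ℝ, 3 ≤ T → h T y ≤ C1 * T ^ B' * (1 + |y|) ^ B) :
    ∃ C : ℝ, 0 < C ∧ ∀ T : ℝ, 16 ≤ T → ∫ y : ℝ, h T y * Wt (T - 4) (2 * T + 4) y ≤
      2 * (∫ y in (T / 4)..(4 * T), h T y) + C := by
  obtain ⟨K1, hK1, hk1⟩ := Pool.Agent.H448R2.GC.F0.poly_le_exp (B + 2) (1 / 32) (by norm_num)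
  obtain ⟨K2, hK2, hk2⟩ := Pool.Agent.H448R2.GC.F0.poly_le_exp (B' + 2) (1 / 8) (by norm_num)
  refine ⟨C1 * K1 * K2 * 4, by positivity, fun T hT => ?_⟩
  have hT0 : 0 < T := by linarith
  have hU : T - 4 ≤ 2 * T + 4 := by linarith
  have hcT := hc T (by linarith)
  have hpt : ∀ y : ℝ, h T y * Wt (T - 4) (2 * T + 4) y ≤
      Set.indicator (Set.Icc (T / 4) (4 * T)) (fun y => 2 * h T y) y + C1 * K1 * K2 * (1 + y ^ 2)⁻¹ := by
    intro y
    have hW := Wt_le hU y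
    have hW0 := Wt_nonneg hU y
    have hh := h0 T y
    have h1 : 0 ≤ C1 * K1 * K2 * (1 + y ^ 2)⁻¹ := by positivity
    by_cases hy : y ∈ Set.Icc (T / 4) (4 * T)
    · have e : Set.indicator (Set.Icc (T / 4) (4 * T)) (fun y => 2 * h T y) y = 2 * h T y :=
        Set.indicator_of_mem hy _
      rw [e]; nlinarith
    · have hf := W_far hT hy
      have hg := hb T y (by linarith)
      have e1 := hk1 y
      have e2 := hk2 T
      rw [abs_of_pos hT0] at e2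
      have e3 : T ^ B' * (T + 8) ≤ (1 + T) ^ (B' + 2) := by
        rw [pow_add]
        apply mul_le_mul (pow_le_pow_left₀ hT0.le (by linarith) _) (by nlinarith) (by positivity) (by positivity)
      have e4 : 1 + y ^ 2 ≤ (1 + |y|) ^ 2 := by
        rw [← sq_abs]; nlinarith [abs_nonneg y]
      have e5 : (1 + |y|) ^ B * Real.exp (-(y ^ 2 / 32)) ≤ K1 * (1 + y ^ 2)⁻¹ := by
        rw [← div_eq_mul_inv, le_div_iff₀ (by positivity)]
        calc (1 + |y|) ^ B * Real.exp (-(y ^ 2 / 32)) * (1 + y ^ 2)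
            ≤ (1 + |y|) ^ B * Real.exp (-(y ^ 2 / 32)) * (1 + |y|) ^ 2 := by gcongr
          _ = (1 + |y|) ^ (B + 2) * Real.exp (-(y ^ 2 / 32)) := by ring
          _ ≤ (K1 * Real.exp (1 / 32 * y ^ 2)) * Real.exp (-(y ^ 2 / 32)) := by gcongr
          _ = K1 * (Real.exp (1 / 32 * y ^ 2) * Real.exp (-(y ^ 2 / 32))) := by ring
          _ = K1 := by
              rw [← Real.exp_add]
              have : 1 / 32 * y ^ 2 + -(y ^ 2 / 32) = 0 := by ring
              rw [this, Real.exp_zero, mul_one]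
      have e6 : T ^ B' * (T + 8) * Real.exp (-(T ^ 2 / 8)) ≤ K2 := by
        calc T ^ B' * (T + 8) * Real.exp (-(T ^ 2 / 8)) ≤ (K2 * Real.exp (1 / 8 * T ^ 2)) * Real.exp (-(T ^ 2 / 8)) :=
              mul_le_mul_of_nonneg_right (e3.trans e2) (Real.exp_pos _).le
          _ = K2 * (Real.exp (1 / 8 * T ^ 2) * Real.exp (-(T ^ 2 / 8))) := by ring
          _ = K2 := by
              rw [← Real.exp_add]
              have : 1 / 8 * T ^ 2 + -(T ^ 2 / 8) = 0 := by ring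
              rw [this, Real.exp_zero, mul_one]
      have hfar : h T y * Wt (T - 4) (2 * T + 4) y ≤ C1 * K1 * K2 * (1 + y ^ 2)⁻¹ := by
        calc h T y * Wt (T - 4) (2 * T + 4) y
            ≤ (C1 * T ^ B' * (1 + |y|) ^ B) * ((T + 8) * Real.exp (-(T ^ 2 / 8 + y ^ 2 / 32))) :=
              mul_le_mul hg hf hW0 (by positivity)
          _ = C1 * (T ^ B' * (T + 8) * Real.exp (-(T ^ 2 / 8))) * ((1 + |y|) ^ B * Real.exp (-(y ^ 2 / 32))) := by
              rw [neg_add, Real.exp_add]; ring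
          _ ≤ C1 * K2 * (K1 * (1 + y ^ 2)⁻¹) := by gcongr
          _ = _ := by ring
      have h2 : 0 ≤ Set.indicator (Set.Icc (T / 4) (4 * T)) (fun y => 2 * h T y) y :=
        Set.indicator_nonneg (fun y _ => by have := h0 T y; positivity) _
      linarith
  have hi1 : Integrable (Set.indicator (Set.Icc (T / 4) (4 * T)) (fun y => 2 * h T y)) := by
    rw [integrable_indicator_iff measurableSet_Icc]
    exact (hcT.const_mul 2).integrableOn_Icc
  have hi3 : Integrable (fun y : ℝ => C1 * K1 * K2 * (1 + y ^ 2)⁻¹) := integrable_inv_one_add_sq.const_mul _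
  have hv1 : ∫ y, Set.indicator (Set.Icc (T / 4) (4 * T)) (fun y => 2 * h T y) y = 2 * ∫ y in (T / 4)..(4 * T), h T y := by
    rw [integral_indicator measurableSet_Icc, integral_Icc_eq_integral_Ioc, ← intervalIntegral.integral_of_le (by linarith),
      intervalIntegral.integral_const_mul]
  have hv3 : ∫ y : ℝ, C1 * K1 * K2 * (1 + y ^ 2)⁻¹ ≤ C1 * K1 * K2 * 4 := by
    rw [integral_const_mul, integral_univ_inv_one_add_sq]
    have := Real.pi_lt_four
    gcongr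
  calc ∫ y : ℝ, h T y * Wt (T - 4) (2 * T + 4) y
      ≤ ∫ y, (Set.indicator (Set.Icc (T / 4) (4 * T)) (fun y => 2 * h T y) y + C1 * K1 * K2 * (1 + y ^ 2)⁻¹) :=
        integral_mono_of_nonneg (Eventually.of_forall fun y => mul_nonneg (h0 T y) (Wt_nonneg hU y))
          (hi1.add hi3) (Eventually.of_forall hpt)
    _ ≤ _ := by
        rw [integral_add hi1 hi3, hv1]
        linarith

theorem right_W (hF : LFn F) (hP : Mol F P 1) {η : ℝ} (hη : 0 < η) (hS : Sq F P η) : ∃ C : ℝ, 0 < C ∧ ∀ᶠ T : ℝ in atTop,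
    ∫ y : ℝ, ‖fd F P T (((1 + η : ℝ) : ℂ) + (y : ℂ) * I)‖ ^ 2 * Wt (T - 4) (2 * T + 4) y ≤ C * Real.log T := by
  obtain ⟨C1, B, B', hC1, hpg⟩ := fd_pg hF hP (1 + η)
  obtain ⟨C2, hC2, h2⟩ := hS
  obtain ⟨C3, hC3, h3⟩ := far_W (h := fun T y => ‖fd F P T (((1 + η : ℝ) : ℂ) + (y : ℂ) * I)‖ ^ 2) (C1 := C1 ^ 2)
    (B := 2 * B) (B' := 2 * B') (by positivity) (fun T hT => ((f_line (hpg T hT) (1 + η)).norm.pow 2))
    (fun T y => by positivity) (fun T y hT => by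
      have h4 := (hpg T hT).gr (((1 + η : ℝ) : ℂ) + (y : ℂ) * I) (by rw [lre]; linarith) (by rw [lre]; linarith)
      rw [lim] at h4
      refine (pow_le_pow_left₀ (norm_nonneg _) h4 2).trans (le_of_eq ?_)
      rw [mul_comm 2 B, mul_comm 2 B']
      ring)
  refine ⟨2 * C2 + C3, by positivity, ?_⟩
  filter_upwards [h2, eventually_ge_atTop 16, Real.tendsto_log_atTop.eventually_ge_atTop 1] with T a1 a2 a3
  refine (h3 T a2).trans ?_
  nlinarith

/-- the number of cells with a zero -/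
theorem cell_count (hF : LFn F) (hP : Mol F P 1) {η r x1 θ w : ℝ} (hη : 0 < η) (hS : Sq F P η)
    (hr : 0 < r) (hr1 : r ≤ 1 / 8) (hrη : r ≤ η) (hx1 : 1 / 2 ≤ x1) (hx2 : x1 ≤ 1) (hθ : θ = (x1 - 1 / 2) / (1 / 2 + η))
    (hw : w = (1 - θ) / (1 - θ / 2)) : ∃ C : ℝ, 0 < C ∧ ∀ᶠ T : ℝ in atTop, ∀ K : Finset ℕ,
    (∀ k ∈ K, T - 1 ≤ k ∧ (k : ℝ) ≤ 2 * T ∧ ∃ ρ : ℂ, F ρ = 0 ∧ x1 + r ≤ ρ.re ∧ (k : ℝ) ≤ ρ.im ∧ ρ.im ≤ k + 1) →
    (K.card : ℝ) ≤ C * (T ^ w * Real.log T) := by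
  obtain ⟨C1, B, B', hC1, hpg⟩ := fd_pg hF hP (1 + η)
  obtain ⟨C2, hC2, h2⟩ := left_W hF hP
  obtain ⟨C3, hC3, h3⟩ := right_W hF hP hη hS
  have hθ' : θ = (x1 - 1 / 2) / ((1 + η) - 1 / 2) := by rw [hθ]; ring_nf
  set c := Real.pi * r ^ 2 / (2 * (Real.exp 2 * ((1 + η) - x1))) / Real.exp ((1 + η) ^ 2) / 2 with hc
  have hbx : 0 < (1 + η) - x1 := by linarith
  have hc0 : 0 < c := by positivity
  set m := min (c ^ (1 / (1 - θ / 2))) (c ^ 2) with hm
  have hm0 : 0 < m := lt_min (Real.rpow_pos_of_pos hc0 _) (by positivity)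
  refine ⟨(C2 + 2 * C3) / m, by positivity, ?_⟩
  filter_upwards [h2, h3, eventually_ge_atTop 16, Real.tendsto_log_atTop.eventually_ge_atTop 1] with T h2 h3 hT hL K hK
  have hT0 : 0 < T := by linarith
  have h4 := cells (hpg T (by linarith)) hr hr1 hx1 (by linarith : x1 < 1 + η) (by linarith : 1 ≤ T) hθ' hw hc
    (by linarith : T - 4 ≤ 2 * T + 4) K (fun k hk => by
      obtain ⟨a1, a2, ρ, a3, a4, a5, a6⟩ := hK k hk
      refine ⟨by linarith, by linarith, ρ, a4, ?_, ?_, a5, a6⟩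
      · have := re_le_one hF a3
        linarith
      · unfold fd
        rw [a3]
        simp)
  rw [← hm] at h4
  have h5 : (∫ y : ℝ, ‖fd F P T (((1 / 2 : ℝ) : ℂ) + (y : ℂ) * I)‖ * Wt (T - 4) (2 * T + 4) y) / T ≤ C2 := by
    rw [div_le_iff₀ hT0]; exact h2
  have h6 : (K.card : ℝ) * m ≤ T ^ w * ((C2 + 2 * C3) * Real.log T) := by
    refine h4.trans (mul_le_mul_of_nonneg_left ?_ (by positivity))
    nlinarith
  rw [div_mul_eq_mul_div, le_div_iff₀ hm0]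
  linarith

/-- the zeros with ordinates in `(T, 2T]` -/
theorem dyad (hF : LFn F) (hP : Mol F P 1) {η r x1 θ w : ℝ} (hη : 0 < η) (hS : Sq F P η)
    (hr : 0 < r) (hr1 : r ≤ 1 / 8) (hrη : r ≤ η) (hx1 : 1 / 2 ≤ x1) (hx2 : x1 ≤ 1) (hθ : θ = (x1 - 1 / 2) / (1 / 2 + η))
    (hw : w = (1 - θ) / (1 - θ / 2)) : ∃ C : ℝ, 0 < C ∧ ∀ᶠ T : ℝ in atTop, ∀ S : Finset ℂ,
    (∀ ρ ∈ S, F ρ = 0 ∧ x1 + r ≤ ρ.re ∧ T < ρ.im ∧ ρ.im ≤ 2 * T) →
    ∑ ρ ∈ S, (analyticOrderNatAt F ρ : ℝ) ≤ C * (T ^ w * Real.log T ^ 2) := by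
  classical
  obtain ⟨C1, hC1, h1⟩ := cell_count hF hP hη hS hr hr1 hrη hx1 hx2 hθ hw
  obtain ⟨C2, hC2, h2⟩ := unit_count hF
  refine ⟨C1 * (C2 * 3), by positivity, ?_⟩
  filter_upwards [h1, eventually_ge_atTop 16] with T h1 hT S hS
  have hT0 : 0 < T := by linarith
  have hL : 0 ≤ Real.log T := Real.log_nonneg (by linarith)
  have hmaps : ∀ ρ ∈ S, ⌊ρ.im⌋₊ ∈ S.image fun ρ => ⌊ρ.im⌋₊ := fun ρ hρ => Finset.mem_image_of_mem _ hρ
  have hcard := h1 (S.image fun ρ => ⌊ρ.im⌋₊) (fun k hk => by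
    rw [Finset.mem_image] at hk
    obtain ⟨ρ, hρ, rfl⟩ := hk
    obtain ⟨a1, a2, a3, a4⟩ := hS ρ hρ
    have b1 := Nat.lt_floor_add_one ρ.im
    have b2 := Nat.floor_le (by linarith : 0 ≤ ρ.im)
    exact ⟨by linarith, by linarith, ρ, a1, a2, b2, b1.le⟩)
  rw [← Finset.sum_fiberwise_of_maps_to hmaps]
  have hterm : ∀ n ∈ S.image (fun ρ => ⌊ρ.im⌋₊), ∑ ρ ∈ S with ⌊ρ.im⌋₊ = n, (analyticOrderNatAt F ρ : ℝ) ≤
      C2 * 3 * Real.log T := by
    intro n hn
    rw [Finset.mem_image] at hn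
    obtain ⟨ρ0, hρ0, hn0⟩ := hn
    have hnT : (n : ℝ) ≤ 2 * T := by
      rw [← hn0]
      have := (hS ρ0 hρ0).2.2.2
      have h3 := Nat.floor_le (by linarith [(hS ρ0 hρ0).2.2.1] : 0 ≤ ρ0.im)
      linarith
    have h5 := h2 ((n : ℝ) + 1 / 2) (by positivity) (S.filter fun ρ => ⌊ρ.im⌋₊ = n) (fun ρ hρ => by
      rw [Finset.mem_filter] at hρ
      obtain ⟨h6, h7⟩ := hρ
      obtain ⟨g1, g2, g3, g4⟩ := hS ρ h6
      have h8 := Nat.lt_floor_add_one ρ.im
      have h9 := Nat.floor_le (by linarith : 0 ≤ ρ.im)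
      rw [h7] at h8 h9
      refine ⟨by linarith, re_le_one hF g1, ?_⟩
      rw [abs_le]; constructor <;> linarith)
    refine h5.trans ?_
    have h6 : Real.log ((n : ℝ) + 1 / 2 + 3) ≤ 3 * Real.log T := by
      have : 3 * Real.log T = Real.log (T ^ 3) := by rw [Real.log_pow]; push_cast; ring
      rw [this]
      apply Real.log_le_log (by positivity)
      have h8 : 256 ≤ T ^ 2 := by nlinarith
      have h7 : 4 * T ≤ T ^ 3 := by
        calc 4 * T ≤ T ^ 2 * T := by gcongr; linarith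
          _ = _ := by ring
      linarith
    calc C2 * Real.log ((n : ℝ) + 1 / 2 + 3) ≤ C2 * (3 * Real.log T) := by gcongr
      _ = _ := by ring
  refine (Finset.sum_le_sum hterm).trans ?_
  rw [Finset.sum_const, nsmul_eq_mul]
  calc _ ≤ C1 * (T ^ w * Real.log T) * (C2 * 3 * Real.log T) := by gcongr
    _ = _ := by ring

/-- all zeros -/
theorem total (hF : LFn F) (hP : Mol F P 1) {η r x1 θ w w' : ℝ} (hη : 0 < η) (hS : Sq F P η)
    (hr : 0 < r) (hr1 : r ≤ 1 / 8) (hrη : r ≤ η) (hx1 : 1 / 2 ≤ x1) (hx2 : x1 ≤ 1) (hθ : θ = (x1 - 1 / 2) / (1 / 2 + η))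
    (hw : w = (1 - θ) / (1 - θ / 2)) (hw' : w < w') : ∃ C : ℝ, 0 < C ∧ ∀ T : ℝ, 2 ≤ T →
    NF hF (x1 + r) T ≤ C * T ^ w' := by
  classical
  obtain ⟨C1, hC1, h1⟩ := dyad hF hP hη hS hr hr1 hrη hx1 hx2 hθ hw
  have hθ0 : 0 ≤ θ := by rw [hθ]; exact div_nonneg (by linarith) (by linarith)
  have hθ1 : θ ≤ 1 := by rw [hθ, div_le_one (by linarith)]; linarith
  have hw0 : 0 ≤ w := by rw [hw]; exact div_nonneg (by linarith) (by linarith)
  have hw'0 : 0 < w' := by linarith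
  -- the logarithms
  have hlog : ∀ᶠ T : ℝ in atTop, T ^ w * Real.log T ^ 2 ≤ T ^ w' := by
    have h2 := (isLittleO_log_rpow_atTop (show 0 < (w' - w) / 2 by linarith)).bound (show (0:ℝ) < 1 by norm_num)
    filter_upwards [h2, eventually_ge_atTop 1] with T h2 hT
    have hT0 : 0 < T := by linarith
    rw [Real.norm_of_nonneg (Real.log_nonneg hT), Real.norm_of_nonneg (by positivity), one_mul] at h2
    have h3 := pow_le_pow_left₀ (Real.log_nonneg hT) h2 2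
    rw [← Real.rpow_natCast (T ^ ((w' - w) / 2)) 2, ← Real.rpow_mul hT0.le] at h3
    have e : (w' - w) / 2 * ((2 : ℕ) : ℝ) = w' - w := by push_cast; ring
    rw [e] at h3
    calc T ^ w * Real.log T ^ 2 ≤ T ^ w * T ^ (w' - w) := by gcongr
      _ = T ^ w' := by rw [← Real.rpow_add hT0]; congr 1; ring
  obtain ⟨T0, hT0⟩ := eventually_atTop.1 (h1.and hlog)
  set T1 := max T0 4 with hT1
  have hT14 : 4 ≤ T1 := le_max_right _ _
  set q := (2 : ℝ) ^ (-w') with hq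
  have hq1 : q < 1 := Real.rpow_lt_one_of_one_lt_of_neg (by norm_num) (by linarith)
  set N0 := NF hF (x1 + r) (2 * T1) with hN0
  have hN00 : 0 ≤ N0 := Finset.sum_nonneg fun _ _ => Nat.cast_nonneg _
  set D := N0 + C1 / (1 - q) + 1 with hD
  have hq' : 0 < 1 - q := by linarith
  have hD0 : 0 < D := by positivity
  refine ⟨D, hD0, ?_⟩
  have hind : ∀ n : ℕ, ∀ T : ℝ, 2 ≤ T → T ≤ 2 * T1 * 2 ^ n → NF hF (x1 + r) T ≤ D * T ^ w' := by
    intro n
    induction n with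
    | zero =>
      intro T hT hT2
      rw [pow_zero, mul_one] at hT2
      have h2 : NF hF (x1 + r) T ≤ N0 := NF_mono hF le_rfl hT2
      have h3 : 1 ≤ T ^ w' := Real.one_le_rpow (by linarith) hw'0.le
      have h4 : N0 ≤ D := by
        have : 0 ≤ C1 / (1 - q) := by positivity
        linarith
      nlinarith
    | succ n ih =>
      intro T hT hT2
      rcases le_or_gt T (2 * T1) with h | h
      · exact ih T hT (h.trans (le_mul_of_one_le_right (by linarith) (one_le_pow₀ (by norm_num))))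
      · have h2 := ih (T / 2) (by linarith) (by rw [pow_succ] at hT2; linarith)
        have h3 := hT0 (T / 2) (by have := le_max_left T0 4; linarith)
        obtain ⟨h4, h5⟩ := h3
        have h6 := h4 ((ZF_fin hF (x1 + r) T).toFinset.filter (fun ρ => T / 2 < ρ.im)) (fun ρ hρ => by
          rw [Finset.mem_filter, Set.Finite.mem_toFinset] at hρ
          exact ⟨hρ.1.1, hρ.1.2.1, hρ.2, by linarith [hρ.1.2.2.2]⟩)
        have h7 := NF_step hF (σ := x1 + r) (T := T) (T' := T / 2)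
        have hTp : 0 < T := by linarith
        have h8 : (T / 2) ^ w' = q * T ^ w' := by
          rw [hq, Real.div_rpow hTp.le (by norm_num), Real.rpow_neg (by norm_num)]
          field_simp
        have h9 : (T / 2) ^ w * Real.log (T / 2) ^ 2 ≤ q * T ^ w' := by rw [← h8]; exact h5
        have hTw : 0 < T ^ w' := by positivity
        have hq0 : 0 < q := by positivity
        rw [h8] at h2
        have h10 : C1 ≤ D * (1 - q) := by
          have h11 : C1 / (1 - q) ≤ D := by linarith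
          rwa [div_le_iff₀ hq'] at h11
        have h12 : C1 * ((T / 2) ^ w * Real.log (T / 2) ^ 2) ≤ C1 * (q * T ^ w') := by gcongr
        have h13 : C1 * (q * T ^ w') ≤ C1 * T ^ w' := by
          have : q * T ^ w' ≤ 1 * T ^ w' := by gcongr
          nlinarith
        have h14 : C1 * T ^ w' ≤ D * (1 - q) * T ^ w' := mul_le_mul_of_nonneg_right h10 hTw.le
        nlinarith
  intro T hT
  obtain ⟨n, hn⟩ := exists_nat_gt (T / (2 * T1))
  refine hind n T hT ?_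
  have h2 : (n : ℝ) ≤ 2 ^ n := by exact_mod_cast Nat.lt_two_pow_self.le
  rw [div_lt_iff₀ (by linarith)] at hn
  nlinarith

/-- mollifiers for every line to the right of `Re s = 1` -/
def HasMol (F : ℂ → ℂ) : Prop := ∀ η : ℝ, 0 < η → η ≤ 1 → ∃ P : ℝ → ℂ → ℂ, Mol F P 1 ∧ Sq F P η

/-- **The density theorem.** -/
theorem density2 (hF : LFn F) (hM : HasMol F) {δ ε : ℝ} (hδ : 0 < δ) (hδ1 : δ ≤ 1 / 2) (hε : 0 < ε) :
    ∃ C : ℝ, 0 < C ∧ ∀ T : ℝ, 2 ≤ T → NF hF (1 / 2 + δ) T ≤ C * T ^ ((1 - 2 * δ) / (1 - δ) + ε) := by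
  set φ : ℝ → ℝ := fun t => (1 - (δ - t) / (1 / 2 + t)) / (1 - (δ - t) / (1 / 2 + t) / 2) with hφ
  have hφ0 : φ 0 = (1 - 2 * δ) / (1 - δ) := by
    rw [hφ]
    simp only [sub_zero, add_zero]
    congr 1 <;> ring
  have hcont : ContinuousAt φ 0 := by
    have h1 : ContinuousAt (fun t : ℝ => (δ - t) / (1 / 2 + t)) 0 := by
      apply ContinuousAt.div (by fun_prop) (by fun_prop)
      norm_num
    apply ContinuousAt.div (continuousAt_const.sub h1) (continuousAt_const.sub (h1.div_const 2))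
    intro h
    have h' : (1 : ℝ) - (δ - 0) / (1 / 2 + 0) / 2 = 0 := h
    have : (δ - 0) / (1 / 2 + 0) / 2 = δ := by ring
    rw [this] at h'
    linarith
  have hev : ∀ᶠ t in 𝓝 (0 : ℝ), φ t < (1 - 2 * δ) / (1 - δ) + ε :=
    hcont.eventually_lt_const (by rw [hφ0]; linarith)
  obtain ⟨d, hd, hd2⟩ := Metric.eventually_nhds_iff.1 hev
  set t := min (d / 2) (min (1 / 8) δ) with ht
  have ht0 : 0 < t := by rw [ht]; positivity
  have ht1 : t ≤ 1 / 8 := (min_le_right _ _).trans (min_le_left _ _)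
  have ht2 : t ≤ δ := (min_le_right _ _).trans (min_le_right _ _)
  have ht3 : t < d := lt_of_le_of_lt (min_le_left _ _) (by linarith)
  have h3 := hd2 (y := t) (by rw [Real.dist_eq, sub_zero, abs_of_pos ht0]; exact ht3)
  obtain ⟨P, hP, hS⟩ := hM t ht0 (by linarith)
  obtain ⟨C, hC, h⟩ := total hF hP (r := t) (x1 := 1 / 2 + δ - t) (w' := (1 - 2 * δ) / (1 - δ) + ε) ht0 hS ht0 ht1 le_rfl
    (by linarith) (by linarith) rfl rfl (by
      have e : 1 / 2 + δ - t - 1 / 2 = δ - t := by ring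
      rw [e]
      exact h3)
  refine ⟨C, hC, fun T hT => ?_⟩
  have := h T hT
  rwa [sub_add_cancel] at this

end Pool.Agent.N831.LP
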