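import Pool.Agent.N831.LP.A
import Pool.Agent.N831.LP.C

/-!
# Mollifiers of length `T` for every line to the right of `Re s = 1`
-/

set_option autoImplicit false

namespace Pool.Agent.N831.LP

open Complex Finset Filter MeasureTheory
open Pool.Agent.H24R2.DZ (MM ph)
open Pool.Agent.Y771.GL (Dat dat_of_frm af af_apply)
open Pool.Agent.Y671.GL (mf bq IsL mT yT Frm mv1_all)
open Pool.Agent.Y24.GL

variable {ps lam : ℕ → ℂ}

/-- the mollifier with an arbitrary number of steps -/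
theorem mol_K {k N : ℕ} {F : ℂ → ℂ} (hf : Frm k N ps lam) (hF : IsL lam F) {κ : ℝ} (hκ0 : 0 < κ) (hκ1 : κ ≤ 1) :
    ∃ θ0 : ℝ, 0 < θ0 ∧ ∀ K : ℕ, 2 ≤ θ0 * K → Mol F (PM ps lam θ0 κ K) κ := by
  obtain ⟨th, C, hd⟩ := dat_of_frm hf
  obtain ⟨θ0, hθ0, hθ1, hmv⟩ := mv1_all k N ps lam F hf hF
  obtain ⟨C0, T0, hC0, hT0, hmv⟩ := hmv θ0 hθ0 le_rfl
  refine ⟨θ0, hθ0, fun K hK => ?_⟩
  obtain ⟨C1, hC1, hms⟩ := msq_IV hd hθ0 K
  obtain ⟨C2, hC2, hri⟩ := right_bd hd hF hθ0 hK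
  obtain ⟨S1, hS1, hb1⟩ := AB_bq hd θ0
  obtain ⟨S2, hS2, hb2⟩ := AB_IV hd θ0 K
  refine ⟨hκ0, hκ1, fun T => ?_, ?_, ?_, ?_⟩
  · unfold PM mT
    exact (MM_diff _ _).mul (MM_diff _ _)
  · refine ⟨4 * S1 * S2, 4, by positivity, fun T hT s hs => ?_⟩
    have hT0' : 0 < T := by linarith
    unfold PM mT
    rw [norm_mul]
    have hy : (yT θ0 T : ℝ) ≤ 2 * T := by
      unfold yT
      have h1 : T ^ θ0 ≤ T := by
        calc T ^ θ0 ≤ T ^ (1:ℝ) := Real.rpow_le_rpow_of_exponent_le (by linarith) (by linarith)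
          _ = T := Real.rpow_one T
      have h2 := Nat.ceil_lt_add_one (Real.rpow_nonneg hT0'.le θ0)
      linarith
    have hY : (⌊Real.exp (κ * Real.log T)⌋₊ : ℝ) ≤ T := by
      refine (Nat.floor_le (Real.exp_pos _).le).trans ?_
      have hlog : 0 ≤ Real.log T := Real.log_nonneg (by linarith)
      calc Real.exp (κ * Real.log T) ≤ Real.exp (Real.log T) := by
            apply Real.exp_le_exp.mpr
            calc κ * Real.log T ≤ 1 * Real.log T := mul_le_mul_of_nonneg_right hκ1 hlog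
              _ = _ := one_mul _
        _ = T := Real.exp_log hT0'
    have a1 : ‖MM (yT θ0 T) (bq ps lam θ0 (Real.log T) 0) s‖ ≤ (yT θ0 T : ℝ) ^ 2 * S1 := by
      apply MM_bd _ hs
      refine le_trans (le_of_eq (sum_congr rfl fun n hn => ?_)) (hb1 (Real.log T) (yT θ0 T))
      rw [af_apply (by have := (mem_Icc.mp hn).1; omega)]
    have a2 : ‖MM ⌊Real.exp (κ * Real.log T)⌋₊ (IV ps lam θ0 (Real.log T) K) s‖ ≤
        (⌊Real.exp (κ * Real.log T)⌋₊ : ℝ) ^ 2 * S2 := MM_bd (hb2 (Real.log T) _) hs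
    calc ‖MM (yT θ0 T) (bq ps lam θ0 (Real.log T) 0) s‖ * ‖MM ⌊Real.exp (κ * Real.log T)⌋₊ (IV ps lam θ0 (Real.log T) K) s‖
        ≤ ((yT θ0 T : ℝ) ^ 2 * S1) * ((⌊Real.exp (κ * Real.log T)⌋₊ : ℝ) ^ 2 * S2) :=
          mul_le_mul a1 a2 (norm_nonneg _) (by positivity)
      _ ≤ ((2 * T) ^ 2 * S1) * (T ^ 2 * S2) := by gcongr
      _ = _ := by ring
  · refine ⟨C0 + 8 + C1, by positivity, ?_⟩
    filter_upwards [eventually_ge_atTop (max T0 3)] with T hT
    have hT3 : 3 ≤ T := (le_max_right _ _).trans hT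
    have hTT0 : T0 ≤ T := (le_max_left _ _).trans hT
    have hTpos : 0 < T := by linarith
    have hYT : (⌊Real.exp (κ * Real.log T)⌋₊ : ℝ) ≤ T := by
      refine (Nat.floor_le (Real.exp_pos _).le).trans ?_
      have hlog : 0 ≤ Real.log T := Real.log_nonneg (by linarith)
      calc Real.exp (κ * Real.log T) ≤ Real.exp (Real.log T) := by
            apply Real.exp_le_exp.mpr
            calc κ * Real.log T ≤ 1 * Real.log T := mul_le_mul_of_nonneg_right hκ1 hlog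
              _ = _ := one_mul _
        _ = T := Real.exp_log hTpos
    have h1 := hmv T (1 / 2) hTT0 le_rfl (by norm_num)
    have h2 := hms T ⌊Real.exp (κ * Real.log T)⌋₊ hT3 hYT
    set Y := ⌊Real.exp (κ * Real.log T)⌋₊ with hYdef
    have hline : Continuous fun t : ℝ => (((1 / 2 : ℝ) : ℂ) + (t : ℂ) * I) := by fun_prop
    have cF : Continuous fun t : ℝ => F (((1 / 2 : ℝ) : ℂ) + (t : ℂ) * I) := hF.diff.continuous.comp hline
    have cm : Continuous fun t : ℝ => mT ps lam θ0 T (((1 / 2 : ℝ) : ℂ) + (t : ℂ) * I) := by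
      unfold mT
      exact (MM_diff _ _).continuous.comp hline
    have cM : Continuous fun t : ℝ => MM Y (IV ps lam θ0 (Real.log T) K) (((1 / 2 : ℝ) : ℂ) + (t : ℂ) * I) :=
      (MM_diff _ _).continuous.comp hline
    have hle : T / 4 ≤ 4 * T := by linarith
    have hpt : ∀ t ∈ Set.Icc (T / 4) (4 * T), ‖F (((1 / 2 : ℝ) : ℂ) + (t : ℂ) * I) *
        PM ps lam θ0 κ K T (((1 / 2 : ℝ) : ℂ) + (t : ℂ) * I)‖ ≤
        ‖F (((1 / 2 : ℝ) : ℂ) + (t : ℂ) * I) * mT ps lam θ0 T (((1 / 2 : ℝ) : ℂ) + (t : ℂ) * I) - 1‖ ^ 2 + 1 +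
        ‖MM Y (IV ps lam θ0 (Real.log T) K) (((1 / 2 : ℝ) : ℂ) + (t : ℂ) * I)‖ ^ 2 := by
      intro t _
      unfold PM
      rw [← hYdef, ← mul_assoc, norm_mul]
      set a := F (((1 / 2 : ℝ) : ℂ) + (t : ℂ) * I) * mT ps lam θ0 T (((1 / 2 : ℝ) : ℂ) + (t : ℂ) * I) with ha
      set b := MM Y (IV ps lam θ0 (Real.log T) K) (((1 / 2 : ℝ) : ℂ) + (t : ℂ) * I) with hb
      have h3 : ‖a‖ ≤ ‖a - 1‖ + 1 := by
        calc ‖a‖ = ‖(a - 1) + 1‖ := by rw [sub_add_cancel]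
          _ ≤ ‖a - 1‖ + ‖(1:ℂ)‖ := norm_add_le _ _
          _ = _ := by rw [norm_one]
      have h4 : ‖a‖ * ‖b‖ ≤ (‖a - 1‖ + 1) * ‖b‖ := mul_le_mul_of_nonneg_right h3 (norm_nonneg _)
      nlinarith [sq_nonneg (‖a - 1‖ - 1), sq_nonneg (‖a - 1‖ + 1 - ‖b‖), sq_nonneg ‖b‖]
    have hi1 : IntervalIntegrable (fun t : ℝ => ‖F (((1 / 2 : ℝ) : ℂ) + (t : ℂ) * I) *
        mT ps lam θ0 T (((1 / 2 : ℝ) : ℂ) + (t : ℂ) * I) - 1‖ ^ 2) volume (T / 4) (4 * T) :=
      (((cF.mul cm).sub continuous_const).norm.pow 2).intervalIntegrable _ _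
    have hi2 : IntervalIntegrable (fun t : ℝ => ‖MM Y (IV ps lam θ0 (Real.log T) K) (((1 / 2 : ℝ) : ℂ) + (t : ℂ) * I)‖ ^ 2)
        volume (T / 4) (4 * T) := (cM.norm.pow 2).intervalIntegrable _ _
    have hi3 : IntervalIntegrable (fun t : ℝ => ‖F (((1 / 2 : ℝ) : ℂ) + (t : ℂ) * I) *
        PM ps lam θ0 κ K T (((1 / 2 : ℝ) : ℂ) + (t : ℂ) * I)‖) volume (T / 4) (4 * T) := by
      apply Continuous.intervalIntegrable
      unfold PM
      exact (cF.mul (cm.mul cM)).norm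
    have hI := intervalIntegral.integral_mono_on hle hi3 ((hi1.add intervalIntegrable_const).add hi2) hpt
    rw [intervalIntegral.integral_add (hi1.add intervalIntegrable_const) hi2,
      intervalIntegral.integral_add hi1 intervalIntegrable_const, intervalIntegral.integral_const] at hI
    rw [sub_self, mul_zero, zero_mul, neg_zero, Real.exp_zero, mul_one] at h1
    simp only [smul_eq_mul, mul_one] at hI
    refine hI.trans ?_
    calc _ ≤ C0 * T + (4 * T - T / 4) + C1 * T := by gcongr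
      _ ≤ _ := by linarith
  · refine ⟨C2, hC2, fun T hT s hs => ?_⟩
    have hlog : 0 ≤ Real.log T := Real.log_nonneg (by linarith)
    have h1 := hri T (κ * Real.log T) hT (by positivity) (by
      calc κ * Real.log T ≤ 1 * Real.log T := mul_le_mul_of_nonneg_right hκ1 hlog
        _ = _ := one_mul _) s hs
    unfold PM
    rw [← mul_assoc]
    exact h1

/-- **mollifiers for every line** -/
theorem hasMol {k N : ℕ} {F : ℂ → ℂ} (hf : Frm k N ps lam) (hF : IsL lam F) : HasMol F := by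
  obtain ⟨θ0, hθ0, h⟩ := mol_K hf hF one_pos le_rfl
  intro η hη hη1
  obtain ⟨K, hK⟩ := exists_nat_ge (max (2 / θ0) (8 / (θ0 * η)))
  have h1 : 2 ≤ θ0 * K := by
    have := (le_max_left _ _).trans hK
    rw [div_le_iff₀ hθ0] at this
    linarith
  have h2 : 8 ≤ K * θ0 * η := by
    have := (le_max_right _ _).trans hK
    rw [div_le_iff₀ (by positivity)] at this
    linarith
  exact ⟨_, h K h1, sqr hf hF hθ0 hη hη1 h2⟩

end Pool.Agent.N831.LP
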