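import Pool.Agent.Y24.GL.H2
import Pool.Agent.H402R2.SubMean

/-!
# Large values: convexity between an `L¹` mean and an `L²` mean
-/

set_option autoImplicit false

open Filter MeasureTheory Complex Topology Set

namespace Pool.Agent.N831.LP

open Pool.Agent.Y24 (SD conv_l1)
open Pool.Agent.Y24.GL

variable {f : ℂ → ℂ} {b M : ℝ} {B : ℕ}

/-- convexity for the local mean values -/
lemma Ps_conv (hf : PG f b M B) (hb : 1 / 2 < b) {x : ℝ} (h1 : 1 / 2 ≤ x) (h2 : x ≤ b) (u : ℝ) :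
    Ps f x u ≤ Real.exp (b ^ 2) * (Ps f (1 / 2) u ^ (1 - (x - 1 / 2) / (b - 1 / 2)) *
      Ps f b u ^ ((x - 1 / 2) / (b - 1 / 2))) := by
  set θ := (x - 1 / 2) / (b - 1 / 2) with hθ
  have hθ0 : 0 ≤ θ := div_nonneg (by linarith) (by linarith)
  have hθ1 : θ ≤ 1 := by rw [hθ, div_le_one (by linarith)]; linarith
  obtain ⟨C, hC⟩ := hf.sd u
  have p1 := Ps_nonneg f (1 / 2) u
  have p2 := Ps_nonneg f b u
  have h3 := conv_l1 hC (σ := x) hb h1 h2 (A := Real.exp ((1 / 2 : ℝ) ^ 2) * Ps f (1 / 2) u)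
    (B := Real.exp (b ^ 2) * Ps f b u) (le_of_eq (gu_line f (1 / 2) u)) (le_of_eq (gu_line f b u))
  rw [gu_line, ← hθ] at h3
  have h4 : Ps f x u ≤ Real.exp (x ^ 2) * Ps f x u := by
    have h5 : 1 ≤ Real.exp (x ^ 2) := Real.one_le_exp (sq_nonneg x)
    have := Ps_nonneg f x u
    nlinarith
  refine h4.trans (h3.trans ?_)
  rw [Real.mul_rpow (Real.exp_pos _).le p1, Real.mul_rpow (Real.exp_pos _).le p2]
  have h8 : Real.exp ((1 / 2 : ℝ) ^ 2) ^ (1 - θ) * Real.exp (b ^ 2) ^ θ ≤ Real.exp (b ^ 2) := by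
    rw [← Real.exp_mul, ← Real.exp_mul, ← Real.exp_add]
    apply Real.exp_le_exp.mpr
    have h9 : (1 / 2 : ℝ) ^ 2 ≤ b ^ 2 := pow_le_pow_left₀ (by norm_num) hb.le 2
    nlinarith
  have h10 : 0 ≤ Ps f (1 / 2) u ^ (1 - θ) := Real.rpow_nonneg p1 _
  have h11 : 0 ≤ Ps f b u ^ θ := Real.rpow_nonneg p2 _
  calc Real.exp ((1 / 2 : ℝ) ^ 2) ^ (1 - θ) * Ps f (1 / 2) u ^ (1 - θ) * (Real.exp (b ^ 2) ^ θ * Ps f b u ^ θ)
      = (Real.exp ((1 / 2 : ℝ) ^ 2) ^ (1 - θ) * Real.exp (b ^ 2) ^ θ) * (Ps f (1 / 2) u ^ (1 - θ) * Ps f b u ^ θ) := by ring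
    _ ≤ Real.exp (b ^ 2) * (Ps f (1 / 2) u ^ (1 - θ) * Ps f b u ^ θ) := by gcongr

/-- between the line `x1` and the right line -/
lemma Ps_two (hf : PG f b M B) (hb : 1 / 2 < b) {x1 x : ℝ} (h0 : 1 / 2 ≤ x1) (h1 : x1 ≤ x) (h2 : x ≤ b) (h3 : x1 < b)
    (u : ℝ) :
    Ps f x u ≤ Real.exp (b ^ 2) * (Ps f (1 / 2) u ^ (1 - (x1 - 1 / 2) / (b - 1 / 2)) *
      Ps f b u ^ ((x1 - 1 / 2) / (b - 1 / 2)) + Ps f b u) := by
  refine (Ps_conv hf hb (h0.trans h1) h2 u).trans ?_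
  apply mul_le_mul_of_nonneg_left _ (Real.exp_pos _).le
  set α := Ps f (1 / 2) u with hα
  set γ := Ps f b u with hγ
  have hα0 : 0 ≤ α := Ps_nonneg f (1 / 2) u
  have hγ0 : 0 ≤ γ := Ps_nonneg f b u
  have hb2 : 0 < b - 1 / 2 := by linarith
  set θ1 := (x1 - 1 / 2) / (b - 1 / 2) with hθ1
  set θ := (x - 1 / 2) / (b - 1 / 2) with hθ
  have hθ10 : 0 ≤ θ1 := div_nonneg (by linarith) hb2.le
  have hθ11 : θ1 < 1 := by rw [hθ1, div_lt_one hb2]; linarith
  have hθθ : θ1 ≤ θ := div_le_div_of_nonneg_right (by linarith) hb2.le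
  have hθ1' : θ ≤ 1 := by rw [hθ, div_le_one hb2]; linarith
  set l := (θ - θ1) / (1 - θ1) with hl
  have hl0 : 0 ≤ l := div_nonneg (by linarith) (by linarith)
  have hl1 : l ≤ 1 := by rw [hl, div_le_one (by linarith)]; linarith
  have hne : 1 - θ1 ≠ 0 := by linarith
  have hlm : l * (1 - θ1) = θ - θ1 := by rw [hl]; field_simp
  have e1 : (1 - θ1) * (1 - l) = 1 - θ := by linarith
  have e2 : θ1 * (1 - l) + l = θ := by linarith
  set X := α ^ (1 - θ1) * γ ^ θ1 with hX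
  have hX0 : 0 ≤ X := by positivity
  have hprod : α ^ (1 - θ) * γ ^ θ = X ^ (1 - l) * γ ^ l := by
    rw [hX, Real.mul_rpow (by positivity) (by positivity), ← Real.rpow_mul hα0, ← Real.rpow_mul hγ0, e1, mul_assoc]
    congr 1
    rcases hγ0.eq_or_lt with h | h
    · rcases hθ10.eq_or_lt with h' | h'
      · rw [← h', zero_mul, Real.rpow_zero, one_mul]
        congr 1
        rw [← e2, ← h']; ring
      · rw [← h, Real.zero_rpow (by linarith : θ ≠ 0)]
        rcases eq_or_ne (θ1 * (1 - l)) 0 with h5 | h5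
        · have : l ≠ 0 := by
            intro h6
            rw [h6] at h5
            linarith
          rw [Real.zero_rpow this, mul_zero]
        · rw [Real.zero_rpow h5, zero_mul]
    · rw [← Real.rpow_add h, e2]
  rw [hprod]
  have h5 := Real.geom_mean_le_arith_mean2_weighted (by linarith : 0 ≤ 1 - l) hl0 hX0 hγ0 (by ring)
  refine h5.trans ?_
  nlinarith

/-- a value of modulus `1` makes a local mean large -/
lemma detect (hf : PG f b M B) {r x1 : ℝ} (hr : 0 < r) (hr1 : r ≤ 1 / 8) (hx1 : 1 / 2 ≤ x1) {ρ : ℂ}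
    (h1 : x1 + r ≤ ρ.re) (h2 : ρ.re + r ≤ b) (hρ : 1 ≤ ‖f ρ‖) {u : ℝ} (hu : |u - ρ.im| ≤ 1) :
    ∃ x ∈ Icc x1 b, Real.pi * r ^ 2 / (2 * (Real.exp 2 * (b - x1))) ≤ Ps f x u := by
  by_contra hcon
  push Not at hcon
  have hbx : 0 < b - x1 := by linarith
  set c := Real.pi * r ^ 2 / (2 * (Real.exp 2 * (b - x1))) with hc
  have hc0 : 0 < c := by positivity
  have hA := Pool.Agent.H402R2.SubMean.rpow_mul_le_lintegral (g := f) (w := ρ) (ρ := r) (p := 1) hr one_pos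
    hf.df.differentiableOn
  simp only [Real.rpow_one, ENNReal.rpow_one] at hA
  have hA1 : ENNReal.ofReal (Real.pi * r ^ 2) ≤ ∫⁻ z in Metric.ball ρ r, ‖f z‖ₑ := by
    refine le_trans (ENNReal.ofReal_le_ofReal ?_) hA
    have : 0 ≤ Real.pi * r ^ 2 := by positivity
    nlinarith
  -- to the product
  have hmp := Complex.volume_preserving_equiv_real_prod.symm
  have hfc : Continuous f := hf.df.continuous
  have hA2 : ∫⁻ z in Metric.ball ρ r, ‖f z‖ₑ ≤
      ∫⁻ p : ℝ × ℝ, (Set.Icc x1 b ×ˢ (Set.univ : Set ℝ)).indicator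
        (fun p : ℝ × ℝ => ENNReal.ofReal (‖f ((p.1 : ℂ) + (p.2 : ℂ) * I)‖ * (Real.exp 2 * Real.exp (-(p.2 - u) ^ 2)))) p := by
    rw [← lintegral_indicator measurableSet_ball, ← hmp.lintegral_comp_emb
      Complex.measurableEquivRealProd.symm.measurableEmbedding]
    refine lintegral_mono fun p => ?_
    have e0 : Complex.measurableEquivRealProd.symm p = (p.1 : ℂ) + (p.2 : ℂ) * I := by
      rw [Complex.measurableEquivRealProd_symm_apply]
      exact Complex.mk_eq_add_mul_I p.1 p.2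
    rw [e0]
    by_cases hp : ((p.1 : ℂ) + (p.2 : ℂ) * I) ∈ Metric.ball ρ r
    · rw [Set.indicator_of_mem hp]
      rw [mem_ball_iff_norm] at hp
      have a1 := (Complex.abs_re_le_norm _).trans hp.le
      have a2 := (Complex.abs_im_le_norm _).trans hp.le
      rw [Complex.sub_re, lre] at a1
      rw [Complex.sub_im, lim] at a2
      obtain ⟨a3, a4⟩ := abs_le.1 a1
      obtain ⟨a5, a6⟩ := abs_le.1 a2
      obtain ⟨a7, a8⟩ := abs_le.1 hu
      have hmem : p ∈ (Set.Icc x1 b ×ˢ (Set.univ : Set ℝ)) := ⟨⟨by linarith, by linarith⟩, Set.mem_univ _⟩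
      rw [Set.indicator_of_mem hmem, ← ofReal_norm]
      apply ENNReal.ofReal_le_ofReal
      have h6 : 1 ≤ Real.exp 2 * Real.exp (-(p.2 - u) ^ 2) := by
        rw [← Real.exp_add]
        apply Real.one_le_exp
        have : |p.2 - u| ≤ 9 / 8 := by rw [abs_le]; constructor <;> linarith
        have h7 := pow_le_pow_left₀ (abs_nonneg _) this 2
        rw [sq_abs] at h7
        norm_num at h7
        linarith
      exact le_mul_of_one_le_right (norm_nonneg _) h6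
    · rw [Set.indicator_of_notMem hp]
      exact bot_le
  have hms : MeasurableSet (Set.Icc x1 b ×ˢ (Set.univ : Set ℝ)) := measurableSet_Icc.prod MeasurableSet.univ
  have hcont : Continuous (fun p : ℝ × ℝ => ‖f ((p.1 : ℂ) + (p.2 : ℂ) * I)‖ * (Real.exp 2 * Real.exp (-(p.2 - u) ^ 2))) := by
    refine Continuous.mul (hfc.comp (by fun_prop)).norm (by fun_prop)
  have hA3 : ∫⁻ p : ℝ × ℝ, (Set.Icc x1 b ×ˢ (Set.univ : Set ℝ)).indicator
        (fun p : ℝ × ℝ => ENNReal.ofReal (‖f ((p.1 : ℂ) + (p.2 : ℂ) * I)‖ * (Real.exp 2 * Real.exp (-(p.2 - u) ^ 2)))) p =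
      ∫⁻ x in Set.Icc x1 b, ∫⁻ y : ℝ, ENNReal.ofReal (‖f ((x : ℂ) + (y : ℂ) * I)‖ * (Real.exp 2 * Real.exp (-(y - u) ^ 2))) := by
    rw [lintegral_indicator hms, Measure.volume_eq_prod, ← Measure.prod_restrict, Measure.restrict_univ,
      lintegral_prod _ (hcont.measurable.ennreal_ofReal.aemeasurable)]
  have hA4 : ∫⁻ x in Set.Icc x1 b, ∫⁻ y : ℝ, ENNReal.ofReal (‖f ((x : ℂ) + (y : ℂ) * I)‖ * (Real.exp 2 * Real.exp (-(y - u) ^ 2))) ≤
      ∫⁻ _x in Set.Icc x1 b, ENNReal.ofReal (Real.exp 2 * c) := by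
    refine setLIntegral_mono measurable_const fun x hx => ?_
    have hint : Integrable (fun y : ℝ => ‖f ((x : ℂ) + (y : ℂ) * I)‖ * (Real.exp 2 * Real.exp (-(y - u) ^ 2))) := by
      obtain ⟨C, hC⟩ := hf.sd u
      have h5 := hC.int (ψ := fun _ => 1) (z := (x : ℂ)) aestronglyMeasurable_const (K := 1) (fun _ => by simp)
        (by simp; linarith [hx.1]) (by simp; linarith [hx.2])
      have h6 := (h5.norm.const_mul (Real.exp (x ^ 2))⁻¹).const_mul (Real.exp 2)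
      refine h6.congr (Eventually.of_forall fun y => ?_)
      simp only [mul_one]
      rw [norm_gu, lre, lim]
      have := (Real.exp_pos (x ^ 2)).ne'
      field_simp
    rw [← ofReal_integral_eq_lintegral_ofReal hint (Eventually.of_forall fun y => by positivity)]
    apply ENNReal.ofReal_le_ofReal
    have e1 : ∫ y : ℝ, ‖f ((x : ℂ) + (y : ℂ) * I)‖ * (Real.exp 2 * Real.exp (-(y - u) ^ 2)) = Real.exp 2 * Ps f x u := by
      unfold Ps
      rw [← integral_const_mul]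
      refine integral_congr_ae (Eventually.of_forall fun y => ?_)
      simp only
      ring
    rw [e1]
    exact mul_le_mul_of_nonneg_left (hcon x hx).le (Real.exp_pos _).le
  rw [setLIntegral_const, Real.volume_Icc, ← ENNReal.ofReal_mul (by positivity)] at hA4
  have hcc : Real.exp 2 * c * (b - x1) = Real.pi * r ^ 2 / 2 := by
    rw [hc]; field_simp
  rw [hcc] at hA4
  have h9 := hA1.trans (hA2.trans (hA3.le.trans hA4))
  have h10 : 0 < Real.pi * r ^ 2 := by positivity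
  rw [ENNReal.ofReal_le_ofReal_iff (by positivity)] at h9
  linarith

/-- the square -/
lemma PG.sq' (hf : PG f b M B) : PG (fun z => f z ^ 2) b (M ^ 2) (2 * B) where
  df := hf.df.pow 2
  M0 := by positivity
  gr := fun z h1 h2 => by
    rw [norm_pow]
    refine (pow_le_pow_left₀ (norm_nonneg _) (hf.gr z h1 h2) 2).trans (le_of_eq ?_)
    rw [mul_pow, ← pow_mul, mul_comm B 2]

lemma Ps_int (hf : PG f b M B) {x : ℝ} (h1 : 1 / 2 ≤ x) (h2 : x ≤ b) (u : ℝ) :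
    Integrable (fun y : ℝ => ‖f ((x : ℂ) + (y : ℂ) * I)‖ * Real.exp (-(y - u) ^ 2)) := by
  obtain ⟨C, hC⟩ := hf.sd u
  have h5 := hC.int (ψ := fun _ => 1) (z := (x : ℂ)) aestronglyMeasurable_const (K := 1) (fun _ => by simp)
    (by simp; linarith) (by simp; linarith)
  have h6 := h5.norm.const_mul (Real.exp (x ^ 2))⁻¹
  refine h6.congr (Eventually.of_forall fun y => ?_)
  simp only [mul_one]
  rw [norm_gu, lre, lim]
  have := (Real.exp_pos (x ^ 2)).ne'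
  field_simp

/-- Cauchy–Schwarz -/
lemma Ps_sq (hf : PG f b M B) {x : ℝ} (h1 : 1 / 2 ≤ x) (h2 : x ≤ b) (u : ℝ) :
    Ps f x u ^ 2 ≤ 2 * Ps (fun z => f z ^ 2) x u := by
  have hi := Ps_int hf h1 h2 u
  have hi2 := Ps_int (PG.sq' hf) h1 h2 u
  have hg := g_int' u
  have hgv := g_val' u
  set P := Ps f x u with hP
  set Q := Ps (fun z => f z ^ 2) x u with hQ
  have hP0 : 0 ≤ P := Ps_nonneg f x u
  -- `0 ≤ ∫ (‖f‖ - t)² w`
  have key : ∀ t : ℝ, 0 ≤ Q - 2 * t * P + t ^ 2 * Real.sqrt Real.pi := by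
    intro t
    have h3 : 0 ≤ ∫ y : ℝ, (‖f ((x : ℂ) + (y : ℂ) * I)‖ - t) ^ 2 * Real.exp (-(y - u) ^ 2) :=
      integral_nonneg fun y => by positivity
    have h4 : ∫ y : ℝ, (‖f ((x : ℂ) + (y : ℂ) * I)‖ - t) ^ 2 * Real.exp (-(y - u) ^ 2) =
        ∫ y : ℝ, ((‖(fun z => f z ^ 2) ((x : ℂ) + (y : ℂ) * I)‖ * Real.exp (-(y - u) ^ 2) -
          2 * t * (‖f ((x : ℂ) + (y : ℂ) * I)‖ * Real.exp (-(y - u) ^ 2))) + t ^ 2 * Real.exp (-(y - u) ^ 2)) := by
      refine integral_congr_ae (Eventually.of_forall fun y => ?_)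
      simp only [norm_pow]
      ring
    have a1 : Integrable (fun y : ℝ => ‖(fun z => f z ^ 2) ((x : ℂ) + (y : ℂ) * I)‖ * Real.exp (-(y - u) ^ 2) -
          2 * t * (‖f ((x : ℂ) + (y : ℂ) * I)‖ * Real.exp (-(y - u) ^ 2))) := hi2.sub (hi.const_mul (2 * t))
    have a2 : Integrable (fun y : ℝ => t ^ 2 * Real.exp (-(y - u) ^ 2)) := hg.const_mul _
    rw [h4, integral_add a1 a2, integral_sub hi2 (hi.const_mul (2 * t)),
      integral_const_mul, integral_const_mul, hgv] at h3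
    exact h3
  have h5 := key (P / 2)
  have h6 := sqrt_pi_le
  nlinarith [sq_nonneg P]

/-- the pointwise inequality on a cell -/
lemma cell_pt (hf : PG f b M B) {r x1 : ℝ} (hr : 0 < r) (hr1 : r ≤ 1 / 8) (hx1 : 1 / 2 ≤ x1)
    {T : ℝ} (hT : 1 ≤ T) {θ w c : ℝ} (hθ : θ = (x1 - 1 / 2) / (b - 1 / 2)) (hw : w = (1 - θ) / (1 - θ / 2))
    (hc : c = Real.pi * r ^ 2 / (2 * (Real.exp 2 * (b - x1))) / Real.exp (b ^ 2) / 2) {ρ : ℂ}
    (h1 : x1 + r ≤ ρ.re) (h2 : ρ.re + r ≤ b) (hρ : 1 ≤ ‖f ρ‖) {u : ℝ} (hu : |u - ρ.im| ≤ 1) :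
    min (c ^ (1 / (1 - θ / 2))) (c ^ 2) ≤ T ^ w * (Ps f (1 / 2) u / T + 2 * Ps (fun z => f z ^ 2) b u) := by
  obtain ⟨x, ⟨hx, hx'⟩, h3⟩ := detect hf hr hr1 hx1 h1 h2 hρ hu
  have hx1b : x1 < b := by linarith
  have hb : 1 / 2 < b := by linarith
  have h4 := Ps_two hf hb hx1 hx hx' hx1b u
  rw [← hθ] at h4
  have h5 := Ps_sq hf hb.le le_rfl u
  set α := Ps f (1 / 2) u with hα
  set γ := Ps f b u with hγ
  set P := Ps (fun z => f z ^ 2) b u with hP
  have hα0 : 0 ≤ α := Ps_nonneg f (1 / 2) u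
  have hγ0 : 0 ≤ γ := Ps_nonneg f b u
  have hP0 : 0 ≤ P := Ps_nonneg _ b u
  have hb2 : 0 < b - 1 / 2 := by linarith
  have hbx : 0 < b - x1 := by linarith
  have hθ0 : 0 ≤ θ := by rw [hθ]; exact div_nonneg (by linarith) hb2.le
  have hθ1 : θ < 1 := by rw [hθ, div_lt_one hb2]; linarith
  have hc0 : 0 < c := by rw [hc]; positivity
  have h6 : 2 * c ≤ α ^ (1 - θ) * γ ^ θ + γ := by
    have h7 := h3.trans h4
    have h8 : 2 * c = Real.pi * r ^ 2 / (2 * (Real.exp 2 * (b - x1))) / Real.exp (b ^ 2) := by rw [hc]; ring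
    rw [h8, div_le_iff₀ (Real.exp_pos _), mul_comm _ (Real.exp (b ^ 2))]
    exact h7
  have hd : 0 < 1 - θ / 2 := by linarith
  have hw0 : 0 ≤ w := by rw [hw]; exact div_nonneg (by linarith) hd.le
  have hTw : 1 ≤ T ^ w := Real.one_le_rpow hT hw0
  have hαT : 0 ≤ α / T := by positivity
  rcases le_or_gt c γ with h9 | h9
  · refine (min_le_right _ _).trans ?_
    have h10 : c ^ 2 ≤ γ ^ 2 := pow_le_pow_left₀ hc0.le h9 2
    have h11 : α / T + 2 * P ≤ T ^ w * (α / T + 2 * P) := le_mul_of_one_le_left (by positivity) hTw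
    linarith
  · refine (min_le_left _ _).trans ?_
    have h10 : c ≤ α ^ (1 - θ) * γ ^ θ := by linarith
    set w2 := (θ / 2) / (1 - θ / 2) with hw2
    have hw20 : 0 ≤ w2 := div_nonneg (by linarith) hd.le
    have hww : w + w2 = 1 := by rw [hw, hw2, ← add_div, div_eq_one_iff_eq hd.ne']; ring
    have e1 : (α ^ (1 - θ) * γ ^ θ) ^ (1 / (1 - θ / 2)) = T ^ w * ((α / T) ^ w * (γ ^ 2) ^ w2) := by
      rw [Real.mul_rpow (by positivity) (by positivity), ← Real.rpow_mul hα0, ← Real.rpow_mul hγ0,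
        Real.div_rpow hα0 (by linarith), ← Real.rpow_natCast γ 2, ← Real.rpow_mul hγ0]
      have hTw' : T ^ w ≠ 0 := by positivity
      have a1 : (1 - θ) * (1 / (1 - θ / 2)) = w := by rw [hw]; ring
      have a2 : ((2 : ℕ) : ℝ) * w2 = θ * (1 / (1 - θ / 2)) := by rw [hw2]; push_cast; ring
      rw [a1, a2]
      field_simp
    have h11 : c ^ (1 / (1 - θ / 2)) ≤ (α ^ (1 - θ) * γ ^ θ) ^ (1 / (1 - θ / 2)) :=
      Real.rpow_le_rpow hc0.le h10 (by positivity)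
    rw [e1] at h11
    refine h11.trans (mul_le_mul_of_nonneg_left ?_ (by positivity))
    have h12 := Real.geom_mean_le_arith_mean2_weighted hw0 hw20 hαT (sq_nonneg γ) hww
    refine h12.trans ?_
    have h13 : w * (α / T) ≤ α / T := mul_le_of_le_one_left hαT (by linarith)
    have h14 : w2 * γ ^ 2 ≤ γ ^ 2 := mul_le_of_le_one_left (sq_nonneg γ) (by linarith)
    linarith

/-- the number of cells -/
theorem cells (hf : PG f b M B) {r x1 : ℝ} (hr : 0 < r) (hr1 : r ≤ 1 / 8) (hx1 : 1 / 2 ≤ x1) (hx1b : x1 < b)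
    {T : ℝ} (hT : 1 ≤ T) {θ w c : ℝ} (hθ : θ = (x1 - 1 / 2) / (b - 1 / 2)) (hw : w = (1 - θ) / (1 - θ / 2))
    (hc : c = Real.pi * r ^ 2 / (2 * (Real.exp 2 * (b - x1))) / Real.exp (b ^ 2) / 2) {U1 U2 : ℝ} (hU : U1 ≤ U2)
    (K : Finset ℕ) (hK : ∀ k ∈ K, U1 ≤ k ∧ (k : ℝ) + 1 ≤ U2 ∧
      ∃ ρ : ℂ, x1 + r ≤ ρ.re ∧ ρ.re + r ≤ b ∧ 1 ≤ ‖f ρ‖ ∧ (k : ℝ) ≤ ρ.im ∧ ρ.im ≤ k + 1) :
    K.card * min (c ^ (1 / (1 - θ / 2))) (c ^ 2) ≤
      T ^ w * ((∫ y : ℝ, ‖f (((1 / 2 : ℝ) : ℂ) + (y : ℂ) * I)‖ * Wt U1 U2 y) / T +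
        2 * ∫ y : ℝ, ‖f ((b : ℂ) + (y : ℂ) * I)‖ ^ 2 * Wt U1 U2 y) := by
  have hb : 1 / 2 < b := by linarith
  obtain ⟨-, i1, e1⟩ := fubW hf le_rfl hb.le hU
  obtain ⟨-, i2, e2⟩ := fubW (PG.sq' hf) hb.le le_rfl hU
  simp only [norm_pow] at e2
  rw [e1, e2]
  set m := min (c ^ (1 / (1 - θ / 2))) (c ^ 2) with hm
  set h : ℝ → ℝ := fun u => T ^ w * (Ps f (1 / 2) u / T + 2 * Ps (fun z => f z ^ 2) b u) with hh
  have hh0 : ∀ u, 0 ≤ h u := fun u => by
    have := Ps_nonneg f (1 / 2) u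
    have := Ps_nonneg (fun z => f z ^ 2) b u
    rw [hh]; positivity
  have hi : IntervalIntegrable h volume U1 U2 := ((i1.div_const T).add (i2.const_mul 2)).const_mul _
  have hval : ∫ u in U1..U2, h u = T ^ w * ((∫ u in U1..U2, Ps f (1 / 2) u) / T +
      2 * ∫ u in U1..U2, Ps (fun z => f z ^ 2) b u) := by
    rw [hh, intervalIntegral.integral_const_mul, intervalIntegral.integral_add (i1.div_const T) (i2.const_mul 2),
      intervalIntegral.integral_div, intervalIntegral.integral_const_mul]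
  rw [← hval]
  rw [intervalIntegral.integral_of_le hU]
  have hiO : IntegrableOn h (Set.Ioc U1 U2) := (intervalIntegrable_iff_integrableOn_Ioc_of_le hU).1 hi
  have hsub : (⋃ k ∈ K, Set.Ioc (k : ℝ) (k + 1)) ⊆ Set.Ioc U1 U2 := by
    intro u hu
    simp only [Set.mem_iUnion] at hu
    obtain ⟨k, hk, hu1, hu2⟩ := hu
    obtain ⟨a1, a2, -⟩ := hK k hk
    exact ⟨by linarith, by linarith⟩
  have h1 : ∫ u in (⋃ k ∈ K, Set.Ioc (k : ℝ) (k + 1)), h u ≤ ∫ u in Set.Ioc U1 U2, h u :=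
    setIntegral_mono_set hiO (Eventually.of_forall fun u => hh0 u) (Eventually.of_forall hsub)
  refine le_trans ?_ h1
  rw [integral_biUnion_finset K (fun k _ => measurableSet_Ioc)]
  · rw [← nsmul_eq_mul, ← Finset.sum_const]
    refine Finset.sum_le_sum fun k hk => ?_
    obtain ⟨a1, a2, ρ, b1, b2, b3, b4, b5⟩ := hK k hk
    have h3 : IntegrableOn h (Set.Ioc (k : ℝ) (k + 1)) := hiO.mono_set fun u hu => ⟨by linarith [hu.1], by linarith [hu.2]⟩
    have h4 : ∫ _u in Set.Ioc (k : ℝ) (k + 1), m ≤ ∫ u in Set.Ioc (k : ℝ) (k + 1), h u := by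
      refine setIntegral_mono_on (by simp) h3 measurableSet_Ioc fun u hu => ?_
      exact cell_pt hf hr hr1 hx1 hT hθ hw hc b1 b2 b3 (by rw [abs_le]; constructor <;> linarith [hu.1, hu.2])
    refine le_trans (le_of_eq ?_) h4
    rw [setIntegral_const, measureReal_def, Real.volume_Ioc]
    simp
  · intro i _ j _ hij
    rw [Function.onFun, Set.disjoint_left]
    intro u hu hu'
    apply hij
    have h5 : (i : ℝ) < j + 1 := by linarith [hu.1, hu'.2]
    have h6 : (j : ℝ) < i + 1 := by linarith [hu'.1, hu.2]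
    have h7 : i < j + 1 := by exact_mod_cast h5
    have h8 : j < i + 1 := by exact_mod_cast h6
    omega
  · intro k hk
    obtain ⟨a1, a2, -⟩ := hK k hk
    exact hiO.mono_set fun u hu => ⟨by linarith [hu.1], by linarith [hu.2]⟩

end Pool.Agent.N831.LP
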