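import Mathlib

/-!
# The dual function
-/

set_option autoImplicit false

open Filter Topology Complex
open scoped ComplexConjugate

namespace Pool.Agent.N831.LP

/-- the dual function -/
noncomputable def dl (F : ℂ → ℂ) (s : ℂ) : ℂ := conj (F (conj s))

lemma dl_dl (F : ℂ → ℂ) : dl (dl F) = F := by
  funext s
  unfold dl
  rw [Complex.conj_conj, Complex.conj_conj]

lemma dl_diffAt {F : ℂ → ℂ} {s : ℂ} (h : DifferentiableAt ℂ F (conj s)) : DifferentiableAt ℂ (dl F) s := by
  have h1 := h.conj_conj
  rw [Complex.conj_conj] at h1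
  exact h1

lemma dl_diff {F : ℂ → ℂ} (h : Differentiable ℂ F) : Differentiable ℂ (dl F) := fun _ => dl_diffAt (h _)

lemma dl_order {F : ℂ → ℂ} (h : Differentiable ℂ F) (z : ℂ) :
    analyticOrderAt (dl F) z = analyticOrderAt F (conj z) := by
  have hF := h.analyticAt (conj z)
  have hd := (dl_diff h).analyticAt z
  have hc : Tendsto (fun w : ℂ => conj w) (𝓝 z) (𝓝 (conj z)) := Complex.continuous_conj.continuousAt
  rcases eq_or_ne (analyticOrderAt F (conj z)) ⊤ with ht | ht
  · rw [ht, analyticOrderAt_eq_top]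
    rw [analyticOrderAt_eq_top] at ht
    filter_upwards [hc.eventually ht] with w hw
    unfold dl
    rw [hw, map_zero]
  · obtain ⟨n, hn⟩ := ENat.ne_top_iff_exists.1 ht
    rw [← hn]
    obtain ⟨g, hg, hg0, hgF⟩ := (hF.analyticOrderAt_eq_natCast).1 hn.symm
    rw [hd.analyticOrderAt_eq_natCast]
    refine ⟨dl g, ?_, ?_, ?_⟩
    · -- analytic
      rw [Complex.analyticAt_iff_eventually_differentiableAt] at hg ⊢
      filter_upwards [hc.eventually hg] with w hw
      exact dl_diffAt hw
    · unfold dl
      simpa using hg0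
    · filter_upwards [hc.eventually hgF] with w hw
      unfold dl
      rw [hw, smul_eq_mul, smul_eq_mul, map_mul, map_pow, map_sub, Complex.conj_conj, Complex.conj_conj]

lemma dl_orderNat {F : ℂ → ℂ} (h : Differentiable ℂ F) (z : ℂ) :
    analyticOrderNatAt (dl F) z = analyticOrderNatAt F (conj z) := by
  unfold analyticOrderNatAt
  rw [dl_order h]

lemma order_const_mul {F G : ℂ → ℂ} (hF : Differentiable ℂ F) {c : ℂ} (hc : c ≠ 0)
    (h : ∀ z, G z = c * F z) (z : ℂ) : analyticOrderNatAt G z = analyticOrderNatAt F z := by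
  have e : G = (fun _ => c) * F := by
    funext w
    exact h w
  have h1 : AnalyticAt ℂ (fun _ : ℂ => c) z := analyticAt_const
  unfold analyticOrderNatAt
  rw [e, analyticOrderAt_mul h1 (hF.analyticAt z), h1.analyticOrderAt_eq_zero.2 hc, zero_add]

end Pool.Agent.N831.LP
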