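import Pool.Agent.R838.TW.Pl
import Pool.Agent.N831.LP.A2
import Pool.Agent.N831.LP.C
import Pool.Agent.N831.LP.G

/-!
# Completed L-functions: density theorems above and below the real axis
-/

set_option autoImplicit false

open Filter Topology Complex
open scoped ComplexConjugate

namespace Pool.Agent.N831.LP

open Pool.Agent.Y671.GL
open Pool.Agent.Y24.GL (LFn ZF NF ZF_fin)
open Pool.Agent.R838.TW (PL pl_of ldata_of lfn_of top_ne)
open W388 (FE2 GG)

/-! ### one side -/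

/-- the second density theorem, above the real axis -/
def Up2 (X : ℂ → ℂ) : Prop := ∀ d ε : ℝ, 0 < d → d ≤ 1 / 2 → 0 < ε → ∃ C : ℝ, 0 < C ∧ ∀ T : ℝ, 2 ≤ T →
  ∀ S : Finset ℂ, (∀ s ∈ S, X s = 0 ∧ d ≤ |s.re| ∧ 0 < s.im ∧ s.im ≤ T) →
    ∑ s ∈ S, (analyticOrderNatAt X s : ℝ) ≤ C * T ^ ((1 - 2 * d) / (1 - d) + ε)

theorem up2_of {k N : ℕ} {ps lam : ℕ → ℂ} {c0 : ℝ} {u : ℂ} {X Z : ℂ → ℂ} (hk : 1 ≤ k)
    (hF : Frm k N ps lam) (hL : IsL lam Z) (hD : LData k c0 u X Z) (hlfn : LFn Z) : Up2 X := by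
  classical
  intro d ε hd hd2 hε
  obtain ⟨C, hC, h⟩ := density2 hlfn (hasMol hF hL) hd hd2 hε
  have hX := hD.diff
  refine ⟨2 * C, by positivity, fun T hT S hS => ?_⟩
  have hT0 : 0 ≤ T := by linarith
  have hB : (ZF Z (1 / 2 + d) T).Finite ∧
      ∑ᶠ ρ ∈ ZF Z (1 / 2 + d) T, (analyticOrderNatAt Z ρ : ℝ) ≤ C * T ^ ((1 - 2 * d) / (1 - d) + ε) := by
    refine ⟨ZF_fin hlfn _ _, ?_⟩
    rw [finsum_mem_eq_finite_toFinset_sum _ (ZF_fin hlfn _ _)]
    exact h T hT
  rw [← Finset.sum_filter_add_sum_filter_not S (fun w => d ≤ w.re)]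
  have hZ0 : ∀ w : ℂ, 0 < w.im → X w = 0 → Z (1 / 2 + w) = 0 := by
    intro w hw h0
    rw [hD.eq w (Or.inl hw)] at h0
    refine (mul_eq_zero.1 h0).resolve_left ?_
    refine mul_ne_zero hD.u_ne (mul_ne_zero ?_ ?_)
    · rw [Ne, Complex.cpow_eq_zero_iff]
      intro h
      have := hD.c_pos.ne'
      exact this (by exact_mod_cast h.1)
    · apply Complex.Gamma_ne_zero
      intro m hm
      have := congrArg Complex.im hm
      simp at this
      linarith
  have hp : ∑ w ∈ S.filter (fun w => d ≤ w.re), (analyticOrderNatAt X w : ℝ) ≤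
      C * T ^ ((1 - 2 * d) / (1 - d) + ε) := by
    refine Pool.Agent.Y771.NF.half_sum (φ := fun w => 1 / 2 + w) (fun a _ b _ hab => add_left_cancel hab) ?_ ?_ hB
    · intro w hw
      obtain ⟨h1, h2⟩ := Finset.mem_filter.1 hw
      obtain ⟨h3, h4, h5, h6⟩ := hS w h1
      refine ⟨hZ0 w h5 h3, ?_, ?_, ?_⟩
      · simp
        linarith
      · simp
        exact h5
      · simp
        exact h6
    · intro w hw
      obtain ⟨h1, h2⟩ := Finset.mem_filter.1 hw
      obtain ⟨h3, h4, h5, h6⟩ := hS w h1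
      exact Pool.Agent.Y771.NF.ord_L hk hD hL.diff h5
  have hm : ∑ w ∈ S.filter (fun w => ¬ d ≤ w.re), (analyticOrderNatAt X w : ℝ) ≤
      C * T ^ ((1 - 2 * d) / (1 - d) + ε) := by
    refine Pool.Agent.Y771.NF.half_sum (φ := fun w => 1 / 2 + -(conj w)) (fun a _ b _ hab => ?_) ?_ ?_ hB
    · have h1 : -(conj a) = -(conj b) := add_left_cancel hab
      exact (starRingEnd ℂ).injective (neg_injective h1)
    · intro w hw
      obtain ⟨h1, h2⟩ := Finset.mem_filter.1 hw
      obtain ⟨h3, h4, h5, h6⟩ := hS w h1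
      have h7 : X (-(conj w)) = 0 := by
        rw [hD.symm, h3, map_zero]
      have him : (-(conj w)).im = w.im := by simp
      have hre : (-(conj w)).re = -w.re := by simp
      refine ⟨hZ0 _ (by rw [him]; exact h5) h7, ?_, ?_, ?_⟩
      · have h8 : d ≤ -w.re := by
          rcases le_abs.1 h4 with h9 | h9
          · exact absurd h9 h2
          · exact h9
        simp
        linarith
      · simp
        exact h5
      · simp
        exact h6
    · intro w hw
      obtain ⟨h1, h2⟩ := Finset.mem_filter.1 hw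
      obtain ⟨h3, h4, h5, h6⟩ := hS w h1
      have him : (-(conj w)).im = w.im := by simp
      rw [← Pool.Agent.Y771.NF.ordNat_symm hX hD.symm w]
      exact Pool.Agent.Y771.NF.ord_L hk hD hL.diff (by rw [him]; exact h5)
  linarith

/-! ### both sides -/

/-- Completed L-functions and their products: with density theorems on both sides of the real axis. -/
structure P2 (κ : ℝ) (X : ℂ → ℂ) : Prop where
  pl : PL κ X
  e1 : ∀ c : ℝ, c < 1 → ∃ C : ℝ, 0 < C ∧ ∀ d T : ℝ, 0 ≤ d → 2 ≤ T → ∀ S : Finset ℂ,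
    (∀ s ∈ S, X s = 0 ∧ d ≤ |s.re| ∧ 0 < |s.im| ∧ |s.im| ≤ T) →
      ∑ s ∈ S, (analyticOrderNatAt X s : ℝ) ≤ C * T ^ (1 - c * d) * Real.log T
  e2 : ∀ d ε : ℝ, 0 < d → d ≤ 1 / 2 → 0 < ε → ∃ C : ℝ, 0 < C ∧ ∀ T : ℝ, 2 ≤ T → ∀ S : Finset ℂ,
    (∀ s ∈ S, X s = 0 ∧ d ≤ |s.re| ∧ 0 < |s.im| ∧ |s.im| ≤ T) →
      ∑ s ∈ S, (analyticOrderNatAt X s : ℝ) ≤ C * T ^ ((1 - 2 * d) / (1 - d) + ε)

/-- from one side to both sides -/
lemma both {X : ℂ → ℂ} (hX : Differentiable ℂ X) {d T B1 B2 : ℝ}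
    (h1 : ∀ S : Finset ℂ, (∀ s ∈ S, X s = 0 ∧ d ≤ |s.re| ∧ 0 < s.im ∧ s.im ≤ T) →
      ∑ s ∈ S, (analyticOrderNatAt X s : ℝ) ≤ B1)
    (h2 : ∀ S : Finset ℂ, (∀ s ∈ S, dl X s = 0 ∧ d ≤ |s.re| ∧ 0 < s.im ∧ s.im ≤ T) →
      ∑ s ∈ S, (analyticOrderNatAt (dl X) s : ℝ) ≤ B2) (S : Finset ℂ)
    (hS : ∀ s ∈ S, X s = 0 ∧ d ≤ |s.re| ∧ 0 < |s.im| ∧ |s.im| ≤ T) :
    ∑ s ∈ S, (analyticOrderNatAt X s : ℝ) ≤ B1 + B2 := by
  classical
  rw [← Finset.sum_filter_add_sum_filter_not S (fun s => 0 < s.im)]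
  refine add_le_add (h1 _ fun s hs => ?_) ?_
  · rw [Finset.mem_filter] at hs
    obtain ⟨a1, a2, a3, a4⟩ := hS s hs.1
    rw [abs_of_pos hs.2] at a4
    exact ⟨a1, a2, hs.2, a4⟩
  · have h3 := h2 ((S.filter fun s => ¬ 0 < s.im).image fun s => conj s) (fun s hs => by
      rw [Finset.mem_image] at hs
      obtain ⟨w, hw, rfl⟩ := hs
      rw [Finset.mem_filter] at hw
      obtain ⟨a1, a2, a3, a4⟩ := hS w hw.1
      have h5 : w.im < 0 := by
        rcases lt_or_gt_of_ne (abs_pos.1 a3) with h | h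
        · exact h
        · exact absurd h hw.2
      rw [abs_of_neg h5] at a4
      refine ⟨?_, ?_, ?_, ?_⟩
      · unfold dl
        rw [Complex.conj_conj, a1, map_zero]
      · simpa using a2
      · simpa using h5
      · simpa using a4)
    rw [Finset.sum_image (fun a _ b _ hab => (starRingEnd ℂ).injective hab)] at h3
    refine le_trans (le_of_eq (Finset.sum_congr rfl fun s _ => ?_)) h3
    rw [dl_orderNat hX, Complex.conj_conj]

/-- the dual form -/
theorem frm_dual {k N : ℕ} {ps lam : ℕ → ℂ} (h : Frm k N ps lam) :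
    Frm k N (fun n => conj (ps n)) (fun n => conj (lam n)) := by
  have hPh : ∀ (l : ℕ → ℂ) (z : ℂ), Ph k (fun n => conj (l n)) z = conj (Ph k l (conj z)) := by
    intro l z
    unfold Ph
    rw [Complex.conj_tsum]
    refine tsum_congr fun n => ?_
    unfold aa
    rw [map_mul, map_mul, Complex.conj_ofReal, ← Complex.exp_conj, map_neg, map_mul, Complex.conj_natCast,
      Complex.conj_conj]
  refine ⟨h.k_pos, h.N_pos, by rw [h.zero, map_zero], by rw [h.one, map_one], fun m n hmn => ?_, fun p j hp => ?_,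
    fun p => ?_, ?_, ?_, ?_, ?_, ?_⟩
  · rw [h.mul m n hmn, map_mul]
  · rw [h.pow p j hp, map_sub, map_mul, map_mul]
  · rw [Complex.norm_conj]; exact h.ps_le p
  · obtain ⟨th, C, h1, h2, h3⟩ := h.ram
    exact ⟨th, C, h1, h2, fun n hn => by rw [Complex.norm_conj]; exact h3 n hn⟩
  · obtain ⟨C, h1⟩ := h.rs
    refine ⟨C, fun x hx => ?_⟩
    simp only [Complex.norm_conj]
    exact h1 x hx
  · obtain ⟨C, h1⟩ := h.bd
    refine ⟨C, fun z hz => ?_⟩
    rw [hPh, Complex.norm_conj]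
    have := h1 (conj z) (by simpa using hz)
    simpa using this
  · obtain ⟨ch, h1, h2⟩ := h.cusp
    refine ⟨fun a => conj (ch (-a)) * (-1) ^ k, fun a ha => ?_, fun q a b hq hNq hab z hz => ?_⟩
    · rw [norm_mul, Complex.norm_conj, h1 (-a) ha.neg_left, norm_pow, norm_neg, norm_one, one_pow, one_mul]
    · have h3 := h2 q (-a) (-b) hq hNq (by rwa [neg_mul_neg]) (conj z) (by simpa using hz)
      rw [hPh, hPh]
      have e1 : conj (z + 2 * Real.pi * I * a / q) = conj z + 2 * Real.pi * I * ((-a : ℤ) : ℂ) / q := by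
        simp only [map_add, map_div₀, map_mul, Complex.conj_ofReal, Complex.conj_I, Complex.conj_ofNat,
          Complex.conj_natCast, map_intCast]
        push_cast
        ring
      have e2 : conj (4 * Real.pi ^ 2 / (q ^ 2 * z) - 2 * Real.pi * I * b / q) =
          4 * Real.pi ^ 2 / (q ^ 2 * conj z) - 2 * Real.pi * I * ((-b : ℤ) : ℂ) / q := by
        simp only [map_sub, map_div₀, map_mul, map_pow, Complex.conj_ofReal, Complex.conj_I, Complex.conj_ofNat,
          Complex.conj_natCast, map_intCast]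
        push_cast
        ring
      rw [e1, e2, h3, map_mul, map_mul, map_pow]
      have e3 : conj (2 * Real.pi / (I * q * conj z)) = (-1) * (2 * Real.pi / (I * q * z)) := by
        simp only [map_div₀, map_mul, Complex.conj_ofReal, Complex.conj_I, Complex.conj_ofNat,
          Complex.conj_natCast, Complex.conj_conj]
        rw [neg_mul, neg_mul, div_neg]
        ring
      rw [e3, mul_pow]
      ring
  · obtain ⟨ε, h1, h2⟩ := h.fricke
    refine ⟨conj ε, by rw [Complex.norm_conj]; exact h1, fun z hz => ?_⟩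
    have h3 := h2 (conj z) (by simpa using hz)
    rw [hPh]
    have e1 : conj (4 * Real.pi ^ 2 / (N * z)) = 4 * Real.pi ^ 2 / (N * conj z) := by
      simp only [map_div₀, map_mul, map_pow, Complex.conj_ofReal, Complex.conj_ofNat, Complex.conj_natCast]
    rw [e1, h3, map_mul, map_mul, map_pow]
    have e2 : conj ((Real.sqrt N : ℝ) * conj z / (2 * Real.pi)) = (Real.sqrt N : ℝ) * z / (2 * Real.pi) := by
      simp only [map_div₀, map_mul, Complex.conj_ofReal, Complex.conj_ofNat, Complex.conj_conj]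
    rw [e2, hPh lam (conj z), Complex.conj_conj, Complex.conj_conj]
    simp only [Complex.conj_conj]

theorem isL_dual {lam : ℕ → ℂ} {F : ℂ → ℂ} (h : IsL lam F) : IsL (fun n => conj (lam n)) (dl F) := by
  refine ⟨dl_diff h.diff, fun s hs => ?_⟩
  unfold dl
  rw [h.ser (conj s) (by simpa using hs), Complex.conj_tsum]
  refine tsum_congr fun n => ?_
  rw [map_mul]
  congr 1
  rcases Nat.eq_zero_or_pos n with rfl | hn
  · have h1 : -s ≠ 0 := by
      intro h0
      have := congrArg Complex.re h0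
      simp at this
      linarith
    have h2 : -(conj s) ≠ 0 := by
      rw [← map_neg]
      exact (map_ne_zero (starRingEnd ℂ)).2 h1
    rw [Nat.cast_zero, Complex.zero_cpow h1, Complex.zero_cpow h2, map_zero]
  · have h3 : (n : ℂ).arg ≠ Real.pi := by
      rw [Complex.natCast_arg]
      exact Real.pi_pos.ne
    rw [show -(conj s) = conj (-s) by simp, Complex.cpow_conj _ _ h3, Complex.conj_conj, Complex.conj_natCast]

theorem GG_conj {k : ℤ} {M Q : ℝ} (hM : 0 < M) (hQ : 0 < Q) (s : ℂ) : GG k M Q (conj s) = conj (GG k M Q s) := by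
  unfold W388.GG
  have hc : 0 < Real.sqrt M * Q / (2 * Real.pi) := by
    have := Real.sqrt_pos.2 hM
    have := Real.pi_pos
    positivity
  rw [map_mul]
  congr 1
  · have h3 : (((Real.sqrt M * Q / (2 * Real.pi) : ℝ)) : ℂ).arg ≠ Real.pi := by
      rw [Complex.arg_ofReal_of_nonneg hc.le]
      exact Real.pi_pos.ne
    rw [Complex.cpow_conj _ _ h3, Complex.conj_ofReal]
  · rw [← Complex.Gamma_conj]
    congr 1
    simp only [map_add, map_div₀, map_sub, map_intCast, map_one, Complex.conj_ofNat]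

theorem fe2_dual {k : ℤ} {M Q : ℝ} (hM : 0 < M) (hQ : 0 < Q) {F : ℂ → ℂ} (h : FE2 k M Q F) : FE2 k M Q (dl F) := by
  obtain ⟨w, hw, hfe⟩ := h.fe
  have hG : ∀ s, GG k M Q s * dl F s = conj (GG k M Q (conj s) * F (conj s)) := by
    intro s
    rw [GG_conj hM hQ]
    unfold dl
    rw [map_mul, Complex.conj_conj]
  refine ⟨dl_diff h.diff, ⟨conj w, by rw [Complex.norm_conj]; exact hw, fun s hs => ?_⟩, fun a b => ?_⟩
  · rw [hG, hG, hfe (conj s) (by simpa using hs), map_mul, Complex.conj_conj, Complex.conj_conj]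
    congr 2
    simp
  · obtain ⟨C, hC⟩ := h.vert a b
    refine ⟨C, fun s h1 h2 h3 => ?_⟩
    rw [hG, Complex.norm_conj]
    exact hC (conj s) (by simpa using h1) (by simpa using h2) (by simpa using h3)

/-- **One form.** -/
theorem p2_of {k N : ℕ} [NeZero N] {ps lam : ℕ → ℂ} {M Q : ℝ} {F : ℂ → ℂ} (hk : 1 ≤ k) (hM : 1 ≤ M) (hQ : 1 ≤ Q)
    (hFE : FE2 k M Q F) (hf : Frm k N ps lam) (hL : IsL lam F) (hN : Real.sqrt (N : ℝ) = Real.sqrt M * Q) :
    ∃ (v : ℂ) (X : ℂ → ℂ), P2 1 X ∧ v ≠ 0 ∧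
      ∀ z : ℂ, 1 / 2 < z.re → X z = v * (GG k M Q (1 / 2 + z) * F (1 / 2 + z)) := by
  have hM0 : 0 < M := by linarith
  have hQ0 : 0 < Q := by linarith
  obtain ⟨u, v, X, hD, hv, hX⟩ := ldata_of hk hM hQ hFE hf hL
  have hlfn := lfn_of hk hM hQ hFE hf hL
  have hFE' := fe2_dual hM0 hQ0 hFE
  have hf' := frm_dual hf
  have hL' := isL_dual hL
  obtain ⟨u', v', X', hD', hv', hX'⟩ := ldata_of hk hM hQ hFE' hf' hL'
  have hlfn' := lfn_of hk hM hQ hFE' hf' hL'
  rw [← hN] at hD hD'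
  -- the dual function
  have hdl : ∀ z, dl X z = (conj v / v') * X' z := by
    have h1 : ∀ z : ℂ, 1 / 2 < z.re → dl X z = (conj v / v') * X' z := by
      intro z hz
      unfold dl
      rw [hX (conj z) (by simpa using hz), hX' z hz, map_mul, map_mul]
      have e : (1 / 2 + conj z : ℂ) = conj (1 / 2 + z) := by
        rw [map_add, map_div₀, map_one, Complex.conj_ofNat]
      rw [e, GG_conj hM0 hQ0, Complex.conj_conj]
      unfold dl
      field_simp
    have h2 : AnalyticOnNhd ℂ (dl X) Set.univ := fun z _ => (dl_diff hD.diff).analyticAt z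
    have h3 : AnalyticOnNhd ℂ (fun z => (conj v / v') * X' z) Set.univ := fun z _ =>
      (hD'.diff.const_mul _).analyticAt z
    have h4 : dl X =ᶠ[𝓝 (1 : ℂ)] fun z => (conj v / v') * X' z := by
      have : {z : ℂ | 1 / 2 < z.re} ∈ 𝓝 (1 : ℂ) :=
        (isOpen_lt continuous_const Complex.continuous_re).mem_nhds (by norm_num)
      filter_upwards [this] with z hz using h1 z hz
    have h5 := h2.eqOn_of_preconnected_of_eventuallyEq h3 isPreconnected_univ (Set.mem_univ 1) h4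
    exact fun z => h5 (Set.mem_univ z)
  have hcne : conj v / v' ≠ 0 := div_ne_zero ((map_ne_zero _).2 hv) hv'
  have hord : ∀ z, analyticOrderNatAt (dl X) z = analyticOrderNatAt X' z :=
    order_const_mul hD'.diff hcne hdl
  have hPL := pl_of hk hf hL hD hlfn
  have hPL' := pl_of hk hf' hL' hD' hlfn'
  refine ⟨v, X, ⟨hPL, fun c hc => ?_, fun d ε hd hd2 hε => ?_⟩, hv, hX⟩
  · obtain ⟨C1, hC1, h1⟩ := hPL.dens c hc
    obtain ⟨C2, hC2, h2⟩ := hPL'.dens c hc
    refine ⟨C1 + C2, by positivity, fun d T hd hT S hS => ?_⟩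
    have h3 := both hD.diff (h1 d T hd hT) (B2 := C2 * T ^ (1 - c * d) * Real.log T) (fun S hS => by
      rw [Finset.sum_congr rfl fun s _ => by rw [hord s]]
      refine h2 d T hd hT S fun s hs => ?_
      obtain ⟨a1, a2⟩ := hS s hs
      rw [hdl] at a1
      exact ⟨(mul_eq_zero.1 a1).resolve_left hcne, a2⟩) S hS
    linarith
  · obtain ⟨C1, hC1, h1⟩ := up2_of hk hf hL hD hlfn d ε hd hd2 hε
    obtain ⟨C2, hC2, h2⟩ := up2_of hk hf' hL' hD' hlfn' d ε hd hd2 hε
    refine ⟨C1 + C2, by positivity, fun T hT S hS => ?_⟩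
    have h3 := both hD.diff (h1 T hT) (B2 := C2 * T ^ ((1 - 2 * d) / (1 - d) + ε)) (fun S hS => by
      rw [Finset.sum_congr rfl fun s _ => by rw [hord s]]
      refine h2 T hT S fun s hs => ?_
      obtain ⟨a1, a2⟩ := hS s hs
      rw [hdl] at a1
      exact ⟨(mul_eq_zero.1 a1).resolve_left hcne, a2⟩) S hS
    linarith

/-- splitting the count for a product -/
lemma prod_count {X X' : ℂ → ℂ} (hX : Differentiable ℂ X) (hX' : Differentiable ℂ X') (h1 : X 1 ≠ 0) (h2 : X' 1 ≠ 0)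
    {R : ℂ → Prop} {B1 B2 : ℝ} (H1 : ∀ S : Finset ℂ, (∀ s ∈ S, X s = 0 ∧ R s) → ∑ s ∈ S, (analyticOrderNatAt X s : ℝ) ≤ B1)
    (H2 : ∀ S : Finset ℂ, (∀ s ∈ S, X' s = 0 ∧ R s) → ∑ s ∈ S, (analyticOrderNatAt X' s : ℝ) ≤ B2)
    (S : Finset ℂ) (hS : ∀ s ∈ S, X s * X' s = 0 ∧ R s) :
    ∑ s ∈ S, (analyticOrderNatAt (fun s => X s * X' s) s : ℝ) ≤ B1 + B2 := by
  classical
  have ht1 := top_ne hX h1
  have ht2 := top_ne hX' h2
  have hord : ∀ s, (analyticOrderNatAt (fun s => X s * X' s) s : ℝ) =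
      (analyticOrderNatAt X s : ℝ) + (analyticOrderNatAt X' s : ℝ) := by
    intro s
    have h3 : analyticOrderAt (fun s => X s * X' s) s = analyticOrderAt X s + analyticOrderAt X' s :=
      analyticOrderAt_mul (hX.analyticAt s) (hX'.analyticAt s)
    have h4 : analyticOrderNatAt (fun s => X s * X' s) s = analyticOrderNatAt X s + analyticOrderNatAt X' s := by
      unfold analyticOrderNatAt
      rw [h3, ENat.toNat_add (ht1 s) (ht2 s)]
    rw [h4]
    push_cast
    rfl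
  have hz : ∀ (Y : ℂ → ℂ), Differentiable ℂ Y → ∀ s, Y s ≠ 0 → (analyticOrderNatAt Y s : ℝ) = 0 := by
    intro Y hY s hs
    have h3 : analyticOrderAt Y s = 0 := (hY.analyticAt s).analyticOrderAt_eq_zero.2 hs
    unfold analyticOrderNatAt
    rw [h3]
    simp
  have hsum : ∀ (Y : ℂ → ℂ), Differentiable ℂ Y → ∑ s ∈ S, (analyticOrderNatAt Y s : ℝ) =
      ∑ s ∈ S.filter (fun s => Y s = 0), (analyticOrderNatAt Y s : ℝ) := by
    intro Y hY
    refine (Finset.sum_filter_of_ne fun s _ h0 => ?_).symm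
    by_contra hne
    exact h0 (hz Y hY s hne)
  have e1 := H1 (S.filter (fun s => X s = 0)) (fun s hs => by
    obtain ⟨k1, k2⟩ := Finset.mem_filter.1 hs
    exact ⟨k2, (hS s k1).2⟩)
  have e2 := H2 (S.filter (fun s => X' s = 0)) (fun s hs => by
    obtain ⟨k1, k2⟩ := Finset.mem_filter.1 hs
    exact ⟨k2, (hS s k1).2⟩)
  rw [Finset.sum_congr rfl (fun s _ => hord s), Finset.sum_add_distrib, hsum X hX, hsum X' hX']
  exact add_le_add e1 e2

/-- **Products.** -/
theorem P2.mul {κ κ' : ℝ} {X X' : ℂ → ℂ} (h1 : P2 κ X) (h2 : P2 κ' X') : P2 (κ + κ') (fun s => X s * X' s) where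
  pl := h1.pl.mul h2.pl
  e1 := fun c hc => by
    obtain ⟨C1, hC1, H1⟩ := h1.e1 c hc
    obtain ⟨C2, hC2, H2⟩ := h2.e1 c hc
    refine ⟨C1 + C2, by positivity, fun d T hd hT S hS => ?_⟩
    have h3 := prod_count h1.pl.diff h2.pl.diff h1.pl.ne h2.pl.ne (H1 d T hd hT) (H2 d T hd hT) S hS
    linarith
  e2 := fun d ε hd hd2 hε => by
    obtain ⟨C1, hC1, H1⟩ := h1.e2 d ε hd hd2 hε
    obtain ⟨C2, hC2, H2⟩ := h2.e2 d ε hd hd2 hε
    refine ⟨C1 + C2, by positivity, fun T hT S hS => ?_⟩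
    have h3 := prod_count h1.pl.diff h2.pl.diff h1.pl.ne h2.pl.ne (H1 T hT) (H2 T hT) S hS
    linarith

theorem p2_prod {ι : Type*} [DecidableEq ι] (s : Finset ι) (hs : s.Nonempty) (X : ι → ℂ → ℂ)
    (h : ∀ i ∈ s, P2 1 (X i)) : P2 (s.card : ℝ) (fun w => ∏ i ∈ s, X i w) := by
  induction hs using Finset.Nonempty.cons_induction with
  | singleton a =>
    simp only [Finset.card_singleton, Finset.prod_singleton, Nat.cast_one]
    exact h a (Finset.mem_singleton_self a)
  | cons a s ha hs ih =>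
    have h1 := h a (Finset.mem_cons_self a s)
    have h2 := ih fun i hi => h i (Finset.mem_cons_of_mem hi)
    have h3 := h1.mul h2
    simp only [Finset.card_cons, Finset.prod_cons, Nat.cast_add, Nat.cast_one]
    rw [add_comm (s.card : ℝ) 1]
    exact h3

end Pool.Agent.N831.LP
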