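import Pool.Agent.N831.LP.D
import Pool.Agent.N831.LI.Conv
import Pool.Agent.Y67.GL.TOTH

/-!
# The zeros of a completed L-function as abstract zero data
-/

set_option autoImplicit false

open Filter Topology Complex
open scoped ComplexConjugate

namespace Pool.Agent.N831.LP

open Pool.Agent.N831.LI (Zs Dn li W)
open Pool.Agent.W169.HF (heat)

variable {κ0 : ℝ} {X : ℂ → ℂ}

/-- the multiplicity of the zero `z` of `X`, plus that of its conjugate -/
noncomputable def MX (X : ℂ → ℂ) (z : ℂ) : ℝ := (analyticOrderNatAt X z : ℝ) + (analyticOrderNatAt X (conj z) : ℝ)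

/-- scaled -/
noncomputable def MS (X : ℂ → ℂ) (z : ℂ) : ℝ := MX X (2 * z)

lemma MX_nn (z : ℂ) : 0 ≤ MX X z := by unfold MX; positivity

lemma MX_conj (z : ℂ) : MX X (conj z) = MX X z := by
  unfold MX
  rw [Complex.conj_conj, add_comm]

lemma MX_neg (h : P2 κ0 X) (z : ℂ) : MX X (-z) = MX X z := by
  have hX := h.pl.diff
  have hs := h.pl.sy.symm
  have h1 : ∀ w, analyticOrderNatAt X (-w) = analyticOrderNatAt X (conj w) := by
    intro w
    have := Pool.Agent.Y771.NF.ordNat_symm hX hs (conj w)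
    rwa [Complex.conj_conj] at this
  unfold MX
  rw [h1 z, map_neg, h1 (conj z), Complex.conj_conj, add_comm]

lemma ord_zero (h : P2 κ0 X) {z : ℂ} (hz : analyticOrderNatAt X z ≠ 0) : X z = 0 := by
  by_contra h1
  apply hz
  unfold analyticOrderNatAt
  rw [(h.pl.diff.analyticAt z).analyticOrderAt_eq_zero.2 h1]
  rfl

lemma ord_ne (h : P2 κ0 X) {z : ℂ} (hz : X z = 0) : analyticOrderNatAt X z ≠ 0 := by
  intro h1
  have ht := Pool.Agent.R838.TW.top_ne h.pl.diff h.pl.ne z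
  unfold analyticOrderNatAt at h1
  rw [ENat.toNat_eq_zero] at h1
  rcases h1 with h1 | h1
  · exact ((h.pl.diff.analyticAt z).analyticOrderAt_eq_zero.1 h1) hz
  · exact ht h1

lemma MX_zero (h : P2 κ0 X) {z : ℂ} (hz : MX X z ≠ 0) : X z = 0 ∨ X (conj z) = 0 := by
  unfold MX at hz
  by_contra hcon
  push Not at hcon
  apply hz
  have h1 : analyticOrderNatAt X z = 0 := by
    by_contra h2
    exact hcon.1 (ord_zero h h2)
  have h3 : analyticOrderNatAt X (conj z) = 0 := by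
    by_contra h2
    exact hcon.2 (ord_zero h h2)
  rw [h1, h3]
  simp

lemma MX_ne (h : P2 κ0 X) {z : ℂ} (hz : X z = 0) : MX X z ≠ 0 := by
  have h1 := ord_ne h hz
  unfold MX
  have h2 : (1 : ℝ) ≤ analyticOrderNatAt X z := by exact_mod_cast Nat.one_le_iff_ne_zero.2 h1
  have h3 : (0 : ℝ) ≤ analyticOrderNatAt X (conj z) := Nat.cast_nonneg _
  linarith

lemma MX_strip (h : P2 κ0 X) {z : ℂ} (hz : MX X z ≠ 0) : |z.re| ≤ 1 / 2 := by
  rcases MX_zero h hz with h1 | h1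
  · exact h.pl.strip z h1
  · have := h.pl.strip _ h1
    rwa [Complex.conj_re] at this

/-! ### counting -/

/-- the real zeros -/
lemma real_fin (h : P2 κ0 X) : {s : ℂ | X s = 0 ∧ s.im = 0}.Finite := by
  have hX := h.pl.diff
  have hK : IsCompact (Set.Icc (-(1 / 2) : ℝ) (1 / 2) ×ℂ Set.Icc (0 : ℝ) 0) := isCompact_Icc.reProdIm isCompact_Icc
  by_contra hinf
  have hsub : {s : ℂ | X s = 0 ∧ s.im = 0} ⊆ Set.Icc (-(1 / 2) : ℝ) (1 / 2) ×ℂ Set.Icc (0 : ℝ) 0 := by
    rintro s ⟨h1, h2⟩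
    have h3 := abs_le.1 (h.pl.strip s h1)
    exact ⟨⟨by linarith [h3.1], h3.2⟩, by simp [h2]⟩
  obtain ⟨z₀, _, hz₀⟩ := Set.Infinite.exists_accPt_of_subset_isCompact hinf hK hsub
  have han : AnalyticOnNhd ℂ X Set.univ := fun z _ => hX.analyticAt z
  have hfr : ∃ᶠ z in 𝓝[≠] z₀, X z = 0 := by
    have h1 := accPt_iff_frequently_nhdsNE.mp hz₀
    exact h1.mono fun z hz => hz.1
  have h2 := han.eqOn_zero_of_preconnected_of_frequently_eq_zero isPreconnected_univ
    (Set.mem_univ z₀) hfr (Set.mem_univ (1 : ℂ))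
  exact h.pl.ne h2

lemma real_bd (h : P2 κ0 X) : ∃ R : ℝ, 0 ≤ R ∧ ∀ S : Finset ℂ, (∀ s ∈ S, X s = 0 ∧ s.im = 0) →
    ∑ s ∈ S, (analyticOrderNatAt X s : ℝ) ≤ R := by
  refine ⟨∑ s ∈ (real_fin h).toFinset, (analyticOrderNatAt X s : ℝ), Finset.sum_nonneg fun _ _ => Nat.cast_nonneg _,
    fun S hS => ?_⟩
  refine Finset.sum_le_sum_of_subset_of_nonneg (fun s hs => ?_) fun _ _ _ => Nat.cast_nonneg _
  rw [Set.Finite.mem_toFinset]
  exact hS s hs

/-- restriction to the zeros -/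
lemma restrict (h : P2 κ0 X) (S : Finset ℂ) (g : ℂ → ℝ) : ∑ s ∈ S, (analyticOrderNatAt X s : ℝ) * g s =
    ∑ s ∈ S.filter (fun s => X s = 0), (analyticOrderNatAt X s : ℝ) * g s := by
  classical
  refine (Finset.sum_filter_of_ne fun s _ h0 => ?_).symm
  by_contra hne
  apply h0
  have : analyticOrderNatAt X s = 0 := by
    by_contra h2
    exact hne (ord_zero h h2)
  rw [this]
  simp

/-- a bound for the number of zeros with a margin in the exponent -/
lemma cnt_margin (h : P2 κ0 X) {δ ε : ℝ} (hδ : 0 ≤ δ) (hδ2 : δ ≤ 1 / 2) (hε : 0 < ε) : ∃ C : ℝ, 0 ≤ C ∧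
    ∀ T : ℝ, 1 ≤ T → ∀ S : Finset ℂ, (∀ s ∈ S, δ ≤ |s.re| ∧ |s.im| ≤ T) →
      ∑ s ∈ S, (analyticOrderNatAt X s : ℝ) ≤ C * T ^ ((1 - 2 * δ) / (1 - δ) + ε) := by
  classical
  obtain ⟨R, hR, hRb⟩ := real_bd h
  set w : ℝ := (1 - 2 * δ) / (1 - δ) + ε with hw
  have hw0 : 0 ≤ w := by
    have : 0 ≤ (1 - 2 * δ) / (1 - δ) := div_nonneg (by linarith) (by linarith)
    linarith
  -- non-real zeros
  have hnr : ∃ C : ℝ, 0 ≤ C ∧ ∀ T : ℝ, 2 ≤ T → ∀ S : Finset ℂ,
      (∀ s ∈ S, X s = 0 ∧ δ ≤ |s.re| ∧ 0 < |s.im| ∧ |s.im| ≤ T) →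
      ∑ s ∈ S, (analyticOrderNatAt X s : ℝ) ≤ C * T ^ w := by
    rcases hδ.eq_or_lt with h0 | h0
    · obtain ⟨C, hC, h1⟩ := h.e1 0 (by norm_num)
      refine ⟨C / ε, by positivity, fun T hT S hS => ?_⟩
      have h2 := h1 0 T le_rfl hT S fun s hs => ⟨(hS s hs).1, abs_nonneg _, (hS s hs).2.2.1, (hS s hs).2.2.2⟩
      refine h2.trans ?_
      have hT0 : 0 < T := by linarith
      have h3 := Real.log_le_rpow_div hT0.le hε
      have e1 : (1 : ℝ) - 0 * 0 = 1 := by norm_num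
      have e2 : w = 1 + ε := by rw [hw, ← h0]; norm_num
      rw [e1, e2, Real.rpow_add hT0, Real.rpow_one]
      calc C * T * Real.log T ≤ C * T * (T ^ ε / ε) := by gcongr
        _ = _ := by ring
    · obtain ⟨C, hC, h1⟩ := h.e2 δ ε h0 hδ2 hε
      exact ⟨C, hC.le, fun T hT S hS => h1 T hT S hS⟩
  obtain ⟨C, hC, h1⟩ := hnr
  refine ⟨C * 2 ^ w + R, by positivity, fun T hT S hS => ?_⟩
  have hT0 : 0 < T := by linarith
  have hres := restrict h S (fun _ => 1)
  simp only [mul_one] at hres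
  rw [hres, ← Finset.sum_filter_add_sum_filter_not (S.filter (fun s => X s = 0)) (fun s => 0 < |s.im|)]
  have h2 := h1 (2 * T) (by linarith) ((S.filter (fun s => X s = 0)).filter (fun s => 0 < |s.im|)) (fun s hs => by
    rw [Finset.mem_filter, Finset.mem_filter] at hs
    obtain ⟨a1, a2⟩ := hS s hs.1.1
    exact ⟨hs.1.2, a1, hs.2, by linarith⟩)
  have h3 := hRb ((S.filter (fun s => X s = 0)).filter (fun s => ¬ 0 < |s.im|)) (fun s hs => by
    rw [Finset.mem_filter, Finset.mem_filter, not_lt] at hs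
    exact ⟨hs.1.2, abs_nonpos_iff.1 hs.2⟩)
  have h4 : 1 ≤ T ^ w := Real.one_le_rpow hT hw0
  rw [Real.mul_rpow (by norm_num) hT0.le] at h2
  nlinarith

/-- summability -/
lemma cntA (h : P2 κ0 X) (s : ℝ) (hs : 1 < s) : ∃ C : ℝ, 0 ≤ C ∧ ∀ S : Finset ℂ,
    ∑ z ∈ S, (analyticOrderNatAt X z : ℝ) / (1 + |z.im|) ^ s ≤ C := by
  classical
  set ε : ℝ := (s - 1) / 2 with hε
  have hε0 : 0 < ε := by rw [hε]; linarith
  obtain ⟨C, hC, h1⟩ := cnt_margin h (δ := 0) le_rfl (by norm_num) hε0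
  have e0 : (1 - 2 * (0 : ℝ)) / (1 - 0) + ε = 1 + ε := by norm_num
  rw [e0] at h1
  set r : ℝ := 2 ^ (-ε) with hr
  have hr0 : 0 < r := by rw [hr]; positivity
  have hr1 : r < 1 := by rw [hr]; exact Real.rpow_lt_one_of_one_lt_of_neg (by norm_num) (by linarith)
  have hsum : Summable (fun j : ℕ => C * 2 ^ (1 + ε) * r ^ j) := (summable_geometric_of_lt_one hr0.le hr1).mul_left _
  refine ⟨∑' j : ℕ, C * 2 ^ (1 + ε) * r ^ j, tsum_nonneg fun j => by positivity, fun S => ?_⟩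
  rw [← Finset.sum_fiberwise_of_maps_to (s := S) (t := S.image fun z => Nat.log 2 ⌊1 + |z.im|⌋₊)
    (g := fun z => Nat.log 2 ⌊1 + |z.im|⌋₊) (fun z hz => Finset.mem_image_of_mem _ hz)]
  refine le_trans (Finset.sum_le_sum fun j _ => ?_) (hsum.sum_le_tsum _ fun j _ => by positivity)
  have hb : ∀ z ∈ S.filter (fun z => Nat.log 2 ⌊1 + |z.im|⌋₊ = j), (2 : ℝ) ^ j ≤ 1 + |z.im| ∧ |z.im| ≤ 2 ^ (j + 1) := by
    intro z hz
    rw [Finset.mem_filter] at hz
    have h0 := abs_nonneg z.im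
    have h2 : 1 ≤ ⌊1 + |z.im|⌋₊ := by
      rw [Nat.one_le_floor_iff]
      linarith
    have h3 := Nat.pow_log_le_self 2 (x := ⌊1 + |z.im|⌋₊) (by omega)
    have h4 := Nat.lt_pow_succ_log_self (b := 2) (by norm_num) ⌊1 + |z.im|⌋₊
    rw [hz.2] at h3 h4
    have h5 := Nat.floor_le (by linarith : 0 ≤ 1 + |z.im|)
    have h6 := Nat.lt_floor_add_one (1 + |z.im|)
    have h7 : ((2 ^ j : ℕ) : ℝ) ≤ ⌊1 + |z.im|⌋₊ := by exact_mod_cast h3
    have h8 : ((⌊1 + |z.im|⌋₊ : ℕ) : ℝ) + 1 ≤ ((2 ^ (j + 1) : ℕ) : ℝ) := by exact_mod_cast h4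
    push_cast at h7 h8
    exact ⟨by linarith, by linarith⟩
  have h2 := h1 (2 ^ (j + 1)) (one_le_pow₀ (by norm_num)) (S.filter (fun z => Nat.log 2 ⌊1 + |z.im|⌋₊ = j))
    (fun z hz => ⟨abs_nonneg _, (hb z hz).2⟩)
  calc ∑ z ∈ S.filter (fun z => Nat.log 2 ⌊1 + |z.im|⌋₊ = j), (analyticOrderNatAt X z : ℝ) / (1 + |z.im|) ^ s
      ≤ ∑ z ∈ S.filter (fun z => Nat.log 2 ⌊1 + |z.im|⌋₊ = j), (analyticOrderNatAt X z : ℝ) / ((2 : ℝ) ^ j) ^ s := by
        refine Finset.sum_le_sum fun z hz => ?_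
        apply div_le_div_of_nonneg_left (Nat.cast_nonneg _) (by positivity)
        exact Real.rpow_le_rpow (by positivity) (hb z hz).1 (by linarith)
    _ = (∑ z ∈ S.filter (fun z => Nat.log 2 ⌊1 + |z.im|⌋₊ = j), (analyticOrderNatAt X z : ℝ)) / ((2 : ℝ) ^ j) ^ s := by
        rw [Finset.sum_div]
    _ ≤ (C * ((2 : ℝ) ^ (j + 1)) ^ (1 + ε)) / ((2 : ℝ) ^ j) ^ s := by gcongr
    _ = C * 2 ^ (1 + ε) * r ^ j := by
        have e1 : ((2 : ℝ) ^ (j + 1)) ^ (1 + ε) = 2 ^ (1 + ε) * ((2 : ℝ) ^ j) ^ (1 + ε) := by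
          rw [pow_succ, Real.mul_rpow (by positivity) (by norm_num), mul_comm]
        have e2 : ((2 : ℝ) ^ j) ^ (1 + ε) / ((2 : ℝ) ^ j) ^ s = r ^ j := by
          rw [← Real.rpow_sub (by positivity), hr, ← Real.rpow_natCast (2 : ℝ) j, ← Real.rpow_mul (by norm_num),
            ← Real.rpow_natCast ((2 : ℝ) ^ (-ε)) j, ← Real.rpow_mul (by norm_num)]
          congr 1
          rw [hε]
          ring
        rw [e1, mul_div_assoc, mul_div_assoc, e2]
        ring

/-- from `X` to the scaled data -/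
lemma sum_MS (S : Finset ℂ) (g : ℂ → ℝ) : ∑ z ∈ S, MS X z * g z =
    ∑ w ∈ S.image (fun z => 2 * z), (analyticOrderNatAt X w : ℝ) * g (w / 2) +
    ∑ w ∈ S.image (fun z => conj (2 * z)), (analyticOrderNatAt X w : ℝ) * g (conj w / 2) := by
  classical
  rw [Finset.sum_image (fun a _ b _ hab => by simpa using hab), Finset.sum_image (fun a _ b _ hab => by
    have := (starRingEnd ℂ).injective hab
    simpa using this), ← Finset.sum_add_distrib]
  refine Finset.sum_congr rfl fun z _ => ?_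
  have e1 : 2 * z / 2 = z := by ring
  rw [Complex.conj_conj, e1]
  unfold MS MX
  ring

theorem zsX (hκ : 1 / 2 ≤ κ0) (h : P2 κ0 X) : Zs (MS X) := by
  refine ⟨fun z => MX_nn _, fun z hz => ?_, fun z hz => ?_, fun z => ?_, fun z => ?_, fun s hs => ?_, ?_⟩
  · have h0 := trivial
    have h1 := MX_zero h hz
    unfold MS MX
    have a1 : (0 : ℝ) ≤ analyticOrderNatAt X (2 * z) := Nat.cast_nonneg _
    have a2 : (0 : ℝ) ≤ analyticOrderNatAt X (conj (2 * z)) := Nat.cast_nonneg _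
    rcases h1 with h1 | h1
    · have h2 : (1 : ℝ) ≤ analyticOrderNatAt X (2 * z) := by exact_mod_cast Nat.one_le_iff_ne_zero.2 (ord_ne h h1)
      linarith
    · have h2 : (1 : ℝ) ≤ analyticOrderNatAt X (conj (2 * z)) := by
        exact_mod_cast Nat.one_le_iff_ne_zero.2 (ord_ne h h1)
      linarith
  · have h0 := trivial
    have h1 := MX_strip h hz
    have e : (2 * z : ℂ).re = 2 * z.re := by simp
    rw [e, abs_mul, abs_two] at h1
    linarith
  · have h0 := trivial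
    unfold MS
    rw [← MX_conj (2 * z)]
    congr 1
    rw [map_mul, Complex.conj_ofNat]
  · have h0 := trivial
    unfold MS
    rw [← MX_neg h (2 * z)]
    congr 1
    ring
  · have h0 := trivial
    classical
    obtain ⟨C, hC, h1⟩ := cntA h s hs
    refine ⟨2 ^ s * C + 2 ^ s * C, by positivity, fun S => ?_⟩
    have h2 : ∑ z ∈ S, MS X z / (1 + |z.im|) ^ s = ∑ z ∈ S, MS X z * (1 / (1 + |z.im|) ^ s) :=
      Finset.sum_congr rfl fun z _ => by ring
    rw [h2, sum_MS]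
    have key : ∀ w : ℂ, (analyticOrderNatAt X w : ℝ) * (1 / (1 + |w.im| / 2) ^ s) ≤
        2 ^ s * ((analyticOrderNatAt X w : ℝ) / (1 + |w.im|) ^ s) := by
      intro w
      have h3 : (1 + |w.im|) ^ s ≤ 2 ^ s * (1 + |w.im| / 2) ^ s := by
        rw [← Real.mul_rpow (by norm_num) (by positivity)]
        apply Real.rpow_le_rpow (by positivity) _ (by linarith)
        have := abs_nonneg w.im
        linarith
      have h4 : (0 : ℝ) ≤ analyticOrderNatAt X w := Nat.cast_nonneg _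
      have h5 : 0 < (1 + |w.im|) ^ s := by positivity
      have h6 : 0 < (1 + |w.im| / 2) ^ s := by positivity
      have h7 : 1 / (1 + |w.im| / 2) ^ s ≤ 2 ^ s / (1 + |w.im|) ^ s := by
        rw [div_le_div_iff₀ h6 h5, one_mul]
        exact h3
      calc (analyticOrderNatAt X w : ℝ) * (1 / (1 + |w.im| / 2) ^ s) ≤
            (analyticOrderNatAt X w : ℝ) * (2 ^ s / (1 + |w.im|) ^ s) := mul_le_mul_of_nonneg_left h7 h4
        _ = _ := by ring
    have e1 : ∀ w : ℂ, (w / 2).im = w.im / 2 := fun w => by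
      rw [show (w / 2 : ℂ) = w / ((2 : ℝ) : ℂ) by push_cast; rfl, Complex.div_ofReal_im]
    refine add_le_add ?_ ?_
    · refine le_trans (Finset.sum_le_sum fun w _ => ?_) (le_trans (le_of_eq (Finset.mul_sum _ _ _).symm)
        (mul_le_mul_of_nonneg_left (h1 _) (by positivity)))
      rw [e1, abs_div, abs_two]
      exact key w
    · refine le_trans (Finset.sum_le_sum fun w _ => ?_) (le_trans (le_of_eq (Finset.mul_sum _ _ _).symm)
        (mul_le_mul_of_nonneg_left (h1 _) (by positivity)))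
      rw [e1, Complex.conj_im, abs_div, abs_neg, abs_two]
      exact key w
  · have h0 := trivial
    classical
    obtain ⟨H, Z, hG⟩ := h.pl.gy
    obtain ⟨c, T0, hc, hT0, htot⟩ := Pool.Agent.Y67.GL.toth κ0 H X Z hκ hG.cg h.pl.strip 1 le_rfl
    have h1 := h.pl.sy
    obtain ⟨K, hK, hslow⟩ := h1.slow
    obtain ⟨g0, -⟩ := Pool.Agent.Y275.GL.hht X (Pool.Agent.Y671.GL.slow_of h1.diff hK hslow) h1.symm h1.ne h.pl.strip
    refine ⟨c, hc, T0, by linarith, fun Y hY => ?_⟩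
    have hY0 : 0 < Y := by linarith
    obtain ⟨S, hS, h7⟩ := htot (2 * Y) 0 (by linarith) le_rfl (by norm_num) (by norm_num)
    rw [g0] at h7
    refine ⟨S.image (fun w => w / 2), ?_, ?_⟩
    · intro z hz
      rw [Finset.mem_image] at hz
      obtain ⟨w, hw, rfl⟩ := hz
      obtain ⟨-, a2, a3⟩ := hS w hw
      have e1 : (w / 2).im = w.im / 2 := by
        rw [show (w / 2 : ℂ) = w / ((2 : ℝ) : ℂ) by push_cast; rfl, Complex.div_ofReal_im]
      rw [e1]
      constructor <;> linarith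
    · rw [Finset.sum_image (fun a _ b _ hab => by
        have := congrArg (fun x => 2 * x) hab
        simpa [mul_div_cancel₀] using this)]
      have h8 : c * Y * Real.log Y ≤ c * (2 * Y) * Real.log (2 * Y) := by
        have a1 : Real.log Y ≤ Real.log (2 * Y) := Real.log_le_log hY0 (by linarith)
        have a2 : 0 ≤ Real.log Y := Real.log_nonneg (by linarith)
        have a3 : 0 < c * Y := by positivity
        nlinarith
      refine h8.trans (h7.trans (Finset.sum_le_sum fun w _ => ?_))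
      unfold MS MX
      have e2 : 2 * (w / 2) = w := by ring
      rw [e2]
      have : (0 : ℝ) ≤ analyticOrderNatAt X (conj w) := Nat.cast_nonneg _
      linarith

end Pool.Agent.N831.LP
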