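import Pool.Agent.N831.LP.E

/-!
# The density hypothesis, and the theorems on Li coefficients for completed L-functions
-/

set_option autoImplicit false

open Filter Topology Complex Finset
open scoped ComplexConjugate

namespace Pool.Agent.N831.LP

open Pool.Agent.N831.LI (Zs Dn li W)

variable {κ0 : ℝ} {X : ℂ → ℂ}

/-- the density hypothesis for `X` itself -/
theorem dnA (h : P2 κ0 X) {κ : ℝ} (hκ : 0 < κ) {δ0 : ℝ} (h0 : 0 ≤ δ0) (h02 : δ0 ≤ 1 / 2)
    (hz : ∀ z, X z = 0 → |z.re| ≤ δ0)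
    (hc : ∀ δ : ℝ, 0 ≤ δ → δ ≤ δ0 → (1 - 2 * δ) / (1 - δ) + 2 * κ * δ < 2) :
    ∃ η : ℝ, 0 < η ∧ ∃ C : ℝ, 0 ≤ C ∧ ∀ T : ℝ, 1 ≤ T → ∀ S : Finset ℂ, (∀ z ∈ S, |z.im| ≤ T) →
      ∑ z ∈ S, (analyticOrderNatAt X z : ℝ) * T ^ (2 * κ * |z.re|) ≤ C * T ^ (2 - η) := by
  classical
  -- the minimum
  obtain ⟨x, hx, hmin⟩ := isCompact_Icc.exists_isMinOn (s := Set.Icc 0 δ0)
    (f := fun δ : ℝ => 2 - ((1 - 2 * δ) / (1 - δ) + 2 * κ * δ)) ⟨0, le_rfl, h0⟩ (by
      apply ContinuousOn.sub continuousOn_const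
      apply ContinuousOn.add _ (by fun_prop)
      apply ContinuousOn.div (by fun_prop) (by fun_prop)
      intro δ hδ h1
      have := hδ.2
      linarith)
  set m0 : ℝ := 2 - ((1 - 2 * x) / (1 - x) + 2 * κ * x) with hm0
  have hm0p : 0 < m0 := by
    have := hc x hx.1 hx.2
    rw [hm0]; linarith
  have hmin' : ∀ δ, 0 ≤ δ → δ ≤ δ0 → m0 ≤ 2 - ((1 - 2 * δ) / (1 - δ) + 2 * κ * δ) := fun δ h1 h2 =>
    hmin (⟨h1, h2⟩ : δ ∈ Set.Icc 0 δ0)
  set η : ℝ := m0 / 4 with hη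
  have hη0 : 0 < η := by rw [hη]; linarith
  obtain ⟨J, hJ⟩ := exists_nat_gt (max 1 (κ / η))
  have hJ1 : (1 : ℝ) < J := (le_max_left _ _).trans_lt hJ
  have hJκ : κ / η < J := (le_max_right _ _).trans_lt hJ
  set μ : ℝ := 1 / (2 * J) with hμ
  have hμ0 : 0 < μ := by positivity
  have hκμ : 2 * κ * μ ≤ η := by
    rw [div_lt_iff₀ hη0] at hJκ
    rw [hμ]
    have : 2 * κ * (1 / (2 * J)) = κ / J := by field_simp
    rw [this, div_le_iff₀ (by linarith)]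
    linarith
  have hJμ : J * μ = 1 / 2 := by rw [hμ]; field_simp
  -- each layer
  have hlayer : ∀ j : ℕ, ∃ C : ℝ, 0 ≤ C ∧ ∀ T : ℝ, 1 ≤ T → ∀ S : Finset ℂ,
      (∀ z ∈ S, X z = 0 ∧ |z.im| ≤ T ∧ j * μ ≤ |z.re| ∧ |z.re| < (j + 1) * μ) →
      ∑ z ∈ S, (analyticOrderNatAt X z : ℝ) * T ^ (2 * κ * |z.re|) ≤ C * T ^ (2 - η) := by
    intro j
    by_cases hj : (j : ℝ) * μ ≤ δ0
    swap
    · refine ⟨0, le_rfl, fun T hT S hS => ?_⟩
      rw [zero_mul]
      refine (Finset.sum_eq_zero fun z hz1 => ?_).le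
      exfalso
      obtain ⟨a1, a2, a3, a4⟩ := hS z hz1
      exact hj (a3.trans (hz z a1))
    have hjμ0 : (0:ℝ) ≤ j * μ := by positivity
    have hf := hmin' (j * μ) hjμ0 hj
    obtain ⟨C, hC, hcn⟩ := cnt_margin h hjμ0 (hj.trans h02) hη0
    refine ⟨C, hC, fun T hT S hS => ?_⟩
    have hT0 : 0 < T := by linarith
    calc ∑ z ∈ S, (analyticOrderNatAt X z : ℝ) * T ^ (2 * κ * |z.re|)
        ≤ ∑ z ∈ S, (analyticOrderNatAt X z : ℝ) * T ^ (2 * κ * (j * μ) + η) := by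
          refine Finset.sum_le_sum fun z hz1 => ?_
          have h3 := (hS z hz1).2.2.2
          apply mul_le_mul_of_nonneg_left _ (Nat.cast_nonneg _)
          apply Real.rpow_le_rpow_of_exponent_le hT
          nlinarith
      _ = (∑ z ∈ S, (analyticOrderNatAt X z : ℝ)) * T ^ (2 * κ * (j * μ) + η) := by rw [Finset.sum_mul]
      _ ≤ (C * T ^ ((1 - 2 * (j * μ)) / (1 - j * μ) + η)) * T ^ (2 * κ * (j * μ) + η) := by
          gcongr
          exact hcn T hT S fun z hz1 => ⟨(hS z hz1).2.2.1, (hS z hz1).2.1⟩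
      _ = C * T ^ (((1 - 2 * (j * μ)) / (1 - j * μ) + η) + (2 * κ * (j * μ) + η)) := by
          rw [mul_assoc, ← Real.rpow_add hT0]
      _ ≤ C * T ^ (2 - η) := by
          gcongr
          linarith
  choose Cj hCj0 hCj using hlayer
  refine ⟨η, hη0, ∑ j ∈ range (J + 1), Cj j, Finset.sum_nonneg fun j _ => hCj0 j, fun T hT S hS => ?_⟩
  have hT0 : 0 < T := by linarith
  rw [restrict h S (fun z => T ^ (2 * κ * |z.re|))]
  rw [← Finset.sum_fiberwise_of_maps_to (s := S.filter (fun z => X z = 0)) (t := range (J + 1))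
    (g := fun z => ⌊|z.re| / μ⌋₊) (fun z hz1 => by
      rw [Finset.mem_filter] at hz1
      rw [Finset.mem_range, Nat.floor_lt (by positivity), div_lt_iff₀ hμ0]
      have h3 := (hz z hz1.2).trans h02
      push_cast
      rw [add_mul, hJμ, one_mul]
      linarith)]
  rw [Finset.sum_mul]
  refine Finset.sum_le_sum fun j _ => ?_
  refine hCj j T hT _ fun z hz1 => ?_
  rw [Finset.mem_filter, Finset.mem_filter] at hz1
  have h3 : (j : ℝ) ≤ |z.re| / μ := by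
    rw [← hz1.2]
    exact Nat.floor_le (by positivity)
  have h4 : |z.re| / μ < j + 1 := by
    rw [← hz1.2]
    exact Nat.lt_floor_add_one _
  rw [le_div_iff₀ hμ0] at h3
  rw [div_lt_iff₀ hμ0] at h4
  exact ⟨hz1.1.2, hS z hz1.1.1, h3, h4⟩

/-- the density hypothesis for the scaled data -/
theorem dnS (h : P2 κ0 X) {κ : ℝ} (hκ : 0 < κ) {δ0 : ℝ} (h0 : 0 ≤ δ0) (h02 : δ0 ≤ 1 / 2)
    (hz : ∀ z, X z = 0 → |z.re| ≤ δ0)
    (hc : ∀ δ : ℝ, 0 ≤ δ → δ ≤ δ0 → (1 - 2 * δ) / (1 - δ) + 2 * κ * δ < 2) : Dn (MS X) (2 * κ) := by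
  classical
  obtain ⟨η, hη, C, hC, h1⟩ := dnA h hκ h0 h02 hz hc
  refine ⟨η, hη, 2 * (C * 2 ^ (2 - η)), by positivity, fun T hT S hS => ?_⟩
  have hT0 : 0 < T := by linarith
  have e1 : ∀ w : ℂ, (w / 2).im = w.im / 2 := fun w => by
    rw [show (w / 2 : ℂ) = w / ((2 : ℝ) : ℂ) by push_cast; rfl, Complex.div_ofReal_im]
  have e2 : ∀ w : ℂ, (w / 2).re = w.re / 2 := fun w => by
    rw [show (w / 2 : ℂ) = w / ((2 : ℝ) : ℂ) by push_cast; rfl, Complex.div_ofReal_re]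
  rw [sum_MS]
  have key : ∀ w : ℂ, T ^ (2 * (2 * κ) * |w.re / 2|) ≤ (2 * T) ^ (2 * κ * |w.re|) := by
    intro w
    rw [abs_div, abs_two]
    have e3 : 2 * (2 * κ) * (|w.re| / 2) = 2 * κ * |w.re| := by ring
    rw [e3]
    exact Real.rpow_le_rpow hT0.le (by linarith) (by positivity)
  have e4 : (2 * T) ^ (2 - η) = 2 ^ (2 - η) * T ^ (2 - η) := Real.mul_rpow (by norm_num) hT0.le
  have b1 := h1 (2 * T) (by linarith) (S.image (fun z => 2 * z)) (fun z hz => by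
    rw [Finset.mem_image] at hz
    obtain ⟨w, hw, rfl⟩ := hz
    have e : (2 * w : ℂ).im = 2 * w.im := by simp
    rw [e, abs_mul, abs_two]
    linarith [hS w hw])
  have b2 := h1 (2 * T) (by linarith) (S.image (fun z => conj (2 * z))) (fun z hz => by
    rw [Finset.mem_image] at hz
    obtain ⟨w, hw, rfl⟩ := hz
    have e : (conj (2 * w : ℂ)).im = -(2 * w.im) := by simp
    rw [e, abs_neg, abs_mul, abs_two]
    linarith [hS w hw])
  rw [e4] at b1 b2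
  have c1 : ∑ w ∈ S.image (fun z => 2 * z), (analyticOrderNatAt X w : ℝ) * T ^ (2 * (2 * κ) * |(w / 2).re|) ≤
      C * (2 ^ (2 - η) * T ^ (2 - η)) := by
    refine le_trans (Finset.sum_le_sum fun w _ => ?_) b1
    rw [e2]
    exact mul_le_mul_of_nonneg_left (key w) (Nat.cast_nonneg _)
  have c2 : ∑ w ∈ S.image (fun z => conj (2 * z)), (analyticOrderNatAt X w : ℝ) * T ^ (2 * (2 * κ) * |(conj w / 2).re|) ≤
      C * (2 ^ (2 - η) * T ^ (2 - η)) := by
    refine le_trans (Finset.sum_le_sum fun w _ => ?_) b2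
    rw [e2, Complex.conj_re]
    exact mul_le_mul_of_nonneg_left (key w) (Nat.cast_nonneg _)
  linarith

/-! ### scaling -/

lemma W_scale (b : ℝ) (z : ℂ) : W (2 * b) (2 * z) = W b z := by
  unfold W
  push_cast
  rw [show (2 * z - 2 * b : ℂ) = 2 * (z - b) by ring, show (2 * z + 2 * b : ℂ) = 2 * (z + b) by ring]
  exact mul_div_mul_left _ _ two_ne_zero

lemma li_scale (b : ℝ) (n : ℕ) : li (MS X) b n = li (MX X) (2 * b) n := by
  unfold li
  have e := (Equiv.mulLeft₀ (2 : ℂ) two_ne_zero).tsum_eq (fun z : ℂ => MX X z * (1 - (W (2 * b) z ^ n).re))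
  rw [← e]
  refine tsum_congr fun z => ?_
  have e1 : (Equiv.mulLeft₀ (2 : ℂ) two_ne_zero) z = 2 * z := rfl
  rw [e1, W_scale]
  rfl

lemma summ_MX (hκ : 1 / 2 ≤ κ0) (h : P2 κ0 X) {b : ℝ} (hb : 2 ≤ b) (n : ℕ) :
    Summable (fun z => MX X z * (1 - (W b z ^ n).re)) := by
  have h1 := Pool.Agent.N831.LI.summ (zsX hκ h) (b := b / 2) (by linarith) n
  rw [← (Equiv.mulLeft₀ (2 : ℂ) two_ne_zero).summable_iff]
  refine h1.congr fun z => ?_
  have e1 : (Equiv.mulLeft₀ (2 : ℂ) two_ne_zero) z = 2 * z := rfl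
  have e2 : W b (2 * z) = W (b / 2) z := by
    rw [← W_scale (b / 2) z]
    congr 1
    ring
  show _ = MX X ((Equiv.mulLeft₀ (2 : ℂ) two_ne_zero) z) * (1 - (W b ((Equiv.mulLeft₀ (2 : ℂ) two_ne_zero) z) ^ n).re)
  rw [e1, e2]
  rfl

/-- the Li coefficient of `X` itself -/
noncomputable def liX (X : ℂ → ℂ) (b : ℝ) (n : ℕ) : ℝ :=
  ∑' z : ℂ, (analyticOrderNatAt X z : ℝ) * (1 - (W b z ^ n).re)

lemma liX_eq (hκ : 1 / 2 ≤ κ0) (h : P2 κ0 X) {b : ℝ} (hb : 2 ≤ b) (n : ℕ) : li (MX X) b n = 2 * liX X b n := by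
  have h1 := summ_MX hκ h hb n
  have h2 : Summable (fun z => (analyticOrderNatAt X z : ℝ) * (1 - (W b z ^ n).re)) := by
    refine Summable.of_norm_bounded h1.abs fun z => ?_
    rw [Real.norm_eq_abs, abs_mul, abs_mul, abs_of_nonneg (MX_nn z), abs_of_nonneg (Nat.cast_nonneg _)]
    apply mul_le_mul_of_nonneg_right _ (abs_nonneg _)
    unfold MX
    have : (0 : ℝ) ≤ analyticOrderNatAt X (conj z) := Nat.cast_nonneg _
    linarith
  have h3 : Summable (fun z => (analyticOrderNatAt X (conj z) : ℝ) * (1 - (W b z ^ n).re)) := by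
    have h4 := (Equiv.mk (fun z : ℂ => conj z) (fun z : ℂ => conj z) (fun z => Complex.conj_conj z)
      (fun z => Complex.conj_conj z)).summable_iff.2 h2
    refine h4.congr fun z => ?_
    show (analyticOrderNatAt X (conj z) : ℝ) * (1 - (W b (conj z) ^ n).re) = _
    rw [Pool.Agent.N831.LI.W_conj, ← map_pow, Complex.conj_re]
  have h5 : ∑' z : ℂ, (analyticOrderNatAt X (conj z) : ℝ) * (1 - (W b z ^ n).re) = liX X b n := by
    have h6 := (Equiv.mk (fun z : ℂ => conj z) (fun z : ℂ => conj z) (fun z => Complex.conj_conj z)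
      (fun z => Complex.conj_conj z)).tsum_eq (fun z => (analyticOrderNatAt X z : ℝ) * (1 - (W b z ^ n).re))
    unfold liX
    rw [← h6]
    refine tsum_congr fun z => ?_
    show _ = (analyticOrderNatAt X (conj z) : ℝ) * (1 - (W b (conj z) ^ n).re)
    rw [Pool.Agent.N831.LI.W_conj, ← map_pow, Complex.conj_re]
  have h7 : li (MX X) b n = ∑' z : ℂ, (analyticOrderNatAt X z : ℝ) * (1 - (W b z ^ n).re) +
      ∑' z : ℂ, (analyticOrderNatAt X (conj z) : ℝ) * (1 - (W b z ^ n).re) := by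
    rw [← h2.tsum_add h3]
    unfold li
    refine tsum_congr fun z => ?_
    unfold MX
    ring
  rw [h7, h5, two_mul]
  rfl

/-! ### asymptotics -/

lemma asy_le (x0 : ℝ) {κ κ' : ℝ} (hκ : 0 < κ) (h : κ < κ') : ∀ᶠ a : ℝ in atTop,
    κ * a * Real.log a ≤ 2 * κ' * ((a - x0) / 2) * Real.log ((a - x0) / 2) := by
  -- choose `d`
  obtain ⟨d, hd0, hd1, hd⟩ : ∃ d : ℝ, 0 < d ∧ d < 1 ∧ κ ≤ κ' * (1 - d) ^ 2 := by
    have hκ' : 0 < κ' := by linarith
    have hk : 0 < (κ' - κ) / (2 * κ') := by apply div_pos <;> linarith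
    have hk1 : (κ' - κ) / (2 * κ') < 1 := by rw [div_lt_one (by linarith)]; linarith
    refine ⟨(κ' - κ) / (2 * κ'), hk, hk1, ?_⟩
    set e := (κ' - κ) / (2 * κ') with he
    have h2 : 2 * κ' * e = κ' - κ := by rw [he]; field_simp
    nlinarith [sq_nonneg e]
  have e1 : ∀ᶠ a : ℝ in atTop, x0 / d ≤ a := eventually_ge_atTop _
  have e2 := Real.tendsto_log_atTop.eventually_ge_atTop (Real.log 4 / d)
  filter_upwards [e1, e2, eventually_ge_atTop (max 1 (2 * x0))] with a h1 h2 h3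
  have ha1 : 1 ≤ a := (le_max_left _ _).trans h3
  have ha2 : 2 * x0 ≤ a := (le_max_right _ _).trans h3
  rw [div_le_iff₀ hd0] at h1 h2
  have hL : 0 ≤ Real.log a := Real.log_nonneg ha1
  have h4 : (1 - d) * (a / 2) ≤ (a - x0) / 2 := by linarith
  have h5 : (1 - d) * Real.log a ≤ Real.log ((a - x0) / 2) := by
    have h6 : Real.log (a / 4) ≤ Real.log ((a - x0) / 2) := Real.log_le_log (by positivity) (by linarith)
    rw [Real.log_div (by positivity) (by norm_num)] at h6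
    linarith
  have h7 : 0 ≤ (1 - d) * (a / 2) := by
    have : 0 ≤ 1 - d := by linarith
    positivity
  have h8 : 0 ≤ (1 - d) * Real.log a := mul_nonneg (by linarith) hL
  have h9 : ((1 - d) * (a / 2)) * ((1 - d) * Real.log a) ≤ ((a - x0) / 2) * Real.log ((a - x0) / 2) :=
    mul_le_mul h4 h5 h8 (h7.trans h4)
  have h10 : κ * (a * Real.log a) ≤ κ' * (1 - d) ^ 2 * (a * Real.log a) :=
    mul_le_mul_of_nonneg_right hd (by positivity)
  have hκ' : 0 < κ' := by linarith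
  calc κ * a * Real.log a = κ * (a * Real.log a) := by ring
    _ ≤ κ' * (1 - d) ^ 2 * (a * Real.log a) := h10
    _ = 2 * κ' * (((1 - d) * (a / 2)) * ((1 - d) * Real.log a)) := by ring
    _ ≤ 2 * κ' * (((a - x0) / 2) * Real.log ((a - x0) / 2)) := by gcongr
    _ = _ := by ring

lemma asy_ge (x0 : ℝ) {κ κ' : ℝ} (hκ : 0 < κ) (h : κ < κ') : ∀ᶠ a : ℝ in atTop,
    2 * κ * ((a - x0) / 2) * Real.log ((a - x0) / 2) ≤ κ' * a * Real.log a := by
  obtain ⟨d, hd0, hd⟩ : ∃ d : ℝ, 0 < d ∧ κ * (1 + d) = κ' := by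
    refine ⟨(κ' - κ) / κ, by apply div_pos <;> linarith, ?_⟩
    field_simp
    ring
  filter_upwards [eventually_ge_atTop (max 1 (max (2 * |x0|) (|x0| / d)))] with a h3
  have ha1 : 1 ≤ a := (le_max_left _ _).trans h3
  have ha2 : 2 * |x0| ≤ a := (le_max_left _ _).trans ((le_max_right _ _).trans h3)
  have ha3 : |x0| / d ≤ a := (le_max_right _ _).trans ((le_max_right _ _).trans h3)
  rw [div_le_iff₀ hd0] at ha3
  have hx1 := le_abs_self x0
  have hx2 := neg_abs_le x0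
  have hL : 0 ≤ Real.log a := Real.log_nonneg ha1
  have h4 : (a - x0) / 2 ≤ (1 + d) * (a / 2) := by linarith
  have hpos : 0 < (a - x0) / 2 := by linarith
  have h5 : Real.log ((a - x0) / 2) ≤ Real.log a := Real.log_le_log hpos (by linarith)
  have h6 : ((a - x0) / 2) * Real.log ((a - x0) / 2) ≤ (1 + d) * (a / 2) * Real.log a := by
    calc ((a - x0) / 2) * Real.log ((a - x0) / 2) ≤ ((a - x0) / 2) * Real.log a :=
          mul_le_mul_of_nonneg_left h5 hpos.le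
      _ ≤ _ := mul_le_mul_of_nonneg_right h4 hL
  calc 2 * κ * ((a - x0) / 2) * Real.log ((a - x0) / 2) = 2 * κ * (((a - x0) / 2) * Real.log ((a - x0) / 2)) := by ring
    _ ≤ 2 * κ * ((1 + d) * (a / 2) * Real.log a) := by gcongr
    _ = κ * (1 + d) * a * Real.log a := by ring
    _ = _ := by rw [hd]

lemma half_tendsto (x0 : ℝ) : Tendsto (fun a : ℝ => (a - x0) / 2) atTop atTop := by
  have h1 : Tendsto (fun a : ℝ => a - x0) atTop atTop := by
    have := tendsto_atTop_add_const_right atTop (-x0) tendsto_id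
    simpa [sub_eq_add_neg] using this
  exact h1.atTop_div_const (by norm_num)

/-- **Positivity.** -/
theorem pos (hκ0 : 1 / 2 ≤ κ0) (h : P2 κ0 X) (x0 : ℝ) {κ κ' : ℝ} (hκ : 0 < κ) (hκκ : κ < κ') {δ0 : ℝ} (h0 : 0 ≤ δ0)
    (h02 : δ0 ≤ 1 / 2) (hz : ∀ z, X z = 0 → |z.re| ≤ δ0)
    (hc : ∀ δ : ℝ, 0 ≤ δ → δ ≤ δ0 → (1 - 2 * δ) / (1 - δ) + 2 * κ' * δ < 2) :
    ∃ c : ℝ, 0 < c ∧ ∀ᶠ a : ℝ in atTop, ∀ n : ℕ, 1 ≤ n → (n : ℝ) ≤ κ * a * Real.log a →
      c * n * a * Real.log a ≤ liX X (a - x0) n := by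
  have hκ' : 0 < κ' := by linarith
  obtain ⟨c, hcp, h1⟩ := Pool.Agent.N831.LI.direct (zsX hκ0 h) (κ := 2 * κ') (by linarith)
    (dnS h hκ' h0 h02 hz hc)
  refine ⟨c / 8, by positivity, ?_⟩
  filter_upwards [(half_tendsto x0).eventually h1, asy_le x0 hκ hκκ, asy_le x0 (κ := 1 / 2) (κ' := 1) (by norm_num)
    (by norm_num), (half_tendsto x0).eventually_ge_atTop 1] with a k1 k2 k3 k4
  intro n hn hnk
  have h2 := k1 n hn (hnk.trans k2)
  rw [li_scale, show 2 * ((a - x0) / 2) = a - x0 by ring, liX_eq hκ0 h (by linarith)] at h2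
  have hn0 : (0 : ℝ) ≤ n := Nat.cast_nonneg n
  have h3 : c * n * (1 / 2 * a * Real.log a) ≤ c * n * (2 * 1 * ((a - x0) / 2) * Real.log ((a - x0) / 2)) :=
    mul_le_mul_of_nonneg_left k3 (by positivity)
  linarith

/-- **Negativity.** -/
theorem neg (hκ0 : 1 / 2 ≤ κ0) (h : P2 κ0 X) (x0 : ℝ) {κ : ℝ} (hκ : 0 < κ) {z : ℂ} (hz : X z = 0)
    (hre : 1 < κ * |z.re|) :
    ∀ᶠ a : ℝ in atTop, ∃ n : ℕ, 1 ≤ n ∧ (n : ℝ) ≤ κ * a * Real.log a ∧ liX X (a - x0) n < 0 := by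
  -- a smaller constant
  obtain ⟨κ1, hκ1, hκ2, hre1⟩ : ∃ κ1 : ℝ, 0 < κ1 ∧ κ1 < κ ∧ 1 < κ1 * |z.re| := by
    have hzr : 0 < |z.re| := by
      rcases (abs_nonneg z.re).eq_or_lt with h1 | h1
      · rw [← h1, mul_zero] at hre; linarith
      · exact h1
    have h1 : 1 / |z.re| < κ := by rw [div_lt_iff₀ hzr]; exact hre
    obtain ⟨κ1, h2, h3⟩ := exists_between h1
    refine ⟨κ1, lt_trans (by positivity) h2, h3, ?_⟩
    rwa [div_lt_iff₀ hzr] at h2
  have hM : MS X (z / 2) ≠ 0 := by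
    unfold MS
    rw [show 2 * (z / 2) = z by ring]
    exact MX_ne h hz
  have e2 : (z / 2).re = z.re / 2 := by
    rw [show (z / 2 : ℂ) = z / ((2 : ℝ) : ℂ) by push_cast; rfl, Complex.div_ofReal_re]
  have h1 := Pool.Agent.N831.LI.converse (zsX hκ0 h) (κ := 2 * κ1) (by linarith) hM (by
    rw [e2, abs_div, abs_two]
    linarith)
  filter_upwards [(half_tendsto x0).eventually h1, asy_ge x0 hκ1 hκ2, (half_tendsto x0).eventually_ge_atTop 1]
    with a ⟨n, hn, hnk, hneg⟩ k2 k3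
  refine ⟨n, hn, hnk.trans k2, ?_⟩
  rw [li_scale, show 2 * ((a - x0) / 2) = a - x0 by ring, liX_eq hκ0 h (by linarith)] at hneg
  linarith

end Pool.Agent.N831.LP
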