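import Pool.Agent.N831.LP.F

/-!
# Li coefficients with a large base point: the theorem for a completed L-function
-/

set_option autoImplicit false

open Filter Topology Complex
open scoped ComplexConjugate

namespace Pool.Agent.N831.LP

open Pool.Agent.N831.LI (W)

/-- The Li coefficient with base point `a`. -/
noncomputable def lam (Λ : ℂ → ℂ) (m a : ℝ) (n : ℕ) : ℝ :=
  ∑' ρ : {ρ : ℂ // Λ ρ = 0}, (analyticOrderNatAt Λ ρ : ℝ) * (1 - (((ρ : ℂ) - a) / (ρ + a - m)) ^ n).re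

/-- The coefficients with `n ≤ κ a log a` are at least `c n a log a`, for all large `a`. -/
def Large (Λ : ℂ → ℂ) (m κ : ℝ) : Prop := ∃ c : ℝ, 0 < c ∧ ∀ᶠ a : ℝ in atTop, ∀ n : ℕ, 1 ≤ n →
  (n : ℝ) ≤ κ * a * Real.log a → c * n * a * Real.log a ≤ lam Λ m a n

/-- The coefficients with `n ≤ κ a log a` are nonnegative, for arbitrarily large `a`. -/
def SometimesNonneg (Λ : ℂ → ℂ) (m κ : ℝ) : Prop := ∃ᶠ a : ℝ in atTop, ∀ n : ℕ, 1 ≤ n →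
  (n : ℝ) ≤ κ * a * Real.log a → 0 ≤ lam Λ m a n

/-- `Λ` has no zeros with `Re s > θ`. -/
def ZeroFree (Λ : ℂ → ℂ) (θ : ℝ) : Prop := ∀ s : ℂ, θ < s.re → Λ s ≠ 0

variable {κ0 : ℝ} {Λ : ℂ → ℂ} {m : ℝ} {v : ℂ}

lemma diff_of (hv : v ≠ 0) (h : P2 κ0 (fun z => v * Λ (((m / 2 : ℝ) : ℂ) + z))) : Differentiable ℂ Λ := by
  have h1 := h.pl.diff
  have h2 : Differentiable ℂ (fun s : ℂ => s - ((m / 2 : ℝ) : ℂ)) := by fun_prop
  have h3 := (h1.comp h2).const_mul v⁻¹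
  have e : (fun s => v⁻¹ * ((fun z => v * Λ (((m / 2 : ℝ) : ℂ) + z)) ∘ (fun s : ℂ => s - ((m / 2 : ℝ) : ℂ))) s) = Λ := by
    funext s
    simp only [Function.comp]
    rw [← mul_assoc, inv_mul_cancel₀ hv, one_mul]
    congr 1
    ring
  rw [e] at h3
  exact h3

lemma order_of (hv : v ≠ 0) (h : P2 κ0 (fun z => v * Λ (((m / 2 : ℝ) : ℂ) + z))) (z : ℂ) :
    analyticOrderNatAt (fun z => v * Λ (((m / 2 : ℝ) : ℂ) + z)) z = analyticOrderNatAt Λ (((m / 2 : ℝ) : ℂ) + z) := by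
  have hΛ := diff_of hv h
  have h2 : Differentiable ℂ (fun s : ℂ => ((m / 2 : ℝ) : ℂ) + s) := by fun_prop
  have h1 : Differentiable ℂ (Λ ∘ (fun s : ℂ => ((m / 2 : ℝ) : ℂ) + s)) := hΛ.comp h2
  rw [order_const_mul (G := fun z => v * Λ (((m / 2 : ℝ) : ℂ) + z)) h1 hv (fun _ => rfl) z]
  unfold analyticOrderNatAt
  rw [analyticOrderAt_comp_of_deriv_ne_zero]
  · exact h2.analyticAt z
  · have : deriv (fun s : ℂ => ((m / 2 : ℝ) : ℂ) + s) z = 1 := by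
      rw [deriv_const_add]
      exact deriv_id z
    rw [this]
    exact one_ne_zero

lemma lam_eq (hv : v ≠ 0) (h : P2 κ0 (fun z => v * Λ (((m / 2 : ℝ) : ℂ) + z))) (a : ℝ) (n : ℕ) :
    lam Λ m a n = liX (fun z => v * Λ (((m / 2 : ℝ) : ℂ) + z)) (a - m / 2) n := by
  classical
  have hΛ := diff_of hv h
  unfold liX
  rw [← (Equiv.addLeft ((m / 2 : ℝ) : ℂ)).symm.tsum_eq]
  have e0 := tsum_subtype {ρ : ℂ | Λ ρ = 0} (fun ρ : ℂ => (analyticOrderNatAt Λ ρ : ℝ) *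
    (1 - ((ρ - a) / (ρ + a - m)) ^ n).re)
  have e1 : lam Λ m a n = ∑' ρ : ℂ, Set.indicator {ρ : ℂ | Λ ρ = 0} (fun ρ : ℂ => (analyticOrderNatAt Λ ρ : ℝ) *
    (1 - ((ρ - a) / (ρ + a - m)) ^ n).re) ρ := e0
  rw [e1]
  refine tsum_congr fun ρ => ?_
  have e : (Equiv.addLeft ((m / 2 : ℝ) : ℂ)).symm ρ = -((m / 2 : ℝ) : ℂ) + ρ := rfl
  rw [e, order_of hv h]
  have e2 : ((m / 2 : ℝ) : ℂ) + (-((m / 2 : ℝ) : ℂ) + ρ) = ρ := by ring
  rw [e2]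
  by_cases h0 : Λ ρ = 0
  · rw [Set.indicator_of_mem (show ρ ∈ {ρ : ℂ | Λ ρ = 0} from h0)]
    unfold W
    rw [Complex.sub_re, Complex.one_re]
    have e3 : (-((m / 2 : ℝ) : ℂ) + ρ) - ((a - m / 2 : ℝ) : ℂ) = ρ - a := by push_cast; ring
    have e4 : (-((m / 2 : ℝ) : ℂ) + ρ) + ((a - m / 2 : ℝ) : ℂ) = ρ + a - m := by push_cast; ring
    rw [e3, e4]
  · rw [Set.indicator_of_notMem (show ρ ∉ {ρ : ℂ | Λ ρ = 0} from h0)]
    have : analyticOrderNatAt Λ ρ = 0 := by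
      unfold analyticOrderNatAt
      rw [(hΛ.analyticAt ρ).analyticOrderAt_eq_zero.2 h0]
      rfl
    rw [this]
    simp

/-- the condition in the range `[0, d]` -/
lemma cond {κ d : ℝ} (hd : 0 ≤ d) (hd2 : d ≤ 1 / 2) (hκ : 2 * κ * (d * (1 - d)) < 1) (hκ0 : 0 < κ) :
    ∀ δ : ℝ, 0 ≤ δ → δ ≤ d → (1 - 2 * δ) / (1 - δ) + 2 * κ * δ < 2 := by
  intro δ h1 h2
  have h3 : 0 < 1 - δ := by linarith
  rw [div_add' _ _ _ h3.ne', div_lt_iff₀ h3]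
  have h4 : δ * (1 - δ) ≤ d * (1 - d) := by nlinarith
  nlinarith

/-- a zero off the line gives one on the right -/
lemma symm_zero (hv : v ≠ 0) (h : P2 κ0 (fun z => v * Λ (((m / 2 : ℝ) : ℂ) + z))) {θ : ℝ}
    (hz : ZeroFree Λ (m / 2 + θ)) (z : ℂ) (h0 : (fun z => v * Λ (((m / 2 : ℝ) : ℂ) + z)) z = 0) : |z.re| ≤ θ := by
  have key : ∀ w : ℂ, (fun z => v * Λ (((m / 2 : ℝ) : ℂ) + z)) w = 0 → w.re ≤ θ := by
    intro w hw
    by_contra h1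
    push Not at h1
    refine hz (((m / 2 : ℝ) : ℂ) + w) ?_ ?_
    · rw [Complex.add_re, Complex.ofReal_re]
      linarith
    · rcases mul_eq_zero.1 hw with h2 | h2
      · exact absurd h2 hv
      · exact h2
  rw [abs_le]
  refine ⟨?_, key z h0⟩
  have h1 := h.pl.sy.symm z
  have h0' : v * Λ (((m / 2 : ℝ) : ℂ) + z) = 0 := h0
  simp only [h0', map_zero] at h1
  have h2 := key _ h1
  rw [Complex.neg_re, Complex.conj_re] at h2
  linarith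

lemma large_mono {κ κ' : ℝ} (h : κ ≤ κ') (h1 : Large Λ m κ') : Large Λ m κ := by
  obtain ⟨c, hc, h1⟩ := h1
  refine ⟨c, hc, ?_⟩
  filter_upwards [h1, eventually_ge_atTop (1 : ℝ)] with a ha ha1 n hn hnk
  refine ha n hn (hnk.trans ?_)
  have h2 := Real.log_nonneg ha1
  gcongr

theorem large_quasi (hκ0 : 1 / 2 ≤ κ0) (hv : v ≠ 0) (h : P2 κ0 (fun z => v * Λ (((m / 2 : ℝ) : ℂ) + z))) {d : ℝ}
    (hd : 0 < d) (hd2 : d ≤ 1 / 2) (hz : ∀ z, (fun z => v * Λ (((m / 2 : ℝ) : ℂ) + z)) z = 0 → |z.re| ≤ d) {κ : ℝ}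
    (hκ : κ < 1 / (2 * (d * (1 - d)))) : Large Λ m κ := by
  have h3 : 0 < d * (1 - d) := mul_pos hd (by linarith)
  have h4 : max κ 0 < 1 / (2 * (d * (1 - d))) := max_lt hκ (by positivity)
  obtain ⟨κ', h5, h6⟩ := exists_between h4
  obtain ⟨κ1, h7, h8⟩ := exists_between h5
  have h9 : 0 < κ1 := (le_max_right _ _).trans_lt h7
  have h10 : κ ≤ κ1 := (le_max_left _ _).trans h7.le
  have h11 : 0 < κ' := h9.trans h8
  rw [lt_div_iff₀ (by positivity)] at h6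
  obtain ⟨c, hc, h12⟩ := pos hκ0 h (m / 2) h9 h8 hd.le hd2 hz (cond hd.le hd2 (by linarith) h11)
  refine large_mono h10 ⟨c, hc, h12.mono fun a ha n hn hnk => ?_⟩
  rw [lam_eq hv h]
  exact ha n hn hnk

theorem negative (hκ0 : 1 / 2 ≤ κ0) (hv : v ≠ 0) (h : P2 κ0 (fun z => v * Λ (((m / 2 : ℝ) : ℂ) + z))) {κ : ℝ}
    (hκ : 0 < κ) {s : ℂ} (hs : Λ s = 0) (hre : m / 2 + 1 / κ < s.re) :
    ∀ᶠ a : ℝ in atTop, ∃ n : ℕ, 1 ≤ n ∧ (n : ℝ) ≤ κ * a * Real.log a ∧ lam Λ m a n < 0 := by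
  have h1 : (fun z => v * Λ (((m / 2 : ℝ) : ℂ) + z)) (s - ((m / 2 : ℝ) : ℂ)) = 0 := by
    show v * Λ (((m / 2 : ℝ) : ℂ) + (s - ((m / 2 : ℝ) : ℂ))) = 0
    rw [add_sub_cancel, hs, mul_zero]
  have h2 : 1 < κ * |(s - ((m / 2 : ℝ) : ℂ)).re| := by
    rw [Complex.sub_re, Complex.ofReal_re]
    have h3 : 1 / κ < s.re - m / 2 := by linarith
    have h4 := le_abs_self (s.re - m / 2)
    rw [div_lt_iff₀ hκ] at h3
    nlinarith
  filter_upwards [neg hκ0 h (m / 2) hκ h1 h2] with a ⟨n, h3, h4, h5⟩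
  exact ⟨n, h3, h4, by rw [lam_eq hv h]; exact h5⟩

theorem zeroFree_of (hκ0 : 1 / 2 ≤ κ0) (hv : v ≠ 0) (h : P2 κ0 (fun z => v * Λ (((m / 2 : ℝ) : ℂ) + z))) {κ : ℝ}
    (hκ : 0 < κ) (hn : SometimesNonneg Λ m κ) : ZeroFree Λ (m / 2 + 1 / κ) := by
  intro s hs h0
  obtain ⟨a, ha1, ha2⟩ := (hn.and_eventually (negative hκ0 hv h hκ h0 hs)).exists
  obtain ⟨n, hn, hnk, hneg⟩ := ha2
  have := ha1 n hn hnk
  linarith

theorem large_sometimes {κ : ℝ} (h : Large Λ m κ) : SometimesNonneg Λ m κ := by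
  obtain ⟨c, hc, h1⟩ := h
  refine Eventually.frequently ?_
  filter_upwards [h1, eventually_ge_atTop (1 : ℝ)] with a ha ha1 n hn hnk
  have h2 := Real.log_nonneg ha1
  have : 0 ≤ c * n * a * Real.log a := by positivity
  exact this.trans (ha n hn hnk)

/-- all the statements -/
def All (Λ : ℂ → ℂ) (m : ℝ) : Prop :=
    (∀ κ : ℝ, κ < 2 → Large Λ m κ) ∧
    (∀ d : ℝ, 0 < d → d < 1 / 2 → ZeroFree Λ (m / 2 + d) → ∀ κ : ℝ, κ < 1 / (2 * (d * (1 - d))) → Large Λ m κ) ∧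
    (∀ (κ : ℝ) (s : ℂ), 0 < κ → Λ s = 0 → m / 2 + 1 / κ < s.re →
      ∀ᶠ a : ℝ in atTop, ∃ n : ℕ, 1 ≤ n ∧ (n : ℝ) ≤ κ * a * Real.log a ∧ lam Λ m a n < 0) ∧
    ((∃ κ : ℝ, 2 < κ ∧ SometimesNonneg Λ m κ) ↔ ∃ d : ℝ, d < 1 / 2 ∧ ZeroFree Λ (m / 2 + d)) ∧
    ((∃ κ : ℝ, 2 < κ ∧ Large Λ m κ) ↔ ∃ d : ℝ, d < 1 / 2 ∧ ZeroFree Λ (m / 2 + d)) ∧
    ((∀ s : ℂ, Λ s = 0 → s.re = m / 2) ↔ ∀ κ : ℝ, 0 < κ → SometimesNonneg Λ m κ) ∧
    ((∀ s : ℂ, Λ s = 0 → s.re = m / 2) ↔ ∀ κ : ℝ, Large Λ m κ)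

theorem main (hκ0 : 1 / 2 ≤ κ0) (hv : v ≠ 0) (h : P2 κ0 (fun z => v * Λ (((m / 2 : ℝ) : ℂ) + z))) : All Λ m := by
  have hstrip := h.pl.strip
  have hq : (∃ d : ℝ, d < 1 / 2 ∧ ZeroFree Λ (m / 2 + d)) → ∃ κ : ℝ, 2 < κ ∧ Large Λ m κ := by
    rintro ⟨d, hd, hz⟩
    -- enlarge `d`
    set d' : ℝ := max d (1 / 4) with hd'
    have h1 : d' < 1 / 2 := max_lt hd (by norm_num)
    have h2 : 0 < d' := lt_of_lt_of_le (by norm_num) (le_max_right _ _)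
    have hz' : ZeroFree Λ (m / 2 + d') := fun s hs => hz s (by
      have := le_max_left d (1 / 4)
      rw [← hd'] at this
      linarith)
    have h3 : 2 < 1 / (2 * (d' * (1 - d'))) := by
      have h5 : 0 < d' * (1 - d') := mul_pos h2 (by linarith)
      rw [lt_div_iff₀ (by positivity)]
      nlinarith [sq_pos_of_pos (sub_pos.2 h1)]
    obtain ⟨κ, h4, h5⟩ := exists_between h3
    exact ⟨κ, h4, large_quasi hκ0 hv h h2 h1.le (symm_zero hv h hz') h5⟩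
  have hz : (∃ κ : ℝ, 2 < κ ∧ SometimesNonneg Λ m κ) → ∃ d : ℝ, d < 1 / 2 ∧ ZeroFree Λ (m / 2 + d) := by
    rintro ⟨κ, h1, h2⟩
    refine ⟨1 / κ, ?_, zeroFree_of hκ0 hv h (by linarith) h2⟩
    exact one_div_lt_one_div_of_lt (by norm_num) h1
  have hRH1 : (∀ s : ℂ, Λ s = 0 → s.re = m / 2) → ∀ κ : ℝ, Large Λ m κ := by
    intro h1 κ
    set d : ℝ := 1 / (2 * (|κ| + 2)) with hd
    have hκ0' := abs_nonneg κ
    have hd0 : 0 < d := by positivity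
    have hd1 : d ≤ 1 / 2 := one_div_le_one_div_of_le (by norm_num) (by linarith)
    refine large_quasi hκ0 hv h hd0 hd1 (symm_zero hv h (θ := d) fun s hs h0 => ?_) ?_
    · have := h1 s h0
      linarith
    · have h5 : 0 < d * (1 - d) := mul_pos hd0 (by linarith)
      have e2 : 2 * (|κ| + 2) * d = 1 := by rw [hd]; field_simp
      rw [lt_div_iff₀ (by positivity)]
      have h6 := le_abs_self κ
      have h7 : κ * (2 * (d * (1 - d))) ≤ |κ| * (2 * (d * (1 - d))) := by gcongr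
      have h8 : 0 ≤ |κ| * d * d := by positivity
      have e3 : |κ| * (2 * (d * (1 - d))) = 2 * (|κ| * d) - 2 * (|κ| * d * d) := by ring
      linarith
  have hRH2 : (∀ κ : ℝ, 0 < κ → SometimesNonneg Λ m κ) → ∀ s : ℂ, Λ s = 0 → s.re = m / 2 := by
    intro h1
    have key : ∀ s : ℂ, Λ s = 0 → s.re ≤ m / 2 := by
      intro s h0
      by_contra h2
      push Not at h2
      have h3 : 0 < s.re - m / 2 := by linarith
      have h4 := zeroFree_of hκ0 hv h (κ := 2 / (s.re - m / 2)) (by positivity) (h1 _ (by positivity))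
      refine h4 s ?_ h0
      rw [one_div_div]
      linarith
    intro s h0
    refine le_antisymm (key s h0) ?_
    -- the reflected zero
    have h1 : (fun z => v * Λ (((m / 2 : ℝ) : ℂ) + z)) (s - ((m / 2 : ℝ) : ℂ)) = 0 := by
      show v * Λ (((m / 2 : ℝ) : ℂ) + (s - ((m / 2 : ℝ) : ℂ))) = 0
      rw [add_sub_cancel, h0, mul_zero]
    have h2 := symm_zero hv h (θ := 0) (fun w hw hw0 => by
      have := key w hw0
      linarith) _ h1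
    rw [Complex.sub_re, Complex.ofReal_re] at h2
    have h3 := abs_nonpos_iff.1 h2
    linarith
  refine ⟨fun κ hκ => ?_, fun d h1 h2 h3 κ hκ => large_quasi hκ0 hv h h1 h2.le (symm_zero hv h h3) hκ,
    fun κ s hκ hs hre => negative hκ0 hv h hκ hs hre, ⟨hz, fun h1 => ?_⟩, ⟨fun ⟨κ, h1, h2⟩ => hz ⟨κ, h1,
      large_sometimes h2⟩, hq⟩, ⟨fun h1 κ _ => large_sometimes (hRH1 h1 κ), hRH2⟩,
    ⟨hRH1, fun h1 => hRH2 fun κ _ => large_sometimes (h1 κ)⟩⟩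
  · refine large_quasi hκ0 hv h (d := 1 / 2) (by norm_num) le_rfl hstrip ?_
    norm_num
    exact hκ
  · obtain ⟨κ, h2, h3⟩ := hq h1
    exact ⟨κ, h2, large_sometimes h3⟩

end Pool.Agent.N831.LP
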