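import Pool.Agent.N831.LP.I

/-!
# The theorem in a form which can be applied directly
-/

set_option autoImplicit false

open Filter Topology Complex
open scoped ComplexConjugate

namespace Pool.Agent.N831.LP

/-- The coefficients `L a n` with `n ≤ κ a log a` are at least `c n a log a`, for all large `a`. -/
def LargeL (L : ℝ → ℕ → ℝ) (κ : ℝ) : Prop := ∃ c : ℝ, 0 < c ∧ ∀ᶠ a : ℝ in atTop, ∀ n : ℕ, 1 ≤ n →
  (n : ℝ) ≤ κ * a * Real.log a → c * n * a * Real.log a ≤ L a n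

/-- The coefficients with `n ≤ κ a log a` are nonnegative, for arbitrarily large `a`. -/
def SomeL (L : ℝ → ℕ → ℝ) (κ : ℝ) : Prop := ∃ᶠ a : ℝ in atTop, ∀ n : ℕ, 1 ≤ n →
  (n : ℝ) ≤ κ * a * Real.log a → 0 ≤ L a n

/-- all the statements -/
def AllL (Λ : ℂ → ℂ) (L : ℝ → ℕ → ℝ) (x : ℝ) : Prop :=
    (∀ κ : ℝ, κ < 2 → LargeL L κ) ∧
    (∀ d : ℝ, 0 < d → d < 1 / 2 → ZeroFree Λ (x + d) → ∀ κ : ℝ, κ < 1 / (2 * d * (1 - d)) → LargeL L κ) ∧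
    (∀ (κ : ℝ) (s : ℂ), 0 < κ → Λ s = 0 → x + 1 / κ < s.re →
      ∀ᶠ a : ℝ in atTop, ∃ n : ℕ, 1 ≤ n ∧ (n : ℝ) ≤ κ * a * Real.log a ∧ L a n < 0) ∧
    ((∃ κ : ℝ, 2 < κ ∧ SomeL L κ) ↔ ∃ d : ℝ, d < 1 / 2 ∧ ZeroFree Λ (x + d)) ∧
    ((∃ κ : ℝ, 2 < κ ∧ LargeL L κ) ↔ ∃ d : ℝ, d < 1 / 2 ∧ ZeroFree Λ (x + d)) ∧
    ((∀ s : ℂ, Λ s = 0 → s.re = x) ↔ ∀ κ : ℝ, 0 < κ → SomeL L κ) ∧
    ((∀ s : ℂ, Λ s = 0 → s.re = x) ↔ ∀ κ : ℝ, LargeL L κ)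

theorem main2 {κ0 : ℝ} {Λ : ℂ → ℂ} {v : ℂ} (hκ0 : 1 / 2 ≤ κ0) (hv : v ≠ 0) {x : ℝ}
    (h : P2 κ0 (fun z => v * Λ ((x : ℂ) + z))) {L : ℝ → ℕ → ℝ}
    (hL : ∀ a n, L a n = ∑' ρ : {ρ : ℂ // Λ ρ = 0}, (analyticOrderNatAt Λ ρ : ℝ) *
      (1 - (((ρ : ℂ) - a) / (ρ + a - 2 * x)) ^ n).re) : AllL Λ L x := by
  obtain ⟨m, hm⟩ : ∃ m : ℝ, m = 2 * x := ⟨_, rfl⟩
  have hx : x = m / 2 := by rw [hm]; ring
  have hL' : L = lam Λ m := by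
    funext a n
    rw [hL]
    unfold lam
    rw [hm]
    push_cast
    rfl
  rw [hx] at h
  have h1 := main hκ0 hv h
  obtain ⟨k1, k2, k3, k4, k5, k6, k7⟩ := h1
  rw [hL', hx]
  refine ⟨k1, fun d hd hd2 hz κ hκ => k2 d hd hd2 hz κ ?_, k3, k4, k5, k6, k7⟩
  rwa [mul_assoc] at hκ

/-- The sum converges absolutely. -/
theorem summable {κ0 : ℝ} {Λ : ℂ → ℂ} {v : ℂ} (hκ0 : 1 / 2 ≤ κ0) (hv : v ≠ 0) {x : ℝ}
    (h : P2 κ0 (fun z => v * Λ ((x : ℂ) + z))) {a : ℝ} (ha : x + 2 ≤ a) (n : ℕ) :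
    Summable fun ρ : {ρ : ℂ // Λ ρ = 0} => (analyticOrderNatAt Λ ρ : ℝ) *
      (1 - (((ρ : ℂ) - a) / (ρ + a - 2 * x)) ^ n).re := by
  classical
  obtain ⟨m, hm⟩ : ∃ m : ℝ, m = 2 * x := ⟨_, rfl⟩
  have hx : x = m / 2 := by rw [hm]; ring
  have h1 := summ_MX hκ0 h (b := a - x) (by linarith) n
  have h2 : Summable (fun z => (analyticOrderNatAt (fun z => v * Λ ((x : ℂ) + z)) z : ℝ) *
      (1 - (Pool.Agent.N831.LI.W (a - x) z ^ n).re)) := by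
    refine Summable.of_norm_bounded h1.abs fun z => ?_
    rw [Real.norm_eq_abs, abs_mul, abs_mul, abs_of_nonneg (MX_nn z), abs_of_nonneg (Nat.cast_nonneg _)]
    apply mul_le_mul_of_nonneg_right _ (abs_nonneg _)
    unfold MX
    have : (0 : ℝ) ≤ analyticOrderNatAt (fun z => v * Λ ((x : ℂ) + z)) (conj z) := Nat.cast_nonneg _
    linarith
  have h3 := (Equiv.addLeft (x : ℂ)).symm.summable_iff.2 h2
  have h4 := h3.subtype {ρ : ℂ | Λ ρ = 0}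
  refine h4.congr fun ρ => ?_
  have e : (Equiv.addLeft (x : ℂ)).symm (ρ : ℂ) = -(x : ℂ) + ρ := rfl
  simp only [Function.comp]
  rw [e]
  have e5 : analyticOrderNatAt (fun z => v * Λ ((x : ℂ) + z)) (-(x : ℂ) + ρ) = analyticOrderNatAt Λ ρ := by
    have h5 := order_of (m := m) hv (by rw [← hx]; exact h) (-(x : ℂ) + ρ)
    rw [← hx] at h5
    rw [h5]
    congr 1
    ring
  rw [e5]
  unfold Pool.Agent.N831.LI.W
  rw [Complex.sub_re, Complex.one_re]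
  have e3 : (-(x : ℂ) + ρ) - ((a - x : ℝ) : ℂ) = ρ - a := by push_cast; ring
  have e4 : (-(x : ℂ) + ρ) + ((a - x : ℝ) : ℂ) = ρ + a - 2 * x := by push_cast; ring
  rw [e3, e4]

end Pool.Agent.N831.LP
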