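import Pool.Agent.N831.LP.K
import Pool.Agent.Y771.NF.Dn

/-!
# Newforms of trivial character: the Mellin transform; the modular discriminant
-/

set_option autoImplicit false

namespace Pool.Agent.N831.LP

open UpperHalfPlane hiding I
open MatrixGroups CongruenceSubgroup Filter Topology Complex MeasureTheory
open Pool.Agent.Y671.GL
open Pool.Agent.Y771.NF (lm psN frm_newf Lam Xf exists_unit ldata Lam_diff)
open scoped ComplexConjugate

variable {N : ℕ} [NeZero N] {k : ℕ} {f : CuspForm (Gamma0 N : Subgroup (GL (Fin 2) ℝ)) (k : ℤ)} {ε : ℝ}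

theorem p2_mellin (hk : 1 ≤ k) (hf : W388.IsNewf N k f ε) :
    ∃ v : ℂ, v ≠ 0 ∧ P2 1 (fun z => v * Lam f ((k : ℂ) / 2 + z)) := by
  obtain ⟨u, hu, hue⟩ := exists_unit hf
  obtain ⟨Z, hFE, hL⟩ := exists_Z hk hf
  have hD := ldata hk hf hu hue hFE hL
  have hF := frm_newf hk hf
  have hN1 : (1 : ℝ) ≤ N := by exact_mod_cast Nat.one_le_iff_ne_zero.2 (NeZero.ne N)
  obtain ⟨v, X, hP, hv, hX⟩ := p2_of hk hN1 le_rfl hFE hF hL (mul_one _).symm
  have hpi := Real.pi_pos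
  have hN0 : (0 : ℝ) < N := by linarith
  have hsq : 0 < Real.sqrt N := Real.sqrt_pos.2 hN0
  obtain ⟨c, hc⟩ : ∃ c : ℝ, c = Real.sqrt N / (2 * Real.pi) := ⟨_, rfl⟩
  have hcp : 0 < c := by rw [hc]; positivity
  have hcc : (c : ℂ) ≠ 0 := by exact_mod_cast hcp.ne'
  have hcne : ∀ s : ℂ, (c : ℂ) ^ s ≠ 0 := fun s => by
    rw [Ne, Complex.cpow_eq_zero_iff]
    exact fun h => hcc h.1
  obtain ⟨w, hw⟩ : ∃ w : ℂ, w = v * (c : ℂ) ^ (1 / 2 : ℂ) / (c : ℂ) ^ ((k : ℂ) / 2) := ⟨_, rfl⟩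
  have hwne : w ≠ 0 := by
    rw [hw]
    exact div_ne_zero (mul_ne_zero hv (hcne _)) (hcne _)
  refine ⟨w, hwne, ?_⟩
  have hdX := hP.pl.diff
  have hdL : Differentiable ℂ (fun z => w * Lam f ((k : ℂ) / 2 + z)) :=
    ((Lam_diff hk hf).comp (by fun_prop)).const_mul _
  have e : (fun z => w * Lam f ((k : ℂ) / 2 + z)) = X := by
    refine Pool.Agent.R838.TW.uniq hdX hdL (G := X) ⟨1 / 2, fun _ _ => rfl⟩ ⟨1 / 2, fun z hz => ?_⟩
    have h1 := hD.eq z (Or.inr hz)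
    unfold Xf at h1
    rw [← hc, mul_assoc, mul_assoc] at h1
    have h2 := mul_left_cancel₀ hu h1
    rw [hX z hz, h2, hw]
    unfold W388.GG Hg
    rw [mul_one, ← hc, Complex.cpow_add _ _ hcc, Int.cast_natCast]
    have e3 : (1 / 2 + z + ((k : ℂ) - 1) / 2) = z + (((k : ℝ) / 2 : ℝ) : ℂ) := by
      push_cast
      ring
    rw [e3]
    have h3 := hcne ((k : ℂ) / 2)
    field_simp
  rw [e]
  exact hP

end Pool.Agent.N831.LP
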