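import Pool.Agent.N831.LP.K
import Pool.Agent.R362.NcOdd

/-!
# Newforms with nebentypus given by Satake parameters: odd Artin representations
-/

set_option autoImplicit false

namespace Pool.Agent.N831.LP

open UpperHalfPlane hiding I
open MatrixGroups CongruenceSubgroup Filter Topology Complex
open Pool.Agent.Y671.GL
open scoped ComplexConjugate

variable {N : ℕ} [NeZero N] {k : ℕ} {ψ : DirichletCharacter ℂ N}
  {f : CuspForm (Gamma1 N : Subgroup (GL (Fin 2) ℝ)) (k : ℤ)} {w : ℂ}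

theorem p2_nc (hk : 1 ≤ k) (hf : Pool.Agent.R362.NC.IsNC N k ψ f w) :
    ∃ (X : ℂ → ℂ) (v : ℂ), P2 1 X ∧ v ≠ 0 ∧
      ∀ s : ℂ, 1 < s.re → X (s - 1 / 2) = v * Pool.Agent.R362.NC.cmp f s := by
  obtain ⟨Z, hFE, hL⟩ := Pool.Agent.R362.NC.exists_Z hk hf
  have hF := Pool.Agent.R362.NC.frm hk hf
  have hN1 : (1 : ℝ) ≤ N := by exact_mod_cast Nat.one_le_iff_ne_zero.2 (NeZero.ne N)
  obtain ⟨v, X, hP, hv, hX⟩ := p2_of hk hN1 le_rfl hFE hF hL (mul_one _).symm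
  have hpi := Real.pi_pos
  have hN0 : (0 : ℝ) < N := by linarith
  have hsq : 0 < Real.sqrt N := Real.sqrt_pos.2 hN0
  obtain ⟨c, hc⟩ : ∃ c : ℝ, c = Real.sqrt N / (2 * Real.pi) := ⟨_, rfl⟩
  have hcp : 0 < c := by rw [hc]; positivity
  have hcc : (c : ℂ) ≠ 0 := by exact_mod_cast hcp.ne'
  have hcne : ∀ s : ℂ, (c : ℂ) ^ s ≠ 0 := fun s => by
    rw [Ne, Complex.cpow_eq_zero_iff]
    exact fun h => hcc h.1
  obtain ⟨r, hr, hg⟩ := Pool.Agent.R362.NC.gam_eq hc k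
  refine ⟨X, v * (c : ℂ) ^ (1 / 2 : ℂ) * r, hP, mul_ne_zero (mul_ne_zero hv (hcne _)) hr, fun s hs => ?_⟩
  have h1 := hX (s - 1 / 2) (by simp; linarith)
  rw [add_sub_cancel] at h1
  rw [h1, hL.ser s hs]
  unfold Pool.Agent.R362.NC.cmp
  have e1 : LSeries (Pool.Agent.R362.NC.lc f) s = ∑' n : ℕ, Pool.Agent.R362.NC.lc f n * (n : ℂ) ^ (-s) := by
    unfold LSeries
    refine tsum_congr fun n => ?_
    rcases Nat.eq_zero_or_pos n with rfl | hn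
    · have h0 : Pool.Agent.R362.NC.lc f 0 = 0 := hF.zero
      rw [h0, LSeries.term_zero, zero_mul]
    · rw [LSeries.term_of_ne_zero hn.ne', Complex.cpow_neg, div_eq_mul_inv]
  rw [e1]
  have h2 := hg s
  have e2 : W388.GG (k : ℤ) N 1 s = (c : ℂ) ^ (1 / 2 : ℂ) * Hg c ((k : ℝ) / 2) (s - 1 / 2) := by
    unfold W388.GG Hg
    rw [mul_one, ← hc, ← mul_assoc, ← Complex.cpow_add _ _ hcc, add_sub_cancel, Int.cast_natCast]
    congr 2
    push_cast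
    ring
  rw [e2, h2]
  ring

/-- lists -/
theorem p2_list {α : Type*} (g : α → ℂ → ℂ)
    (h : ∀ r, ∃ (X : ℂ → ℂ) (v : ℂ), P2 1 X ∧ v ≠ 0 ∧ ∀ s : ℂ, 1 < s.re → X (s - 1 / 2) = v * g r s) :
    ∀ ρ : List α, ρ ≠ [] → ∃ (κ : ℝ) (X : ℂ → ℂ) (v : ℂ), 1 / 2 ≤ κ ∧ P2 κ X ∧ v ≠ 0 ∧
      ∀ s : ℂ, 1 < s.re → X (s - 1 / 2) = v * (ρ.map fun r => g r s).prod := by
  intro ρ
  induction ρ with
  | nil => intro h0; exact absurd rfl h0
  | cons r ρ ih =>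
    intro _
    obtain ⟨X, v, h1, h2, h3⟩ := h r
    rcases eq_or_ne ρ [] with rfl | hne
    · exact ⟨1, X, v, by norm_num, h1, h2, fun s hs => by simpa using h3 s hs⟩
    · obtain ⟨κ, X', v', hκ, h1', h2', h3'⟩ := ih hne
      refine ⟨1 + κ, fun s => X s * X' s, v * v', by linarith, h1.mul h1', mul_ne_zero h2 h2', fun s hs => ?_⟩
      simp only [List.map_cons, List.prod_cons]
      rw [h3 s hs, h3' s hs]
      ring

end Pool.Agent.N831.LP
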